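import Mathlib
import Pool.Agent.H847R3.XpXqF
import Pool.Agent.R477.XQ.Overlap

/-!
A criterion for the singularity of a jointly invariant measure to a measure which has good
self-couplings by small translations.
-/

set_option autoImplicit false

open MeasureTheory Filter Topology Set
open scoped ENNReal NNReal

namespace Pool.Agent.Zk24.SC

/-- the circle -/
abbrev T := UnitAddCircle

/-- measures on pairs with marginals below `η`, converging to `c` times `η` on the diagonal -/
structure Cpl (η : Measure T) (c : ℝ) (π : ℕ → Measure (T × T)) : Prop where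
  fst : ∀ k, (π k).map Prod.fst ≤ η
  snd : ∀ k, (π k).map Prod.snd ≤ η
  lim : ∀ f : C(T × T, ℝ), Tendsto (fun k => ∫ z, f z ∂(π k)) atTop (𝓝 (c * ∫ x, f (x, x) ∂η))

lemma int_cont {X : Type*} [TopologicalSpace X] [CompactSpace X] [MeasurableSpace X] [BorelSpace X]
    [SecondCountableTopology X]
    {μ : Measure X} [IsFiniteMeasure μ] {f : X → ℝ} (hf : Continuous f) : Integrable f μ := by
  obtain ⟨M, hM⟩ := (isCompact_range hf).isBounded.exists_norm_le
  exact Integrable.of_bound (hf.measurable.aestronglyMeasurable) M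
    (Eventually.of_forall fun x => hM _ ⟨x, rfl⟩)

lemma Cpl.univ_le {η : Measure T} {c : ℝ} {π : ℕ → Measure (T × T)} (h : Cpl η c π) (k : ℕ) :
    π k univ ≤ η univ := by
  have := h.fst k univ
  rwa [Measure.map_apply measurable_fst MeasurableSet.univ, preimage_univ] at this

lemma Cpl.finite {η : Measure T} [IsFiniteMeasure η] {c : ℝ} {π : ℕ → Measure (T × T)}
    (h : Cpl η c π) (k : ℕ) : IsFiniteMeasure (π k) :=
  ⟨(h.univ_le k).trans_lt (measure_lt_top _ _)⟩

lemma Cpl.fst_le {η : Measure T} {c : ℝ} {π : ℕ → Measure (T × T)} (h : Cpl η c π) (k : ℕ)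
    {A : Set T} (hA : MeasurableSet A) : π k (Prod.fst ⁻¹' A) ≤ η A := by
  have := h.fst k A
  rwa [Measure.map_apply measurable_fst hA] at this

lemma Cpl.snd_le {η : Measure T} {c : ℝ} {π : ℕ → Measure (T × T)} (h : Cpl η c π) (k : ℕ)
    {A : Set T} (hA : MeasurableSet A) : π k (Prod.snd ⁻¹' A) ≤ η A := by
  have := h.snd k A
  rwa [Measure.map_apply measurable_snd hA] at this

/-- both points of the pair are in `E` with a probability bounded below -/
lemma Cpl.lower {η : Measure T} [IsFiniteMeasure η] {c : ℝ} (hc : 0 < c)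
    {π : ℕ → Measure (T × T)} (h : Cpl η c π) {E : Set T} (hE : MeasurableSet E) (hE0 : 0 < η E) :
    ∃ c' : ℝ≥0, 0 < c' ∧ ∀ᶠ k in atTop, (c' : ℝ≥0∞) ≤ π k (E ×ˢ E) := by
  have hm : 0 < η.real E := ENNReal.toReal_pos hE0.ne' (measure_ne_top _ _)
  set m := η.real E with hmdef
  set e : ℝ := c * m / (4 * (c + 2)) with he
  have he0 : 0 < e := by positivity
  have he1 : (c + 2) * e = c * m / 4 := by rw [he]; field_simp
  have hee : ENNReal.ofReal (e / 2) ≠ 0 := (ENNReal.ofReal_pos.2 (by positivity)).ne'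
  obtain ⟨K, hKE, hK, hKm⟩ := hE.exists_isCompact_diff_lt (measure_ne_top η E) hee
  obtain ⟨U, hEU, hU, -, hUm⟩ := hE.exists_isOpen_diff_lt (measure_ne_top η E) hee
  obtain ⟨g, hg0, hg1, hg⟩ := exists_continuous_zero_one_of_isClosed hU.isClosed_compl hK.isClosed
    (disjoint_compl_left_iff_subset.2 (hKE.trans hEU))
  have hKc : MeasurableSet K := hK.measurableSet
  have hUc : MeasurableSet U := hU.measurableSet
  let f : C(T × T, ℝ) := ⟨fun z => g z.1 * g z.2, by fun_prop⟩
  have hlim := h.lim f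
  have hlow : c * (m - e) ≤ c * ∫ x, f (x, x) ∂η := by
    refine mul_le_mul_of_nonneg_left ?_ hc.le
    have h1 : η.real K ≤ ∫ x, f (x, x) ∂η := by
      have : η.real K = ∫ x, K.indicator (fun _ => (1 : ℝ)) x ∂η := by
        rw [integral_indicator_const _ hKc]; simp
      rw [this]
      refine integral_mono ((integrable_const _).indicator hKc) (int_cont (by fun_prop)) fun x => ?_
      change K.indicator (fun _ => (1 : ℝ)) x ≤ g x * g x
      by_cases hx : x ∈ K
      · rw [indicator_of_mem hx, hg1 hx]; simp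
      · rw [indicator_of_notMem hx]; exact mul_nonneg (hg x).1 (hg x).1
    have h2 : m ≤ η.real K + η.real (E \ K) := by
      have : E = K ∪ (E \ K) := by rw [union_diff_cancel hKE]
      rw [hmdef]
      conv_lhs => rw [this]
      exact measureReal_union_le _ _
    have h3 : η.real (E \ K) ≤ e / 2 := by
      rw [Measure.real]
      refine ENNReal.toReal_le_of_le_ofReal (by positivity) hKm.le
    linarith
  have hup : ∀ k, ∫ z, f z ∂(π k) ≤ (π k).real (E ×ˢ E) + e := by
    intro k
    haveI := h.finite k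
    have h1 : ∫ z, f z ∂(π k) ≤ (π k).real (U ×ˢ U) := by
      have : (π k).real (U ×ˢ U) = ∫ z, (U ×ˢ U).indicator (fun _ => (1 : ℝ)) z ∂(π k) := by
        rw [integral_indicator_const _ (hUc.prod hUc)]; simp
      rw [this]
      refine integral_mono (int_cont f.continuous)
        ((integrable_const _).indicator (hUc.prod hUc)) fun z => ?_
      change g z.1 * g z.2 ≤ (U ×ˢ U).indicator (fun _ => (1 : ℝ)) z
      by_cases hz : z ∈ U ×ˢ U
      · rw [indicator_of_mem hz]
        exact mul_le_one₀ (hg _).2 (hg _).1 (hg _).2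
      · rw [indicator_of_notMem hz]
        rw [mem_prod, not_and_or] at hz
        rcases hz with hz | hz
        · have : g z.1 = 0 := hg0 (mem_compl hz)
          rw [this, zero_mul]
        · have : g z.2 = 0 := hg0 (mem_compl hz)
          rw [this, mul_zero]
    have h2 : (π k).real (U ×ˢ U) ≤ (π k).real (E ×ˢ E) + (π k).real (Prod.fst ⁻¹' (U \ E))
        + (π k).real (Prod.snd ⁻¹' (U \ E)) := by
      have hsub : (U ×ˢ U : Set (T × T)) ⊆ (E ×ˢ E) ∪ Prod.fst ⁻¹' (U \ E) ∪ Prod.snd ⁻¹' (U \ E) := by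
        rintro ⟨x, y⟩ ⟨hx, hy⟩
        by_cases hxE : x ∈ E
        · by_cases hyE : y ∈ E
          · exact Or.inl (Or.inl ⟨hxE, hyE⟩)
          · exact Or.inr ⟨hy, hyE⟩
        · exact Or.inl (Or.inr ⟨hx, hxE⟩)
      refine (measureReal_mono hsub).trans ((measureReal_union_le _ _).trans ?_)
      gcongr
      exact measureReal_union_le _ _
    have h3 : ∀ A : Set (T × T), (π k) A ≤ η (U \ E) → (π k).real A ≤ e / 2 := fun A hA =>
      ENNReal.toReal_le_of_le_ofReal (by positivity) (hA.trans hUm.le)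
    have h4 := h3 _ (h.fst_le k (hUc.diff hE))
    have h5 := h3 _ (h.snd_le k (hUc.diff hE))
    linarith
  refine ⟨(c * m / 4).toNNReal, by rw [Real.toNNReal_pos]; positivity, ?_⟩
  have hev : ∀ᶠ k in atTop, c * (m - e) - c * m / 4 < ∫ z, f z ∂(π k) := by
    refine hlim.eventually (lt_mem_nhds ?_)
    have : 0 < c * m / 4 := by positivity
    linarith
  filter_upwards [hev] with k hk
  haveI := h.finite k
  have h1 := hup k
  have h2 : c * m / 4 ≤ (π k).real (E ×ˢ E) := by nlinarith
  change ENNReal.ofReal (c * m / 4) ≤ _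
  exact ENNReal.ofReal_le_of_le_toReal h2

lemma exists_irrational {θ : T} (h : ¬ IsOfFinAddOrder θ) : ∃ r : ℝ, Irrational r ∧ (r : T) = θ := by
  obtain ⟨r, rfl⟩ := QuotientAddGroup.mk_surjective θ
  refine ⟨r, ?_, rfl⟩
  rintro ⟨s, rfl⟩
  apply h
  rw [isOfFinAddOrder_iff_nsmul_eq_zero]
  refine ⟨s.den, s.pos, ?_⟩
  have e1 : s.den • (((s : ℝ)) : T) = ((s.den • (s : ℝ) : ℝ) : T) := by
    rw [AddCircle.coe_nsmul]
  have e2 : (s.den • (s : ℝ) : ℝ) = ((s.num : ℤ) : ℝ) := by
    rw [nsmul_eq_mul]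
    have := Rat.den_mul_eq_num s
    exact_mod_cast this
  change s.den • (((s : ℝ)) : T) = 0
  rw [e1, e2]
  have : (((s.num : ℤ) : ℝ) : T) = s.num • ((1 : ℝ) : T) := by
    rw [← AddCircle.coe_zsmul]; simp
  rw [this, AddCircle.coe_period]
  simp

variable {p q : ℕ}

/-- **Criterion.** -/
theorem crit (hp : 2 ≤ p) (hq : 2 ≤ q) (hirr : Irrational (Real.log p / Real.log q))
    {μ : Measure T} [IsProbabilityMeasure μ]
    (hμp : MeasurePreserving (fun x : T => p • x) μ μ)
    (hμq : MeasurePreserving (fun x : T => q • x) μ μ)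
    (hsing : μ ⟂ₘ (volume : Measure T))
    {η : Measure T} [IsFiniteMeasure η] {c : ℝ} (hc : 0 < c) {π : ℕ → Measure (T × T)}
    (h : Cpl η c π)
    (hπ : (∃ C : Set T, C.Countable ∧ ∀ k, ∀ᵐ z ∂(π k), z.2 - z.1 ∈ C ∧
        ¬ IsOfFinAddOrder (z.2 - z.1)) ∨
      (∀ k, ∃ θ : T, θ ≠ 0 ∧ ∀ᵐ z ∂(π k), z.2 - z.1 = θ)) :
    μ ⟂ₘ η := by
  by_contra hns
  obtain ⟨e, he, E, hE, hE0, hle⟩ := Measure.exists_positive_of_not_mutuallySingular μ η hns
  obtain ⟨c', hc', hev⟩ := h.lower hc hE hE0
  rcases hπ with ⟨C, hC, hπ⟩ | hπ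
  · obtain ⟨k, hk⟩ := hev.exists
    have hpos : π k (E ×ˢ E) ≠ 0 := by
      intro h0
      rw [h0] at hk
      have : (c' : ℝ≥0∞) = 0 := le_antisymm hk bot_le
      rw [ENNReal.coe_eq_zero] at this
      exact hc'.ne' this
    apply hpos
    have hsub : π k (E ×ˢ E) ≤ π k (⋃ θ ∈ {θ ∈ C | ¬ IsOfFinAddOrder θ},
        (E ×ˢ E) ∩ {z | z.2 - z.1 = θ}) := by
      refine measure_mono_ae ?_
      filter_upwards [hπ k] with z hz hzE
      exact mem_iUnion₂.2 ⟨z.2 - z.1, ⟨hz.1, hz.2⟩, hzE, rfl⟩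
    refine le_antisymm (hsub.trans (le_of_eq ?_)) bot_le
    refine (measure_biUnion_null_iff (hC.mono (sep_subset _ _))).2 ?_
    rintro θ ⟨-, hθ⟩
    obtain ⟨r, hr, hrθ⟩ := exists_irrational hθ
    have hms : μ.map (fun x : T => x + θ) ⟂ₘ μ := by
      refine Pool.Agent.H847R3.XpXq.maps hp hq hirr hμp hμq hμp hμq (Or.inl hsing)
        (C := {((r, fun _ => 1) : ℝ × (ℕ → ℕ))}) (countable_singleton _) ?_
        (measurable_add_const θ) ?_
      · rintro c hc
        rw [mem_singleton_iff] at hc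
        subst hc
        exact ⟨hr, fun k => ⟨0, 0, by simp⟩⟩
      · refine Eventually.of_forall fun x => ⟨1, 1, one_ne_zero, one_ne_zero, _,
          mem_singleton _, ?_⟩
        simp only [one_smul, add_sub_cancel_left]
        rw [hrθ]
        exact tendsto_const_nhds
    obtain ⟨S, hS, hS1, hS2⟩ := hms
    rw [Measure.map_apply (measurable_add_const θ) hS] at hS1
    have hmS : MeasurableSet ((fun x : T => x + θ) ⁻¹' S) := measurable_add_const θ hS
    have n1 : η ((fun x : T => x + θ) ⁻¹' S ∩ E) = 0 := by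
      have h1 := hle _ hmS
      have h2 : μ ((fun x : T => x + θ) ⁻¹' S ∩ E) = 0 := measure_inter_null_of_null_left _ hS1
      rw [h2] at h1
      have h3 := le_antisymm h1 bot_le
      rcases mul_eq_zero.1 h3 with h4 | h4
      · rw [ENNReal.coe_eq_zero] at h4
        exact absurd h4 he.ne'
      · exact h4
    have n2 : η (Sᶜ ∩ E) = 0 := by
      have h1 := hle _ hS.compl
      have h2 : μ (Sᶜ ∩ E) = 0 := measure_inter_null_of_null_left _ hS2
      rw [h2] at h1
      have h3 := le_antisymm h1 bot_le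
      rcases mul_eq_zero.1 h3 with h4 | h4
      · rw [ENNReal.coe_eq_zero] at h4
        exact absurd h4 he.ne'
      · exact h4
    have hcov : (E ×ˢ E) ∩ {z : T × T | z.2 - z.1 = θ} ⊆
        Prod.fst ⁻¹' ((fun x : T => x + θ) ⁻¹' S ∩ E) ∪ Prod.snd ⁻¹' (Sᶜ ∩ E) := by
      rintro ⟨x, y⟩ ⟨⟨hx, hy⟩, hxy⟩
      simp only [mem_setOf_eq] at hxy hx hy
      have hy' : y = x + θ := by rw [← hxy]; abel
      by_cases hyS : y ∈ S
      · refine Or.inl ⟨?_, hx⟩
        change x + θ ∈ S
        rw [← hy']; exact hyS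
      · exact Or.inr ⟨hyS, hy⟩
    refine measure_mono_null hcov (measure_union_null ?_ ?_)
    · exact le_antisymm ((h.fst_le k (hmS.inter hE)).trans n1.le) bot_le
    · exact le_antisymm ((h.snd_le k (hS.compl.inter hE)).trans n2.le) bot_le
  · choose θ hθ0 hθ using hπ
    set c2 : ℝ≥0 := e * c' with hc2
    have hc2pos : 0 < c2 := mul_pos he hc'
    have hnle : ¬ ((c2 : ℝ≥0∞) • (volume : Measure T) ≤ μ) := by
      intro hle2
      obtain ⟨S, hS, hS1, hS2⟩ := hsing
      have h1 := hle2 S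
      rw [hS1, Measure.smul_apply, smul_eq_mul] at h1
      have h2 := le_antisymm h1 bot_le
      rcases mul_eq_zero.1 h2 with h4 | h4
      · rw [ENNReal.coe_eq_zero] at h4
        exact absurd h4 hc2pos.ne'
      · have h5 : (volume : Measure T) univ = 0 := by
          rw [← union_compl_self S]
          exact measure_union_null h4 hS2
        simp at h5
    have hfin := Pool.Agent.R477.XQ.main_fin hp hq hirr (a := 1) (b := 1) one_ne_zero one_ne_zero
      hμp hμq hnle
    set Θ := {θ : Pool.Agent.H847R3.XpXq.T | ∃ ν : Measure Pool.Agent.H847R3.XpXq.T,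
      IsProbabilityMeasure ν ∧
      MeasurePreserving (fun x : Pool.Agent.H847R3.XpXq.T => p • x) ν ν ∧
      MeasurePreserving (fun x : Pool.Agent.H847R3.XpXq.T => q • x) ν ν ∧
      Pool.Agent.R477.XQ.Ov c2 1 1 μ ν θ} with hΘ
    have hmem : ∀ᶠ k in atTop, θ k ∈ Θ := by
      filter_upwards [hev] with k hk
      refine ⟨μ, inferInstance, hμp, hμq, fun A hA => ?_⟩
      have hmA : MeasurableSet {x : T | (1 : ℤ) • x + θ k ∉ A} := by
        have : Measurable (fun x : T => (1 : ℤ) • x + θ k) := by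
          simp only [one_smul]
          exact measurable_add_const _
        exact this hA.compl
      have hcov : π k (E ×ˢ E) ≤ π k (Prod.snd ⁻¹' (A ∩ E)) +
          π k (Prod.fst ⁻¹' ({x : T | (1 : ℤ) • x + θ k ∉ A} ∩ E)) := by
        refine le_trans (measure_mono_ae ?_) (measure_union_le _ _)
        filter_upwards [hθ k] with z hz hzE
        obtain ⟨hz1, hz2⟩ := hzE
        by_cases hzA : z.2 ∈ A
        · exact Or.inl ⟨hzA, hz2⟩
        · refine Or.inr ⟨?_, hz1⟩
          change (1 : ℤ) • z.1 + θ k ∉ A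
          rw [one_smul, ← hz]
          simpa using hzA
      have h1 := h.snd_le k (hA.inter hE)
      have h2 := h.fst_le k (hmA.inter hE)
      have h3 := hle A hA
      have h4 := hle _ hmA
      calc (c2 : ℝ≥0∞) = e * c' := by rw [hc2]; push_cast; rfl
        _ ≤ e * π k (E ×ˢ E) := by gcongr
        _ ≤ e * (η (A ∩ E) + η ({x : T | (1 : ℤ) • x + θ k ∉ A} ∩ E)) := by
          gcongr
          exact hcov.trans (add_le_add h1 h2)
        _ = e * η (A ∩ E) + e * η ({x : T | (1 : ℤ) • x + θ k ∉ A} ∩ E) := by rw [mul_add]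
        _ ≤ μ (A ∩ E) + μ ({x : T | (1 : ℤ) • x + θ k ∉ A} ∩ E) := add_le_add h3 h4
        _ ≤ μ {x | (1 : ℤ) • x ∈ A} + μ {x : T | (1 : ℤ) • x + θ k ∉ A} := by
          gcongr
          · intro x hx
            simpa using hx.1
          · exact inter_subset_left
    -- the shifts tend to zero
    have hopen : ((Θ \ {0})ᶜ : Set T) ∈ 𝓝 (0 : T) := by
      have h1 : IsClosed (Θ \ {0} : Set T) := (hfin.subset sdiff_subset).isClosed
      exact h1.isOpen_compl.mem_nhds (by simp)
    obtain ⟨δ, hδ, hball⟩ := Metric.mem_nhds_iff.1 hopen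
    have hnorm : ∀ᶠ k in atTop, δ ≤ ‖θ k‖ := by
      filter_upwards [hmem] with k hk
      by_contra hlt
      have h1 : θ k ∈ Metric.ball (0 : T) δ := by
        rw [mem_ball_zero_iff]; exact not_le.1 hlt
      exact hball h1 ⟨hk, hθ0 k⟩
    let f : C(T × T, ℝ) := ⟨fun z => ‖z.2 - z.1‖, by fun_prop⟩
    have hlim := h.lim f
    have hz : c * ∫ x, f (x, x) ∂η = 0 := by
      have : ∀ x : T, f (x, x) = 0 := fun x => by change ‖x - x‖ = 0; simp
      simp [this]
    rw [hz] at hlim
    have hge : ∀ᶠ k in atTop, δ * c' ≤ ∫ z, f z ∂(π k) := by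
      filter_upwards [hnorm, hev] with k hk1 hk2
      haveI := h.finite k
      have e1 : ∫ z, f z ∂(π k) = ∫ z, ‖θ k‖ ∂(π k) := by
        refine integral_congr_ae ?_
        filter_upwards [hθ k] with z hz
        change ‖z.2 - z.1‖ = _
        rw [hz]
      rw [e1, integral_const, smul_eq_mul, mul_comm]
      have h2 : (c' : ℝ) ≤ (π k).real univ := by
        rw [Measure.real, ← ENNReal.coe_toReal]
        exact ENNReal.toReal_mono (measure_ne_top _ _) (hk2.trans (measure_mono (subset_univ _)))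
      have h3 : 0 ≤ (c' : ℝ) := c'.coe_nonneg
      rw [mul_comm]
      nlinarith [norm_nonneg (θ k)]
    have h0 : δ * c' ≤ 0 := ge_of_tendsto hlim hge
    have h1 : 0 < δ * c' := mul_pos hδ (by exact_mod_cast hc')
    linarith

end Pool.Agent.Zk24.SC
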