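import Mathlib
import Pool.Agent.Zk24.SC.Crit
import Pool.Agent.Zk32.Unif

/-!
Self-couplings of convolutions, and one set for all the translates.
-/

set_option autoImplicit false

open MeasureTheory Filter Topology Set
open scoped ENNReal NNReal

namespace Pool.Agent.Zk24.SC

/-- the diagonal map -/
def diag : T →+ T × T := (AddMonoidHom.id T).prod (AddMonoidHom.id T)

lemma diag_apply (x : T) : diag x = (x, x) := rfl

lemma meas_diag : Measurable diag := measurable_id.prodMk measurable_id

lemma conv_mono {G : Type*} [AddMonoid G] [MeasurableSpace G] [MeasurableAdd₂ G]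
    {μ μ' ν ν' : Measure G} [SFinite ν'] (h1 : μ ≤ μ') (h2 : ν ≤ ν') :
    μ.conv ν ≤ μ'.conv ν' :=
  Measure.map_mono (Measure.prod_mono h1 h2) measurable_add

lemma map_fst_diag (ω : Measure T) : (ω.map diag).map Prod.fst = ω := by
  rw [Measure.map_map measurable_fst meas_diag]
  exact Measure.map_id

lemma map_snd_diag (ω : Measure T) : (ω.map diag).map Prod.snd = ω := by
  rw [Measure.map_map measurable_snd meas_diag]
  exact Measure.map_id

lemma map_fst_conv (μ ν : Measure (T × T)) [SFinite μ] [SFinite ν] :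
    (μ.conv ν).map Prod.fst = (μ.map Prod.fst).conv (ν.map Prod.fst) :=
  Measure.map_conv_addMonoidHom (AddMonoidHom.fst T T) measurable_fst

lemma map_snd_conv (μ ν : Measure (T × T)) [SFinite μ] [SFinite ν] :
    (μ.conv ν).map Prod.snd = (μ.map Prod.snd).conv (ν.map Prod.snd) :=
  Measure.map_conv_addMonoidHom (AddMonoidHom.snd T T) measurable_snd

lemma Cpl.conv {η : Measure T} [IsFiniteMeasure η] {c : ℝ} {π : ℕ → Measure (T × T)}
    (h : Cpl η c π) (ω : Measure T) [IsFiniteMeasure ω] :
    Cpl (η.conv ω) c (fun k => (π k).conv (ω.map diag)) := by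
  have hfd : IsFiniteMeasure (ω.map diag) := inferInstance
  refine ⟨fun k => ?_, fun k => ?_, fun f => ?_⟩
  · have := h.finite k
    rw [map_fst_conv, map_fst_diag]
    exact conv_mono (h.fst k) le_rfl
  · have := h.finite k
    rw [map_snd_conv, map_snd_diag]
    exact conv_mono (h.snd k) le_rfl
  · -- smoothing of `f`
    have hFc : Continuous (fun z : T × T => ∫ t, f (z.1 + t, z.2 + t) ∂ω) := by
      obtain ⟨M, hM⟩ := (isCompact_range f.continuous).isBounded.exists_norm_le
      refine continuous_of_dominated (bound := fun _ => M) ?_ ?_ (integrable_const _) ?_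
      · intro z
        have : Continuous fun t : T => f (z.1 + t, z.2 + t) := by fun_prop
        exact this.measurable.aestronglyMeasurable
      · exact fun z => Eventually.of_forall fun t => hM _ ⟨_, rfl⟩
      · exact Eventually.of_forall fun t => by fun_prop
    let F : C(T × T, ℝ) := ⟨fun z => ∫ t, f (z.1 + t, z.2 + t) ∂ω, hFc⟩
    have h1 := h.lim F
    have e1 : ∀ k, ∫ z, f z ∂((π k).conv (ω.map diag)) = ∫ z, F z ∂(π k) := by
      intro k
      have := h.finite k
      have hfin : IsFiniteMeasure ((π k).conv (ω.map diag)) := inferInstance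
      rw [integral_conv (int_cont f.continuous)]
      refine integral_congr_ae (Eventually.of_forall fun z => ?_)
      change ∫ y, f (z + y) ∂(ω.map diag) = ∫ t, f (z.1 + t, z.2 + t) ∂ω
      rw [integral_map meas_diag.aemeasurable]
      · rfl
      · have : Continuous fun y : T × T => f (z + y) := by fun_prop
        exact this.measurable.aestronglyMeasurable
    have e2 : ∫ x, f (x, x) ∂(η.conv ω) = ∫ x, F (x, x) ∂η := by
      have hfin : IsFiniteMeasure (η.conv ω) := inferInstance
      rw [integral_conv (f := fun x => f (x, x)) (int_cont (by fun_prop))]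
      rfl
    simp_rw [e1, e2]
    exact h1

/-- the kind of the differences is kept -/
lemma conv_ae {π : Measure (T × T)} [IsFiniteMeasure π] {ω : Measure T} [IsFiniteMeasure ω]
    {Q : T → Prop} (hQ : MeasurableSet {t | Q t}) (h : ∀ᵐ z ∂π, Q (z.2 - z.1)) :
    ∀ᵐ z ∂(π.conv (ω.map diag)), Q (z.2 - z.1) := by
  have hm : MeasurableSet {z : T × T | Q (z.2 - z.1)} := by
    have : Measurable fun z : T × T => z.2 - z.1 := by fun_prop
    exact this hQ
  rw [Measure.conv, ae_map_iff measurable_add.aemeasurable hm]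
  have h1 : (ω.map diag) = ω.map diag := rfl
  have h2 : ∀ᵐ y ∂(ω.map diag), y.2 = y.1 := by
    rw [ae_map_iff meas_diag.aemeasurable (measurableSet_eq_fun measurable_snd measurable_fst)]
    exact Eventually.of_forall fun x => rfl
  have h3 : ∀ᵐ x ∂(π.prod (ω.map diag)), Q (x.1.2 - x.1.1) :=
    Measure.quasiMeasurePreserving_fst.ae h
  have h4 : ∀ᵐ x ∂(π.prod (ω.map diag)), x.2.2 = x.2.1 :=
    Measure.quasiMeasurePreserving_snd.ae h2
  filter_upwards [h3, h4] with x hx1 hx2
  have : (x.1 + x.2).2 - (x.1 + x.2).1 = x.1.2 - x.1.1 := by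
    simp only [Prod.fst_add, Prod.snd_add, hx2]
    abel
  rw [this]
  exact hx1

lemma countable_torsion : {t : T | IsOfFinAddOrder t}.Countable := by
  have : {t : T | IsOfFinAddOrder t} ⊆ range (fun r : ℚ => (((r : ℝ)) : T)) := by
    intro t ht
    by_contra hn
    obtain ⟨r, rfl⟩ := QuotientAddGroup.mk_surjective t
    have ht' := ht
    rw [mem_ofPred_eq, isOfFinAddOrder_iff_nsmul_eq_zero] at ht'
    obtain ⟨n, hn0, h0⟩ := ht'
    have e1 : ((n • r : ℝ) : T) = 0 := by
      rw [AddCircle.coe_nsmul]; exact h0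
    rw [AddCircle.coe_eq_zero_iff] at e1
    obtain ⟨m, hm⟩ := e1
    apply hn
    refine ⟨(m : ℚ) / n, ?_⟩
    have : r = (((m : ℚ) / n : ℚ) : ℝ) := by
      push_cast
      have hn' : (n : ℝ) ≠ 0 := by positivity
      field_simp
      simp only [zsmul_eq_mul, mul_one, nsmul_eq_mul] at hm
      linarith
    exact congrArg (fun s : ℝ => (s : T)) this.symm
  exact (countable_range _).mono this

lemma meas_torsion : MeasurableSet {t : T | IsOfFinAddOrder t} := countable_torsion.measurableSet

variable {p q : ℕ}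

/-- **Criterion, one null set for all the translates.** -/
theorem crit_set (hp : 2 ≤ p) (hq : 2 ≤ q) (hirr : Irrational (Real.log p / Real.log q))
    {μ : Measure T} [IsProbabilityMeasure μ]
    (hμp : MeasurePreserving (fun x : T => p • x) μ μ)
    (hμq : MeasurePreserving (fun x : T => q • x) μ μ)
    (hsing : μ ⟂ₘ (volume : Measure T))
    {η : Measure T} [IsProbabilityMeasure η] {c : ℝ} (hc : 0 < c) {π : ℕ → Measure (T × T)}
    (h : Cpl η c π)
    (hπ : (∃ C : Set T, C.Countable ∧ ∀ k, ∀ᵐ z ∂(π k), z.2 - z.1 ∈ C ∧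
        ¬ IsOfFinAddOrder (z.2 - z.1)) ∨
      (∀ k, ∃ θ : T, θ ≠ 0 ∧ ∀ᵐ z ∂(π k), z.2 - z.1 = θ)) :
    ∃ A : Set T, MeasurableSet A ∧ μ Aᶜ = 0 ∧ ∀ t : T, η {x | x + t ∈ A} = 0 := by
  refine Pool.Agent.Zk32.unif_set fun ω hω => ?_
  change μ ⟂ₘ η.conv ω
  refine crit hp hq hirr hμp hμq hsing hc (h.conv ω) ?_
  rcases hπ with ⟨C, hC, hπ⟩ | hπ
  · refine Or.inl ⟨C, hC, fun k => ?_⟩
    have := h.finite k
    refine conv_ae (Q := fun t => t ∈ C ∧ ¬ IsOfFinAddOrder t) ?_ (hπ k)
    exact hC.measurableSet.inter meas_torsion.compl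
  · refine Or.inr fun k => ?_
    obtain ⟨θ, hθ0, hθ⟩ := hπ k
    have := h.finite k
    exact ⟨θ, hθ0, conv_ae (Q := fun t => t = θ) (measurableSet_singleton θ) hθ⟩

end Pool.Agent.Zk24.SC
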