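import Mathlib
import Pool.Agent.Zk24.SC.Conv

/-!
The first jump coupling of a convolution with itself.
-/

set_option autoImplicit false

open MeasureTheory Filter Topology Set
open scoped ENNReal NNReal

namespace Pool.Agent.Zk24.SC

lemma step_data {ν : Measure T} [IsProbabilityMeasure ν] {A : Set (T × T)} (hA : MeasurableSet A)
    (hsym : ∀ z : T × T, z ∈ A → z.swap ∈ A) :
    ((ν.prod ν).restrict A).map Prod.fst + ((ν.prod ν).restrict Aᶜ).map Prod.fst = ν ∧
    ((ν.prod ν).restrict A).map Prod.snd + ((ν.prod ν).restrict Aᶜ).map Prod.fst = ν ∧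
    (((ν.prod ν).restrict Aᶜ).map Prod.fst) univ = (ν.prod ν) Aᶜ := by
  have h1 : ((ν.prod ν).restrict A).map Prod.fst + ((ν.prod ν).restrict Aᶜ).map Prod.fst = ν := by
    rw [← Measure.map_add _ _ measurable_fst, Measure.restrict_add_restrict_compl hA]
    have : (ν.prod ν).map Prod.fst = ν := by
      have := Measure.map_fst_prod (μ := ν) (ν := ν)
      rw [this]; simp
    exact this
  have hmp : MeasurePreserving (Prod.swap : T × T → T × T) (ν.prod ν) (ν.prod ν) :=
    Measure.measurePreserving_swap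
  have hpre : (Prod.swap : T × T → T × T) ⁻¹' A = A := by
    ext z
    exact ⟨fun hz => by simpa using hsym _ hz, fun hz => hsym _ hz⟩
  have h2 := hmp.restrict_preimage hA
  rw [hpre] at h2
  have h3 : ((ν.prod ν).restrict A).map Prod.snd = ((ν.prod ν).restrict A).map Prod.fst := by
    conv_lhs => rw [← h2.map_eq]
    rw [Measure.map_map measurable_snd measurable_swap]
    rfl
  refine ⟨h1, by rw [h3]; exact h1, ?_⟩
  rw [Measure.map_apply measurable_fst MeasurableSet.univ, preimage_univ,
    Measure.restrict_apply MeasurableSet.univ, univ_inter]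

lemma conv_univ {G : Type*} [AddMonoid G] [MeasurableSpace G] [MeasurableAdd₂ G] (μ ν : Measure G)
    [SFinite ν] : (μ.conv ν) univ = μ univ * ν univ := by
  rw [Measure.conv, Measure.map_apply measurable_add MeasurableSet.univ, preimage_univ,
    ← univ_prod_univ, Measure.prod_prod]

/-- The coupling in which the first jump is resampled. -/
theorem first_jump {G : Set T} (hG : MeasurableSet G) {ν : ℕ → Measure T}
    [∀ n, IsProbabilityMeasure (ν n)] {A : Set (T × T)} (hA : MeasurableSet A)
    (hsym : ∀ z : T × T, z ∈ A → z.swap ∈ A) (hAG : ∀ z : T × T, z ∈ A → z.2 - z.1 ∈ G)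
    {ζ : ℕ → Measure T} (h0 : ζ 0 = Measure.dirac 0)
    (hs : ∀ m, ζ (m + 1) = (ζ m).conv (ν m)) (m : ℕ) :
    ∃ (J : Measure (T × T)) (N : Measure T), IsFiniteMeasure J ∧ IsFiniteMeasure N ∧
      J.map Prod.fst + N = ζ m ∧ J.map Prod.snd + N = ζ m ∧
      N univ = ∏ j ∈ Finset.range m, ((ν j).prod (ν j)) Aᶜ ∧ ∀ᵐ z ∂J, z.2 - z.1 ∈ G := by
  induction m with
  | zero =>
    refine ⟨0, Measure.dirac 0, inferInstance, inferInstance, ?_, ?_, ?_, ?_⟩
    · rw [h0]; simp
    · rw [h0]; simp
    · simp
    · simp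
  | succ m ih =>
    obtain ⟨J, N, hJ, hN, h1, h2, h3, h4⟩ := ih
    obtain ⟨d1, d2, d3⟩ := step_data (ν := ν m) hA hsym
    set γ := ((ν m).prod (ν m)).restrict A with hγ
    set νm := (((ν m).prod (ν m)).restrict Aᶜ).map Prod.fst with hνm
    have i1 : IsFiniteMeasure (γ.map Prod.fst) := inferInstance
    have i2 : IsFiniteMeasure (γ.map Prod.snd) := inferInstance
    have i3 : IsFiniteMeasure νm := inferInstance
    have i4 : IsFiniteMeasure (J.map Prod.fst) := inferInstance
    have i5 : IsFiniteMeasure (J.map Prod.snd) := inferInstance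
    have i6 : IsFiniteMeasure ((ν m).map diag) := inferInstance
    have i7 : IsFiniteMeasure (N.map diag) := inferInstance
    refine ⟨J.conv ((ν m).map diag) + (N.map diag).conv γ, N.conv νm, inferInstance,
      inferInstance, ?_, ?_, ?_, ?_⟩
    · rw [Measure.map_add _ _ measurable_fst, map_fst_conv, map_fst_conv, map_fst_diag,
        map_fst_diag, add_assoc, ← Measure.conv_add, d1, ← Measure.add_conv, h1, hs]
    · rw [Measure.map_add _ _ measurable_snd, map_snd_conv, map_snd_conv, map_snd_diag,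
        map_snd_diag, add_assoc, ← Measure.conv_add, d2, ← Measure.add_conv, h2, hs]
    · rw [conv_univ, h3, d3, Finset.prod_range_succ]
    · rw [ae_add_measure_iff]
      refine ⟨conv_ae hG h4, ?_⟩
      rw [Measure.conv_comm]
      refine conv_ae (Q := fun t => t ∈ G) hG ?_
      rw [hγ, ae_restrict_iff' hA]
      exact Eventually.of_forall fun z hz => hAG z hz

lemma prod_tendsto_zero {a : ℕ → ℝ} (h0 : ∀ n, 0 ≤ a n) (h1 : ∀ n, a n ≤ 1)
    (h : ¬ Summable a) : Tendsto (fun m => ∏ j ∈ Finset.range m, (1 - a j)) atTop (𝓝 0) := by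
  have h2 : Tendsto (fun m => ∑ j ∈ Finset.range m, a j) atTop atTop :=
    (not_summable_iff_tendsto_nat_atTop_of_nonneg h0).1 h
  have h3 : Tendsto (fun m => Real.exp (-∑ j ∈ Finset.range m, a j)) atTop (𝓝 0) :=
    Real.tendsto_exp_neg_atTop_nhds_zero.comp h2
  refine squeeze_zero (fun m => Finset.prod_nonneg fun j _ => sub_nonneg.2 (h1 j)) (fun m => ?_) h3
  rw [← Finset.sum_neg_distrib, Real.exp_sum]
  exact Finset.prod_le_prod (fun j _ => sub_nonneg.2 (h1 j)) fun j _ => by
    have := Real.add_one_le_exp (-(a j))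
    linarith

/-- couplings of almost full mass, close to the diagonal -/
lemma cpl_of {η : Measure T} [IsProbabilityMeasure η] {π : ℕ → Measure (T × T)}
    (h1 : ∀ k, (π k).map Prod.fst ≤ η) (h2 : ∀ k, (π k).map Prod.snd ≤ η) {δ e : ℕ → ℝ}
    (hδ : Tendsto δ atTop (𝓝 0)) (he : Tendsto e atTop (𝓝 0))
    (h3 : ∀ k, ∀ᵐ z ∂(π k), ‖z.2 - z.1‖ ≤ δ k) (h4 : ∀ k, 1 - e k ≤ (π k).real univ) :
    Cpl η 1 π := by
  refine ⟨h1, h2, fun f => ?_⟩
  have hfin : ∀ k, IsFiniteMeasure (π k) := fun k => by
    refine ⟨?_⟩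
    have := h1 k univ
    rw [Measure.map_apply measurable_fst MeasurableSet.univ, preimage_univ] at this
    exact this.trans_lt (measure_lt_top _ _)
  have hle1 : ∀ k, (π k).real univ ≤ 1 := fun k => by
    have := h1 k univ
    rw [Measure.map_apply measurable_fst MeasurableSet.univ, preimage_univ,
      measure_univ (μ := η)] at this
    exact ENNReal.toReal_le_of_le_ofReal zero_le_one (by rw [ENNReal.ofReal_one]; exact this)
  obtain ⟨M, hM⟩ := (isCompact_range f.continuous).isBounded.exists_norm_le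
  have hM0 : 0 ≤ M := (norm_nonneg (f (0, 0))).trans (hM _ ⟨_, rfl⟩)
  have huc := CompactSpace.uniformContinuous_of_continuous f.continuous
  rw [one_mul, Metric.tendsto_atTop]
  intro ε hε
  obtain ⟨d, hd, hdf⟩ := Metric.uniformContinuous_iff.1 huc (ε / 2) (by positivity)
  have ev1 : ∀ᶠ k in atTop, δ k < d := hδ.eventually (gt_mem_nhds hd)
  have ev2 : ∀ᶠ k in atTop, e k < ε / (4 * (M + 1)) := he.eventually (gt_mem_nhds (by positivity))
  rw [← eventually_atTop]
  filter_upwards [ev1, ev2] with k hk1 hk2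
  have hf1 : Continuous fun x : T => f (x, x) := by fun_prop
  -- first part: `f z` against `f (z.1, z.1)`
  have a1 : |∫ z, f z ∂(π k) - ∫ z, f (z.1, z.1) ∂(π k)| ≤ ε / 2 := by
    rw [← integral_sub (int_cont f.continuous) (int_cont (by fun_prop))]
    have : ‖∫ z, (f z - f (z.1, z.1)) ∂(π k)‖ ≤ ε / 2 * (π k).real univ := by
      refine norm_integral_le_of_norm_le_const ?_
      filter_upwards [h3 k] with z hz
      have : dist (z.1, z.2) ((z.1, z.1) : T × T) < d := by
        rw [Prod.dist_eq]
        simp only [dist_self, dist_eq_norm]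
        exact max_lt hd (hz.trans_lt hk1)
      have := hdf this
      rw [dist_eq_norm] at this
      exact this.le
    rw [Real.norm_eq_abs] at this
    refine this.trans ?_
    nlinarith [hle1 k]
  -- second part: the first marginal against `η`
  have a2 : |∫ z, f (z.1, z.1) ∂(π k) - ∫ x, f (x, x) ∂η| ≤ M * e k := by
    have e1 : ∫ z, f (z.1, z.1) ∂(π k) = ∫ x, f (x, x) ∂((π k).map Prod.fst) := by
      rw [integral_map measurable_fst.aemeasurable hf1.measurable.aestronglyMeasurable]
    set κ := (π k).map Prod.fst with hκ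
    have hκle : κ ≤ η := h1 k
    have hκf : IsFiniteMeasure κ := inferInstance
    have hsub : η = κ + (η - κ) := by rw [add_comm, Measure.sub_add_cancel_of_le hκle]
    have hf3 : IsFiniteMeasure (η - κ) := inferInstance
    rw [e1]
    have e2 : ∫ x, f (x, x) ∂η = ∫ x, f (x, x) ∂κ + ∫ x, f (x, x) ∂(η - κ) := by
      conv_lhs => rw [hsub]
      exact integral_add_measure (int_cont hf1) (int_cont hf1)
    rw [e2, sub_add_cancel_left, abs_neg]
    have : ‖∫ x, f (x, x) ∂(η - κ)‖ ≤ M * (η - κ).real univ :=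
      norm_integral_le_of_norm_le_const (Eventually.of_forall fun x => hM _ ⟨_, rfl⟩)
    rw [Real.norm_eq_abs] at this
    refine this.trans (mul_le_mul_of_nonneg_left ?_ hM0)
    have e3 : (η - κ).real univ = η.real univ - κ.real univ := by
      have : η.real univ = κ.real univ + (η - κ).real univ := by
        conv_lhs => rw [hsub]
        exact measureReal_add_apply
      linarith
    have e4 : κ.real univ = (π k).real univ := by
      rw [Measure.real, hκ, Measure.map_apply measurable_fst MeasurableSet.univ, preimage_univ]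
      rfl
    rw [e3, e4, probReal_univ]
    linarith [h4 k]
  rw [Real.dist_eq]
  have a3 : M * e k < ε / 2 := by
    have h5 : M * e k ≤ M * (ε / (4 * (M + 1))) := mul_le_mul_of_nonneg_left hk2.le hM0
    have h6 : M * (ε / (4 * (M + 1))) < ε / 2 := by
      rw [mul_div_assoc', div_lt_div_iff₀ (by positivity) (by norm_num)]
      nlinarith
    exact h5.trans_lt h6
  calc |∫ z, f z ∂(π k) - ∫ x, f (x, x) ∂η| ≤ |∫ z, f z ∂(π k) - ∫ z, f (z.1, z.1) ∂(π k)| +
        |∫ z, f (z.1, z.1) ∂(π k) - ∫ x, f (x, x) ∂η| := abs_sub_le _ _ _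
    _ ≤ ε / 2 + M * e k := add_le_add a1 a2
    _ < ε := by linarith

end Pool.Agent.Zk24.SC
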