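import Mathlib
import Pool.Agent.Zk24.SC.Jump

/-!
Laws of random series with independent terms: factorisation and self-couplings.
-/

set_option autoImplicit false

open MeasureTheory Filter Topology Set ProbabilityTheory
open scoped ENNReal NNReal BoundedContinuousFunction

namespace Pool.Agent.Zk24.SC

variable {Ω : Type*} [MeasurableSpace Ω] {P : Measure Ω} [IsProbabilityMeasure P] {X : ℕ → Ω → T}

lemma aemeas (hX : ∀ n, Measurable (X n)) {S : Ω → T}
    (hlim : ∀ᵐ ω ∂P, Tendsto (fun N => ∑ i ∈ Finset.range N, X i ω) atTop (𝓝 (S ω))) :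
    AEMeasurable S P :=
  aemeasurable_of_tendsto_metrizable_ae atTop
    (fun N => (Finset.measurable_sum (Finset.range N) fun i _ => hX i).aemeasurable) hlim

lemma indep_sums (hX : ∀ n, Measurable (X n)) (hind : iIndepFun X P) {U W : Finset ℕ}
    (h : Disjoint U W) :
    IndepFun (fun ω => ∑ i ∈ U, X i ω) (fun ω => ∑ i ∈ W, X i ω) P := by
  have h1 := hind.indepFun_finset U W h hX
  have mU : Measurable (fun v : (U → T) => ∑ i, v i) := Finset.measurable_sum _ fun i _ =>
    measurable_pi_apply i
  have mW : Measurable (fun v : (W → T) => ∑ i, v i) := Finset.measurable_sum _ fun i _ =>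
    measurable_pi_apply i
  have h2 := h1.comp mU mW
  have e1 : (fun ω => ∑ i ∈ U, X i ω) =
      (fun v : (U → T) => ∑ i, v i) ∘ (fun a (i : U) => X i a) := by
    funext ω
    exact (Finset.sum_coe_sort U (fun i => X i ω)).symm
  have e2 : (fun ω => ∑ i ∈ W, X i ω) =
      (fun v : (W → T) => ∑ i, v i) ∘ (fun a (i : W) => X i a) := by
    funext ω
    exact (Finset.sum_coe_sort W (fun i => X i ω)).symm
  rw [e1, e2]
  exact h2

/-- the law of the sum is the convolution of the law of a finite partial sum and of the rest -/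
lemma factor (hX : ∀ n, Measurable (X n)) (hind : iIndepFun X P) {S : Ω → T}
    (hlim : ∀ᵐ ω ∂P, Tendsto (fun N => ∑ i ∈ Finset.range N, X i ω) atTop (𝓝 (S ω)))
    (W : Finset ℕ) :
    P.map S = (P.map (fun ω => S ω - ∑ i ∈ W, X i ω)).conv (P.map (fun ω => ∑ i ∈ W, X i ω)) := by
  have hS := aemeas hX hlim
  have mZ : Measurable (fun ω => ∑ i ∈ W, X i ω) := Finset.measurable_sum W fun i _ => hX i
  have mR : AEMeasurable (fun ω => S ω - ∑ i ∈ W, X i ω) P := hS.sub mZ.aemeasurable
  have p1 : IsProbabilityMeasure (P.map S) := Measure.isProbabilityMeasure_map hS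
  have p2 : IsProbabilityMeasure (P.map (fun ω => ∑ i ∈ W, X i ω)) :=
    Measure.isProbabilityMeasure_map mZ.aemeasurable
  have p3 : IsProbabilityMeasure (P.map (fun ω => S ω - ∑ i ∈ W, X i ω)) :=
    Measure.isProbabilityMeasure_map mR
  set ζ := P.map (fun ω => ∑ i ∈ W, X i ω) with hζ
  have p4 : IsProbabilityMeasure ((P.map (fun ω => S ω - ∑ i ∈ W, X i ω)).conv ζ) := inferInstance
  refine ext_of_forall_integral_eq_of_IsFiniteMeasure fun f => ?_
  have hfi : ∀ m : Measure T, IsFiniteMeasure m → Integrable f m := fun m _ =>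
    int_cont f.continuous
  obtain ⟨M, hM⟩ : ∃ M, ∀ x, ‖f x‖ ≤ M := ⟨‖f‖, f.norm_coe_le_norm⟩
  set g : T → ℝ := fun x => ∫ z, f (x + z) ∂ζ with hg
  have hgc : Continuous g := by
    refine continuous_of_dominated (bound := fun _ => M) ?_ ?_ (integrable_const _) ?_
    · intro x
      have : Continuous fun z : T => f (x + z) := by fun_prop
      exact this.measurable.aestronglyMeasurable
    · exact fun x => Eventually.of_forall fun z => hM _
    · exact Eventually.of_forall fun z => by fun_prop
  have hgM : ∀ x, ‖g x‖ ≤ M := by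
    intro x
    have : ‖∫ z, f (x + z) ∂ζ‖ ≤ M * ζ.real univ :=
      norm_integral_le_of_norm_le_const (Eventually.of_forall fun z => hM _)
    rwa [probReal_univ, mul_one] at this
  rw [integral_conv (hfi _ inferInstance),
    integral_map hS f.continuous.measurable.aestronglyMeasurable,
    integral_map mR hgc.measurable.aestronglyMeasurable]
  -- the identity for the partial sums
  obtain ⟨N0, hN0⟩ : ∃ N0, W ⊆ Finset.range N0 := by
    refine ⟨W.sup id + 1, fun i hi => ?_⟩
    rw [Finset.mem_range]
    exact Nat.lt_succ_of_le (Finset.le_sup (f := id) hi)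
  have key : ∀ N, N0 ≤ N → ∫ ω, f (∑ i ∈ Finset.range N, X i ω) ∂P =
      ∫ ω, g (∑ i ∈ Finset.range N, X i ω - ∑ i ∈ W, X i ω) ∂P := by
    intro N hN
    have hWN : W ⊆ Finset.range N := hN0.trans (Finset.range_mono hN)
    have hdis : Disjoint (Finset.range N \ W) W := Finset.sdiff_disjoint
    have hi := indep_sums hX hind hdis
    have mU : Measurable (fun ω => ∑ i ∈ Finset.range N \ W, X i ω) :=
      Finset.measurable_sum _ fun i _ => hX i
    have e1 : ∀ ω, ∑ i ∈ Finset.range N, X i ω =
        ∑ i ∈ Finset.range N \ W, X i ω + ∑ i ∈ W, X i ω := fun ω =>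
      (Finset.sum_sdiff hWN).symm
    have e2 : ∀ ω, ∑ i ∈ Finset.range N, X i ω - ∑ i ∈ W, X i ω =
        ∑ i ∈ Finset.range N \ W, X i ω := fun ω => by rw [e1]; abel
    simp_rw [e2]
    have q1 : IsProbabilityMeasure (P.map (fun ω => ∑ i ∈ Finset.range N \ W, X i ω)) :=
      Measure.isProbabilityMeasure_map mU.aemeasurable
    have hcv := hi.map_add_eq_map_conv_map mU mZ
    have e3 : ∫ ω, f (∑ i ∈ Finset.range N, X i ω) ∂P =
        ∫ x, f x ∂(P.map ((fun ω => ∑ i ∈ Finset.range N \ W, X i ω) +
          fun ω => ∑ i ∈ W, X i ω)) := by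
      rw [integral_map (mU.add mZ).aemeasurable f.continuous.measurable.aestronglyMeasurable]
      refine integral_congr_ae (Eventually.of_forall fun ω => ?_)
      change f _ = f _
      rw [e1]
      rfl
    rw [e3, hcv, integral_conv (hfi _ inferInstance),
      integral_map mU.aemeasurable hgc.measurable.aestronglyMeasurable]
  have l1 : Tendsto (fun N => ∫ ω, f (∑ i ∈ Finset.range N, X i ω) ∂P) atTop
      (𝓝 (∫ ω, f (S ω) ∂P)) := by
    refine tendsto_integral_of_dominated_convergence (fun _ => M) ?_ (integrable_const _) ?_ ?_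
    · intro N
      exact (f.continuous.measurable.comp
        (Finset.measurable_sum _ fun i _ => hX i)).aestronglyMeasurable
    · exact fun N => Eventually.of_forall fun ω => hM _
    · filter_upwards [hlim] with ω hω
      exact (f.continuous.tendsto _).comp hω
  have l2 : Tendsto (fun N => ∫ ω, g (∑ i ∈ Finset.range N, X i ω - ∑ i ∈ W, X i ω) ∂P) atTop
      (𝓝 (∫ ω, g (S ω - ∑ i ∈ W, X i ω) ∂P)) := by
    refine tendsto_integral_of_dominated_convergence (fun _ => M) ?_ (integrable_const _) ?_ ?_
    · intro N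
      exact (hgc.measurable.comp
        ((Finset.measurable_sum _ fun i _ => hX i).sub mZ)).aestronglyMeasurable
    · exact fun N => Eventually.of_forall fun ω => hgM _
    · filter_upwards [hlim] with ω hω
      exact (hgc.tendsto _).comp (hω.sub tendsto_const_nhds)
  refine tendsto_nhds_unique l1 (l2.congr' ?_)
  filter_upwards [eventually_ge_atTop N0] with N hN
  exact (key N hN).symm

/-- the terms tend to zero -/
lemma terms_zero {S : Ω → T}
    (hlim : ∀ᵐ ω ∂P, Tendsto (fun N => ∑ i ∈ Finset.range N, X i ω) atTop (𝓝 (S ω))) :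
    ∀ᵐ ω ∂P, Tendsto (fun N => X N ω) atTop (𝓝 0) := by
  filter_upwards [hlim] with ω hω
  have h1 := (hω.comp (tendsto_add_atTop_nat 1)).sub hω
  rw [sub_self] at h1
  refine h1.congr fun N => ?_
  simp [Finset.sum_range_succ]

/-- the probabilities of the large terms are summable -/
lemma large_summable (hX : ∀ n, Measurable (X n)) (hind : iIndepFun X P) {S : Ω → T}
    (hlim : ∀ᵐ ω ∂P, Tendsto (fun N => ∑ i ∈ Finset.range N, X i ω) atTop (𝓝 (S ω)))
    {δ : ℝ} (hδ : 0 < δ) : ∑' n, P {ω | δ < ‖X n ω‖} ≠ ∞ := by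
  intro htop
  have hm : ∀ n, MeasurableSet {ω | δ < ‖X n ω‖} := fun n =>
    measurableSet_lt measurable_const (hX n).norm
  have hset : iIndepSet (fun n => {ω | δ < ‖X n ω‖}) P := by
    rw [iIndepSet_iff_meas_biInter hm]
    intro s
    exact hind.measure_inter_preimage_eq_mul s (sets := fun _ => {x : T | δ < ‖x‖})
      (fun i _ => measurableSet_lt measurable_const measurable_norm)
  have h1 := measure_limsup_eq_one hm hset htop
  have h2 : P (limsup (fun n => {ω | δ < ‖X n ω‖}) atTop) = 0 := by
    have h3 : ∀ᵐ ω ∂P, ω ∉ limsup (fun n => {ω | δ < ‖X n ω‖}) atTop := by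
      filter_upwards [terms_zero hlim] with ω hω hmem
      rw [mem_limsup_iff_frequently_mem] at hmem
      have h4 : ∀ᶠ n in atTop, ‖X n ω‖ < δ := by
        have := hω.norm
        rw [norm_zero] at this
        exact this.eventually (gt_mem_nhds hδ)
      obtain ⟨n, hn1, hn2⟩ := (hmem.and_eventually h4).exists
      exact absurd hn2 (not_lt.2 (le_of_lt hn1))
    rw [ae_iff] at h3
    simpa using h3
  rw [h2] at h1
  exact zero_ne_one h1

end Pool.Agent.Zk24.SC
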