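import Mathlib
import Pool.Agent.Zk24.SC.Series

/-!
Self-couplings of the laws of random series.
-/

set_option autoImplicit false

open MeasureTheory Filter Topology Set ProbabilityTheory
open scoped ENNReal NNReal

namespace Pool.Agent.Zk24.SC

variable {Ω : Type*} [MeasurableSpace Ω] {P : Measure Ω} [IsProbabilityMeasure P] {X : ℕ → Ω → T}

/-- windows: the law of the sum over one more index -/
lemma window_succ (hX : ∀ n, Measurable (X n)) (hind : iIndepFun X P) (k m : ℕ) :
    P.map (fun ω => ∑ i ∈ Finset.Ico k (k + (m + 1)), X i ω) =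
      (P.map (fun ω => ∑ i ∈ Finset.Ico k (k + m), X i ω)).conv (P.map (X (k + m))) := by
  have hi := hind.indepFun_finsetSum_of_notMem hX (s := Finset.Ico k (k + m)) (i := k + m)
    (by simp)
  have e1 : (fun ω => ∑ i ∈ Finset.Ico k (k + m), X i ω) = ∑ j ∈ Finset.Ico k (k + m), X j := by
    funext ω; rw [Finset.sum_apply]
  have mU : Measurable (∑ j ∈ Finset.Ico k (k + m), X j) := by
    rw [← e1]
    exact Finset.measurable_sum _ fun i _ => hX i
  have h1 := hi.map_add_eq_map_conv_map mU (hX _)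
  have e2 : (fun ω => ∑ i ∈ Finset.Ico k (k + (m + 1)), X i ω) =
      (∑ j ∈ Finset.Ico k (k + m), X j) + X (k + m) := by
    funext ω
    rw [Pi.add_apply, Finset.sum_apply, ← add_assoc, Finset.sum_Ico_succ_top (by omega)]
  rw [e1, e2]
  exact h1

/-- one coupling for condition (a) -/
lemma couple_one (hX : ∀ n, Measurable (X n)) (hind : iIndepFun X P) {S : Ω → T}
    (hlim : ∀ᵐ ω ∂P, Tendsto (fun N => ∑ i ∈ Finset.range N, X i ω) atTop (𝓝 (S ω)))
    {C : Set T} (hC : C.Countable)
    (hdiv : ∑' n, (P.prod P) {w : Ω × Ω | X n w.1 ∈ C ∧ X n w.2 ∈ C ∧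
      ¬ IsOfFinAddOrder (X n w.1 - X n w.2)} = ∞) {δ : ℝ} (hδ : 0 < δ) :
    ∃ π : Measure (T × T), π.map Prod.fst ≤ P.map S ∧ π.map Prod.snd ≤ P.map S ∧
      (∀ᵐ z ∂π, (z.2 - z.1 ∈ image2 (fun a b => a - b) C C ∧ ¬ IsOfFinAddOrder (z.2 - z.1)) ∧
        ‖z.2 - z.1‖ ≤ δ) ∧ 1 - δ ≤ π.real univ := by
  have hS := aemeas hX hlim
  have hη : IsProbabilityMeasure (P.map S) := Measure.isProbabilityMeasure_map hS
  have hν : ∀ n, IsProbabilityMeasure (P.map (X n)) := fun n =>
    Measure.isProbabilityMeasure_map (hX n).aemeasurable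
  have hCm : MeasurableSet C := hC.measurableSet
  set D : Set T := image2 (fun a b => a - b) C C with hD
  have hDc : D.Countable := hC.image2 hC _
  set A : Set (T × T) := {z | (z.1 ∈ C ∧ z.2 ∈ C) ∧ ¬ IsOfFinAddOrder (z.2 - z.1) ∧
    ‖z.2 - z.1‖ ≤ δ} with hA
  have hmd : Measurable (fun z : T × T => z.2 - z.1) := by fun_prop
  have hAm : MeasurableSet A := by
    have h1 : MeasurableSet {z : T × T | z.1 ∈ C ∧ z.2 ∈ C} :=
      (measurable_fst hCm).inter (measurable_snd hCm)
    have h2 : MeasurableSet {z : T × T | ¬ IsOfFinAddOrder (z.2 - z.1)} :=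
      hmd meas_torsion.compl
    have h3 : MeasurableSet {z : T × T | ‖z.2 - z.1‖ ≤ δ} :=
      measurableSet_le hmd.norm measurable_const
    exact h1.inter (h2.inter h3)
  have hsym : ∀ z : T × T, z ∈ A → z.swap ∈ A := by
    rintro ⟨x, y⟩ ⟨⟨h1, h2⟩, h3, h4⟩
    refine ⟨⟨h2, h1⟩, ?_, ?_⟩
    · intro h5
      apply h3
      have : y - x = -(x - y) := by abel
      change IsOfFinAddOrder (y - x)
      rw [this]
      exact isOfFinAddOrder_neg_iff.2 h5
    · change ‖x - y‖ ≤ δ
      rw [norm_sub_rev]; exact h4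
  set G : Set T := {t | (t ∈ D ∧ ¬ IsOfFinAddOrder t) ∧ ‖t‖ ≤ δ} with hG
  have hGm : MeasurableSet G := by
    have h3 : MeasurableSet {t : T | ‖t‖ ≤ δ} := measurableSet_le measurable_norm measurable_const
    exact (hDc.measurableSet.inter meas_torsion.compl).inter h3
  have hAG : ∀ z : T × T, z ∈ A → z.2 - z.1 ∈ G := by
    rintro ⟨x, y⟩ ⟨⟨h1, h2⟩, h3, h4⟩
    exact ⟨⟨⟨y, h2, x, h1, rfl⟩, h3⟩, h4⟩
  -- divergence for the set `A`
  have hns : ¬ Summable (fun n => ((P.map (X n)).prod (P.map (X n))).real A) := by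
    intro hsum
    have hfin1 : ∑' n, ((P.map (X n)).prod (P.map (X n))) A ≠ ∞ := by
      have := hsum.tsum_ofReal_ne_top
      simpa [Measure.real, ENNReal.ofReal_toReal (measure_ne_top _ _)] using this
    have hfin2 := large_summable hX hind hlim (half_pos hδ)
    have hle : ∀ n, (P.prod P) {w : Ω × Ω | X n w.1 ∈ C ∧ X n w.2 ∈ C ∧
        ¬ IsOfFinAddOrder (X n w.1 - X n w.2)} ≤
        ((P.map (X n)).prod (P.map (X n))) A + 2 * P {ω | δ / 2 < ‖X n ω‖} := by
      intro n
      have hsub : {w : Ω × Ω | X n w.1 ∈ C ∧ X n w.2 ∈ C ∧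
          ¬ IsOfFinAddOrder (X n w.1 - X n w.2)} ⊆
          (Prod.map (X n) (X n)) ⁻¹' A ∪ (Prod.fst ⁻¹' {ω | δ / 2 < ‖X n ω‖} ∪
            Prod.snd ⁻¹' {ω | δ / 2 < ‖X n ω‖}) := by
        rintro ⟨w1, w2⟩ ⟨h1, h2, h3⟩
        by_cases hb1 : δ / 2 < ‖X n w1‖
        · exact Or.inr (Or.inl hb1)
        · by_cases hb2 : δ / 2 < ‖X n w2‖
          · exact Or.inr (Or.inr hb2)
          · refine Or.inl ⟨⟨h1, h2⟩, ?_, ?_⟩
            · intro h5
              apply h3
              have : X n w1 - X n w2 = -(X n w2 - X n w1) := by abel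
              change IsOfFinAddOrder (X n w1 - X n w2)
              rw [this]
              exact isOfFinAddOrder_neg_iff.2 h5
            · change ‖X n w2 - X n w1‖ ≤ δ
              have := norm_sub_le (X n w2) (X n w1)
              linarith [not_lt.1 hb1, not_lt.1 hb2]
      refine (measure_mono hsub).trans ((measure_union_le _ _).trans ?_)
      have e1 : (P.prod P) ((Prod.map (X n) (X n)) ⁻¹' A) =
          ((P.map (X n)).prod (P.map (X n))) A := by
        rw [Measure.map_prod_map _ _ (hX n) (hX n),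
          Measure.map_apply ((hX n).prodMap (hX n)) hAm]
      have hml : MeasurableSet {ω | δ / 2 < ‖X n ω‖} := measurableSet_lt measurable_const (hX n).norm
      have e2 : (P.prod P) (Prod.fst ⁻¹' {ω | δ / 2 < ‖X n ω‖}) = P {ω | δ / 2 < ‖X n ω‖} := by
        rw [← Measure.map_apply measurable_fst hml, Measure.map_fst_prod]; simp
      have e3 : (P.prod P) (Prod.snd ⁻¹' {ω | δ / 2 < ‖X n ω‖}) = P {ω | δ / 2 < ‖X n ω‖} := by
        rw [← Measure.map_apply measurable_snd hml, Measure.map_snd_prod]; simp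
      rw [e1, two_mul]
      gcongr
      refine (measure_union_le _ _).trans ?_
      rw [e2, e3]
    have h1 := ENNReal.tsum_le_tsum hle
    rw [hdiv, ENNReal.tsum_add, ENNReal.tsum_mul_left] at h1
    have h2 : ∑' n, ((P.map (X n)).prod (P.map (X n))) A +
        2 * ∑' n, P {ω | δ / 2 < ‖X n ω‖} ≠ ∞ :=
      ENNReal.add_ne_top.2 ⟨hfin1, ENNReal.mul_ne_top (by norm_num) hfin2⟩
    exact h2 (top_le_iff.1 h1)
  have hprod := prod_tendsto_zero (a := fun n => ((P.map (X n)).prod (P.map (X n))).real A)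
    (fun n => measureReal_nonneg) (fun n => measureReal_le_one) hns
  obtain ⟨m, hm⟩ := (hprod.eventually (gt_mem_nhds hδ)).exists
  obtain ⟨J, N, hJ, hN, j1, j2, j3, j4⟩ := first_jump hGm (ν := fun n => P.map (X n)) hAm hsym hAG
    (ζ := fun m => P.map (fun ω => ∑ i ∈ Finset.Ico 0 (0 + m), X i ω))
    (by simp [Measure.map_const])
    (fun m => by
      have := window_succ hX hind 0 m
      simpa using this) m
  set W : Finset ℕ := Finset.Ico 0 (0 + m) with hW
  set ρ := P.map (fun ω => S ω - ∑ i ∈ W, X i ω) with hρ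
  have hfac := factor hX hind hlim W
  have mZ : Measurable (fun ω => ∑ i ∈ W, X i ω) := Finset.measurable_sum W fun i _ => hX i
  have hρp : IsProbabilityMeasure ρ := Measure.isProbabilityMeasure_map (hS.sub mZ.aemeasurable)
  have hζp : IsProbabilityMeasure (P.map (fun ω => ∑ i ∈ W, X i ω)) :=
    Measure.isProbabilityMeasure_map mZ.aemeasurable
  have i1 : IsFiniteMeasure (ρ.map diag) := inferInstance
  have i4 : IsFiniteMeasure (J.map Prod.fst) := inferInstance
  have i5 : IsFiniteMeasure (J.map Prod.snd) := inferInstance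
  refine ⟨(ρ.map diag).conv J, ?_, ?_, ?_, ?_⟩
  · rw [map_fst_conv, map_fst_diag, hfac]
    refine conv_mono le_rfl ?_
    rw [← j1]
    exact Measure.le_add_right le_rfl
  · rw [map_snd_conv, map_snd_diag, hfac]
    refine conv_mono le_rfl ?_
    rw [← j2]
    exact Measure.le_add_right le_rfl
  · rw [Measure.conv_comm]
    exact conv_ae (Q := fun t => (t ∈ D ∧ ¬ IsOfFinAddOrder t) ∧ ‖t‖ ≤ δ) hGm j4
  · have e1 : ((ρ.map diag).conv J) univ = J univ := by
      rw [conv_univ, Measure.map_apply meas_diag MeasurableSet.univ, preimage_univ, measure_univ,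
        one_mul]
    have e2 : J univ + N univ = 1 := by
      have h1 : ((J.map Prod.fst) + N) univ = 1 := by rw [j1]; exact measure_univ
      rwa [Measure.add_apply, Measure.map_apply measurable_fst MeasurableSet.univ,
        preimage_univ] at h1
    have e3 : J.real univ + N.real univ = 1 := by
      have := congrArg ENNReal.toReal e2
      rwa [ENNReal.toReal_add (measure_ne_top _ _) (measure_ne_top _ _), ENNReal.toReal_one] at this
    have e4 : N.real univ = ∏ j ∈ Finset.range m,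
        (1 - ((P.map (X j)).prod (P.map (X j))).real A) := by
      rw [Measure.real, j3, ENNReal.toReal_prod]
      refine Finset.prod_congr rfl fun j _ => ?_
      change ((P.map (X j)).prod (P.map (X j))).real Aᶜ = _
      rw [measureReal_compl hAm, probReal_univ]
    have e5 : ((ρ.map diag).conv J).real univ = J.real univ := by
      rw [Measure.real, e1]; rfl
    rw [e5]
    rw [e4] at e3
    linarith

/-- condition (a) gives couplings -/
theorem couple_a (hX : ∀ n, Measurable (X n)) (hind : iIndepFun X P) {S : Ω → T}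
    (hlim : ∀ᵐ ω ∂P, Tendsto (fun N => ∑ i ∈ Finset.range N, X i ω) atTop (𝓝 (S ω)))
    {C : Set T} (hC : C.Countable)
    (hdiv : ∑' n, (P.prod P) {w : Ω × Ω | X n w.1 ∈ C ∧ X n w.2 ∈ C ∧
      ¬ IsOfFinAddOrder (X n w.1 - X n w.2)} = ∞) :
    ∃ π : ℕ → Measure (T × T), Cpl (P.map S) 1 π ∧ ∃ D : Set T, D.Countable ∧
      ∀ k, ∀ᵐ z ∂(π k), z.2 - z.1 ∈ D ∧ ¬ IsOfFinAddOrder (z.2 - z.1) := by
  have hη : IsProbabilityMeasure (P.map S) := Measure.isProbabilityMeasure_map (aemeas hX hlim)
  have h := fun k : ℕ => couple_one hX hind hlim hC hdiv (δ := 1 / ((k : ℝ) + 1)) (by positivity)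
  choose π h1 h2 h3 h4 using h
  refine ⟨π, ?_, image2 (fun a b => a - b) C C, hC.image2 hC _, fun k => ?_⟩
  · exact cpl_of h1 h2 tendsto_one_div_add_atTop_nhds_zero_nat
      tendsto_one_div_add_atTop_nhds_zero_nat (fun k => (h3 k).mono fun z hz => hz.2) h4
  · exact (h3 k).mono fun z hz => hz.1

end Pool.Agent.Zk24.SC
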