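import Mathlib
import Pool.Agent.Zk24.SC.Couple

/-!
Self-couplings of the laws of random series, when infinitely many terms overlap with a translate.
-/

set_option autoImplicit false

open MeasureTheory Filter Topology Set ProbabilityTheory
open scoped ENNReal NNReal

namespace Pool.Agent.Zk24.SC

/-- the coupling of a measure with itself given by an overlap -/
lemma overlap_coupling {ν : Measure T} [IsProbabilityMeasure ν] {c : ℝ≥0} {θ : T}
    (h : ∀ A : Set T, MeasurableSet A → (c : ℝ≥0∞) ≤ ν A + ν {x | x + θ ∉ A}) :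
    ∃ γ : Measure (T × T), γ.map Prod.fst ≤ ν ∧ γ.map Prod.snd ≤ ν ∧ γ univ = c ∧
      ∀ᵐ z ∂γ, z.2 - z.1 = θ := by
  have hov : Pool.Agent.R477.XQ.Ov c 1 1 ν ν θ := by
    intro A hA
    have e1 : {x : T | (1 : ℤ) • x ∈ A} = A := by ext x; simp
    have e2 : {x : T | (1 : ℤ) • x + θ ∉ A} = {x | x + θ ∉ A} := by ext x; simp
    change (c : ℝ≥0∞) ≤ ν {x : T | (1 : ℤ) • x ∈ A} + ν {x : T | (1 : ℤ) • x + θ ∉ A}
    rw [e1, e2]
    exact h A hA
  have h1 := Pool.Agent.R477.XQ.inf_univ hov
  have e1 : (fun x : T => (1 : ℤ) • x) = id := by funext x; simp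
  have e2 : (fun x : T => (1 : ℤ) • x + θ) = fun x => x + θ := by funext x; simp
  set κ : Measure T := ν ⊓ ν.map (fun x : T => x + θ) with hκ
  have hκc : (c : ℝ≥0∞) ≤ κ univ := by
    have h2 := h1
    change (c : ℝ≥0∞) ≤ (ν.map (fun x : T => (1 : ℤ) • x) ⊓
      ν.map (fun x : T => (1 : ℤ) • x + θ)) univ at h2
    rw [e1, e2, Measure.map_id] at h2
    exact h2
  have k1 : κ ≤ ν := inf_le_left
  have k2 : κ ≤ ν.map (fun x : T => x + θ) := inf_le_right
  have kf : IsFiniteMeasure κ := isFiniteMeasure_of_le ν k1
  by_cases hc0 : κ univ = 0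
  · refine ⟨0, ?_, ?_, ?_, ?_⟩
    · rw [Measure.map_zero]; exact Measure.zero_le _
    · rw [Measure.map_zero]; exact Measure.zero_le _
    · have : (c : ℝ≥0∞) = 0 := le_antisymm (hκc.trans hc0.le) bot_le
      rw [this]; rfl
    · simp
  set s : ℝ≥0∞ := c / κ univ with hs
  have hs1 : s ≤ 1 := by
    rw [hs]
    exact ENNReal.div_le_of_le_mul (by rw [one_mul]; exact hκc)
  have hm : Measurable (fun x : T => (x - θ, x)) := by fun_prop
  have m1 : Measurable (fun x : T => x - θ) := by fun_prop
  refine ⟨(s • κ).map (fun x : T => (x - θ, x)), ?_, ?_, ?_, ?_⟩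
  · rw [Measure.map_map measurable_fst hm]
    change (s • κ).map (fun x : T => x - θ) ≤ ν
    have h3 : s • κ ≤ ν.map (fun x : T => x + θ) := by
      intro A
      rw [Measure.smul_apply, smul_eq_mul]
      calc s * κ A ≤ 1 * κ A := by gcongr
        _ = κ A := one_mul _
        _ ≤ _ := k2 A
    refine (Measure.map_mono h3 m1).trans (le_of_eq ?_)
    rw [Measure.map_map m1 (measurable_add_const θ)]
    have : ((fun x : T => x - θ) ∘ fun x : T => x + θ) = id := by funext x; simp
    rw [this, Measure.map_id]
  · rw [Measure.map_map measurable_snd hm]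
    change (s • κ).map id ≤ ν
    rw [Measure.map_id]
    intro A
    rw [Measure.smul_apply, smul_eq_mul]
    calc s * κ A ≤ 1 * κ A := by gcongr
      _ = κ A := one_mul _
      _ ≤ _ := k1 A
  · rw [Measure.map_apply hm MeasurableSet.univ, preimage_univ, Measure.smul_apply, smul_eq_mul, hs]
    exact ENNReal.div_mul_cancel hc0 (measure_ne_top _ _)
  · rw [ae_map_iff hm.aemeasurable (measurableSet_eq_fun (by fun_prop) measurable_const)]
    exact Eventually.of_forall fun x => by simp

variable {Ω : Type*} [MeasurableSpace Ω] {P : Measure Ω} [IsProbabilityMeasure P] {X : ℕ → Ω → T}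

/-- condition (b) gives couplings -/
theorem couple_b (hX : ∀ n, Measurable (X n)) (hind : iIndepFun X P) {S : Ω → T}
    (hlim : ∀ᵐ ω ∂P, Tendsto (fun N => ∑ i ∈ Finset.range N, X i ω) atTop (𝓝 (S ω)))
    {c : ℝ≥0}
    (hov : ∃ᶠ n in atTop, ∃ θ : T, θ ≠ 0 ∧ ∀ A : Set T, MeasurableSet A →
      (c : ℝ≥0∞) ≤ P {ω | X n ω ∈ A} + P {ω | X n ω + θ ∉ A}) :
    ∃ π : ℕ → Measure (T × T), Cpl (P.map S) c π ∧
      ∀ k, ∃ θ : T, θ ≠ 0 ∧ ∀ᵐ z ∂(π k), z.2 - z.1 = θ := by
  have hS := aemeas hX hlim
  have hη : IsProbabilityMeasure (P.map S) := Measure.isProbabilityMeasure_map hS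
  have hν : ∀ n, IsProbabilityMeasure (P.map (X n)) := fun n =>
    Measure.isProbabilityMeasure_map (hX n).aemeasurable
  obtain ⟨φ, hφ, hφθ⟩ := extraction_of_frequently_atTop hov
  have hγ : ∀ k, ∃ γ : Measure (T × T), γ.map Prod.fst ≤ P.map (X (φ k)) ∧
      γ.map Prod.snd ≤ P.map (X (φ k)) ∧ γ univ = c ∧
      ∃ θ : T, θ ≠ 0 ∧ ∀ᵐ z ∂γ, z.2 - z.1 = θ := by
    intro k
    obtain ⟨θ, hθ0, hθ⟩ := hφθ k
    obtain ⟨γ, g1, g2, g3, g4⟩ := overlap_coupling (ν := P.map (X (φ k))) (c := c) (θ := θ)
      (fun A hA => by
        have hm : MeasurableSet {x : T | x + θ ∉ A} := measurable_add_const θ hA.compl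
        rw [Measure.map_apply (hX _) hA, Measure.map_apply (hX _) hm]
        exact hθ A hA)
    exact ⟨γ, g1, g2, g3, θ, hθ0, g4⟩
  choose γ g1 g2 g3 g4 using hγ
  have gf : ∀ k, IsFiniteMeasure (γ k) := fun k => ⟨by rw [g3]; exact ENNReal.coe_lt_top⟩
  set R : ℕ → Ω → T := fun k ω => S ω - ∑ i ∈ {φ k}, X i ω with hR
  have mR : ∀ k, AEMeasurable (R k) P := fun k =>
    hS.sub (Finset.measurable_sum _ fun i _ => hX i).aemeasurable
  have hρp : ∀ k, IsProbabilityMeasure (P.map (R k)) := fun k =>
    Measure.isProbabilityMeasure_map (mR k)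
  have hfac : ∀ k, P.map S = (P.map (R k)).conv (P.map (X (φ k))) := by
    intro k
    have := factor hX hind hlim {φ k}
    simp only [Finset.sum_singleton] at this
    rw [this]
    simp only [hR, Finset.sum_singleton]
  have hfd : ∀ k, IsFiniteMeasure ((P.map (R k)).map diag) := fun k => inferInstance
  refine ⟨fun k => ((P.map (R k)).map diag).conv (γ k), ⟨fun k => ?_, fun k => ?_, fun f => ?_⟩,
    fun k => ?_⟩
  · rw [map_fst_conv, map_fst_diag, hfac k]
    exact conv_mono le_rfl (g1 k)
  · rw [map_snd_conv, map_snd_diag, hfac k]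
    exact conv_mono le_rfl (g2 k)
  · -- weak convergence
    obtain ⟨M, hM⟩ := (isCompact_range f.continuous).isBounded.exists_norm_le
    have hM' : ∀ z, ‖f z‖ ≤ M := fun z => hM _ ⟨z, rfl⟩
    have hM0 : 0 ≤ M := (norm_nonneg (f (0, 0))).trans (hM' _)
    have huc := CompactSpace.uniformContinuous_of_continuous f.continuous
    have hdc : Continuous fun x : T => f (x, x) := by fun_prop
    -- the unperturbed integrals converge
    have l1 : Tendsto (fun k => ∫ ω, f (R k ω, R k ω) ∂P) atTop (𝓝 (∫ ω, f (S ω, S ω) ∂P)) := by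
      refine tendsto_integral_of_dominated_convergence (fun _ => M) ?_ (integrable_const _) ?_ ?_
      · intro k
        exact (hdc.measurable.comp_aemeasurable (mR k)).aestronglyMeasurable
      · exact fun k => Eventually.of_forall fun ω => hM' _
      · filter_upwards [terms_zero hlim] with ω hω
        have h1 : Tendsto (fun k => R k ω) atTop (𝓝 (S ω)) := by
          have h2 : Tendsto (fun k => S ω - X (φ k) ω) atTop (𝓝 (S ω - 0)) :=
            tendsto_const_nhds.sub (hω.comp hφ.tendsto_atTop)
          rw [sub_zero] at h2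
          refine h2.congr fun k => ?_
          simp only [hR, Finset.sum_singleton]
        exact (hdc.tendsto _).comp h1
    have e0 : ∫ x, f (x, x) ∂(P.map S) = ∫ ω, f (S ω, S ω) ∂P :=
      integral_map hS hdc.measurable.aestronglyMeasurable
    rw [e0]
    have l2 : Tendsto (fun k => (c : ℝ) * ∫ ω, f (R k ω, R k ω) ∂P) atTop
        (𝓝 (c * ∫ ω, f (S ω, S ω) ∂P)) := l1.const_mul _
    -- the difference tends to zero
    have l3 : Tendsto (fun k => ∫ z, f z ∂(((P.map (R k)).map diag).conv (γ k)) -
        (c : ℝ) * ∫ ω, f (R k ω, R k ω) ∂P) atTop (𝓝 0) := by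
      rw [Metric.tendsto_atTop]
      intro ε hε
      obtain ⟨d, hd, hdf⟩ := Metric.uniformContinuous_iff.1 huc (ε / (2 * (c + 1))) (by positivity)
      have hsm := ENNReal.tendsto_atTop_zero_of_tsum_ne_top
        (large_summable hX hind hlim (half_pos hd))
      have hsm' : Tendsto (fun k => P.real {ω | d / 2 < ‖X (φ k) ω‖}) atTop (𝓝 0) := by
        have h1 := (ENNReal.tendsto_toReal ENNReal.zero_ne_top).comp (hsm.comp hφ.tendsto_atTop)
        rw [ENNReal.toReal_zero] at h1
        exact h1
      have ev := hsm'.eventually (gt_mem_nhds (show (0 : ℝ) < ε / (8 * (M + 1)) by positivity))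
      rw [← eventually_atTop]
      filter_upwards [ev] with k hk
      -- the inner difference
      have hinner : ∀ r : T, ‖∫ z, (f ((r, r) + z) - f (r, r)) ∂(γ k)‖ ≤
          ε / (2 * (c + 1)) * c + 2 * M * (2 * P.real {ω | d / 2 < ‖X (φ k) ω‖}) := by
        intro r
        have hmB : MeasurableSet {z : T × T | d / 2 < ‖z.1‖ ∨ d / 2 < ‖z.2‖} :=
          (measurableSet_lt measurable_const measurable_fst.norm).union
            (measurableSet_lt measurable_const measurable_snd.norm)
        set B := {z : T × T | d / 2 < ‖z.1‖ ∨ d / 2 < ‖z.2‖} with hB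
        have h1 : ‖∫ z, (f ((r, r) + z) - f (r, r)) ∂(γ k)‖ ≤
            ∫ z, (ε / (2 * (c + 1)) + B.indicator (fun _ => 2 * M) z) ∂(γ k) := by
          refine norm_integral_le_of_norm_le
            ((integrable_const _).add ((integrable_const _).indicator hmB))
            (Eventually.of_forall fun z => ?_)
          by_cases hz : z ∈ B
          · rw [indicator_of_mem hz]
            have h2 := norm_sub_le (f ((r, r) + z)) (f (r, r))
            have h3 := hM' ((r, r) + z)
            have h4 := hM' (r, r)
            have h5 : 0 < ε / (2 * ((c : ℝ) + 1)) := by positivity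
            linarith
          · rw [indicator_of_notMem hz, add_zero]
            rw [hB, mem_ofPred_eq, not_or, not_lt, not_lt] at hz
            have h2 : dist ((r, r) + z) ((r, r) : T × T) < d := by
              rw [dist_eq_norm, add_sub_cancel_left, Prod.norm_def]
              exact (max_le hz.1 hz.2).trans_lt (by linarith)
            have h3 := hdf h2
            rw [dist_eq_norm] at h3
            exact h3.le
        have hBm : (γ k).real B ≤ 2 * P.real {ω | d / 2 < ‖X (φ k) ω‖} := by
          have hml : MeasurableSet {x : T | d / 2 < ‖x‖} :=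
            measurableSet_lt measurable_const measurable_norm
          have b0 : B ⊆ Prod.fst ⁻¹' {x : T | d / 2 < ‖x‖} ∪ Prod.snd ⁻¹' {x : T | d / 2 < ‖x‖} :=
            fun z hz => hz
          have b1 : (γ k) (Prod.fst ⁻¹' {x : T | d / 2 < ‖x‖}) ≤
              P {ω | d / 2 < ‖X (φ k) ω‖} := by
            have := g1 k {x : T | d / 2 < ‖x‖}
            rw [Measure.map_apply measurable_fst hml, Measure.map_apply (hX _) hml] at this
            exact this
          have b2 : (γ k) (Prod.snd ⁻¹' {x : T | d / 2 < ‖x‖}) ≤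
              P {ω | d / 2 < ‖X (φ k) ω‖} := by
            have := g2 k {x : T | d / 2 < ‖x‖}
            rw [Measure.map_apply measurable_snd hml, Measure.map_apply (hX _) hml] at this
            exact this
          have b3 : (γ k) B ≤ P {ω | d / 2 < ‖X (φ k) ω‖} + P {ω | d / 2 < ‖X (φ k) ω‖} :=
            (measure_mono b0).trans ((measure_union_le _ _).trans (add_le_add b1 b2))
          have b4 := ENNReal.toReal_mono (by finiteness) b3
          rw [ENNReal.toReal_add (measure_ne_top _ _) (measure_ne_top _ _)] at b4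
          change (γ k).real B ≤ P.real _ + P.real _ at b4
          linarith
        have h6 : (γ k).real univ = c := by rw [Measure.real, g3]; rfl
        rw [integral_add (integrable_const _) ((integrable_const _).indicator hmB),
          integral_const, integral_indicator_const _ hmB, smul_eq_mul, smul_eq_mul, h6] at h1
        have h7 : (γ k).real B * (2 * M) ≤ 2 * M * (2 * P.real {ω | d / 2 < ‖X (φ k) ω‖}) := by
          rw [mul_comm]
          exact mul_le_mul_of_nonneg_left hBm (by positivity)
        linarith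
      -- the difference as an integral
      have hfin : IsFiniteMeasure (((P.map (R k)).map diag).conv (γ k)) := inferInstance
      have hFc : Continuous (fun r : T => ∫ z, f ((r, r) + z) ∂(γ k)) := by
        refine continuous_of_dominated (bound := fun _ => M) ?_ ?_ (integrable_const _) ?_
        · intro r
          have : Continuous fun z : T × T => f ((r, r) + z) := by fun_prop
          exact this.measurable.aestronglyMeasurable
        · exact fun r => Eventually.of_forall fun z => hM' _
        · exact Eventually.of_forall fun z => by fun_prop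
      have hFc2 : Continuous (fun y : T × T => ∫ z, f (y + z) ∂(γ k)) := by
        refine continuous_of_dominated (bound := fun _ => M) ?_ ?_ (integrable_const _) ?_
        · intro r
          have : Continuous fun z : T × T => f (r + z) := by fun_prop
          exact this.measurable.aestronglyMeasurable
        · exact fun r => Eventually.of_forall fun z => hM' _
        · exact Eventually.of_forall fun z => by fun_prop
      have e1 : ∫ z, f z ∂(((P.map (R k)).map diag).conv (γ k)) =
          ∫ r, (∫ z, f ((r, r) + z) ∂(γ k)) ∂(P.map (R k)) := by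
        rw [integral_conv (int_cont f.continuous),
          integral_map meas_diag.aemeasurable hFc2.measurable.aestronglyMeasurable]
        rfl
      have e2 : ∫ ω, f (R k ω, R k ω) ∂P = ∫ r, f (r, r) ∂(P.map (R k)) :=
        (integral_map (mR k) hdc.measurable.aestronglyMeasurable).symm
      have e3 : ∫ z, f z ∂(((P.map (R k)).map diag).conv (γ k)) -
          (c : ℝ) * ∫ ω, f (R k ω, R k ω) ∂P =
          ∫ r, (∫ z, (f ((r, r) + z) - f (r, r)) ∂(γ k)) ∂(P.map (R k)) := by
        rw [e1, e2, ← integral_const_mul, ← integral_sub (int_cont hFc)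
          ((int_cont hdc).const_mul _)]
        refine integral_congr_ae (Eventually.of_forall fun r => ?_)
        change _ - (c : ℝ) * f (r, r) = ∫ z, (f ((r, r) + z) - f (r, r)) ∂(γ k)
        have hc1 : Continuous fun z : T × T => f ((r, r) + z) := by fun_prop
        rw [integral_sub (int_cont hc1) (integrable_const _), integral_const, smul_eq_mul]
        have h6 : (γ k).real univ = c := by rw [Measure.real, g3]; rfl
        rw [h6]
      rw [Real.dist_eq, sub_zero, e3]
      have h8 : ‖∫ r, (∫ z, (f ((r, r) + z) - f (r, r)) ∂(γ k)) ∂(P.map (R k))‖ ≤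
          (ε / (2 * (c + 1)) * c + 2 * M * (2 * P.real {ω | d / 2 < ‖X (φ k) ω‖})) *
            (P.map (R k)).real univ :=
        norm_integral_le_of_norm_le_const (Eventually.of_forall hinner)
      rw [probReal_univ, mul_one, Real.norm_eq_abs] at h8
      refine h8.trans_lt ?_
      have h9 : ε / (2 * ((c : ℝ) + 1)) * c ≤ ε / 2 := by
        rw [div_mul_eq_mul_div, div_le_div_iff₀ (by positivity) (by norm_num)]
        nlinarith [c.coe_nonneg]
      have h10 : 2 * M * (2 * P.real {ω | d / 2 < ‖X (φ k) ω‖}) < ε / 2 := by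
        have h11 : 2 * M * (2 * P.real {ω | d / 2 < ‖X (φ k) ω‖}) ≤
            4 * M * (ε / (8 * (M + 1))) := by
          have := mul_le_mul_of_nonneg_left hk.le (show 0 ≤ 4 * M by positivity)
          linarith
        refine h11.trans_lt ?_
        rw [mul_div_assoc', div_lt_div_iff₀ (by positivity) (by norm_num)]
        nlinarith
      linarith
    have l4 := l3.add l2
    rw [zero_add] at l4
    refine l4.congr fun k => ?_
    ring
  · obtain ⟨θ, hθ0, hθ⟩ := g4 k
    refine ⟨θ, hθ0, ?_⟩
    change ∀ᵐ z ∂(((P.map (R k)).map diag).conv (γ k)), z.2 - z.1 = θ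
    rw [Measure.conv_comm]
    exact conv_ae (Q := fun t => t = θ) (measurableSet_singleton θ) hθ

end Pool.Agent.Zk24.SC
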