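import Mathlib
import Pool.Agent.Zk24.SC.CoupleB

/-!
Jointly invariant measures against laws of random series: main statements.
-/

set_option autoImplicit false

open MeasureTheory Filter Topology Set ProbabilityTheory
open scoped ENNReal NNReal

namespace Pool.Agent.Zk24.SC

variable {Ω : Type*} [MeasurableSpace Ω] {P : Measure Ω} [IsProbabilityMeasure P] {X : ℕ → Ω → T}

/-- condition (a) -/
def CondA (P : Measure Ω) (X : ℕ → Ω → T) : Prop :=
  ∃ C : Set T, C.Countable ∧ ∑' n, (P.prod P) {w : Ω × Ω | X n w.1 ∈ C ∧ X n w.2 ∈ C ∧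
      ¬ IsOfFinAddOrder (X n w.1 - X n w.2)} = ∞

/-- condition (b) -/
def CondB (P : Measure Ω) (X : ℕ → Ω → T) : Prop :=
  ∃ c : ℝ≥0, 0 < c ∧ ∃ᶠ n in atTop, ∃ θ : T, θ ≠ 0 ∧ ∀ A : Set T, MeasurableSet A →
      (c : ℝ≥0∞) ≤ P {ω | X n ω ∈ A} + P {ω | X n ω + θ ∉ A}

lemma not_fin_zsmul {m : ℤ} (hm : m ≠ 0) {x : T} (h : ¬ IsOfFinAddOrder x) :
    ¬ IsOfFinAddOrder (m • x) := by
  intro h1
  apply h
  rw [isOfFinAddOrder_iff_zsmul_eq_zero] at h1 ⊢
  obtain ⟨n, hn, h2⟩ := h1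
  exact ⟨n * m, mul_ne_zero hn hm, by rw [mul_smul]; exact h2⟩

lemma CondA.zsmul (h : CondA P X) {m : ℤ} (hm : m ≠ 0) : CondA P (fun n ω => m • X n ω) := by
  obtain ⟨C, hC, hdiv⟩ := h
  refine ⟨(fun x => m • x) '' C, hC.image _, ?_⟩
  rw [← top_le_iff, ← hdiv]
  refine ENNReal.tsum_le_tsum fun n => measure_mono ?_
  rintro ⟨w1, w2⟩ ⟨h1, h2, h3⟩
  refine ⟨⟨_, h1, rfl⟩, ⟨_, h2, rfl⟩, ?_⟩
  change ¬ IsOfFinAddOrder (m • X n w1 - m • X n w2)
  rw [← smul_sub]
  exact not_fin_zsmul hm h3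

lemma zsmul_ne_zero_of_small {m : ℤ} (hm : m ≠ 0) {θ : T} (hθ : θ ≠ 0) (hs : ‖θ‖ < 1 / |(m : ℝ)|) :
    m • θ ≠ 0 := by
  obtain ⟨r, rfl, hr⟩ := Pool.Agent.H847R3.XpXq.exists_rep_norm θ
  intro h0
  have e1 : (((m : ℝ) * r : ℝ) : T) = 0 := by
    have : ((m • r : ℝ) : T) = 0 := by
      rw [AddCircle.coe_zsmul]; exact h0
    rwa [zsmul_eq_mul] at this
  rw [AddCircle.coe_eq_zero_iff] at e1
  obtain ⟨k, hk⟩ := e1
  simp only [zsmul_eq_mul, mul_one] at hk
  have hm0 : 0 < |(m : ℝ)| := abs_pos.2 (by exact_mod_cast hm)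
  have h1 : |(m : ℝ) * r| < 1 := by
    rw [abs_mul, hr]
    calc |(m : ℝ)| * ‖((r : ℝ) : T)‖ < |(m : ℝ)| * (1 / |(m : ℝ)|) :=
          mul_lt_mul_of_pos_left hs hm0
      _ = 1 := by field_simp
  rw [← hk] at h1
  have h2 : k = 0 := by
    have : |k| < 1 := by exact_mod_cast h1
    exact Int.abs_lt_one_iff.1 this
  rw [h2] at hk
  have h3 : r = 0 := by
    have hm' : (m : ℝ) ≠ 0 := by exact_mod_cast hm
    have : (m : ℝ) * r = 0 := by rw [← hk]; simp
    exact (mul_eq_zero.1 this).resolve_left hm'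
  apply hθ
  rw [h3]
  rfl

lemma CondB.zsmul (hX : ∀ n, Measurable (X n)) (hind : iIndepFun X P) {S : Ω → T}
    (hlim : ∀ᵐ ω ∂P, Tendsto (fun N => ∑ i ∈ Finset.range N, X i ω) atTop (𝓝 (S ω)))
    (h : CondB P X) {m : ℤ} (hm : m ≠ 0) : CondB P (fun n ω => m • X n ω) := by
  obtain ⟨c, hc, hfr⟩ := h
  refine ⟨c, hc, ?_⟩
  have hm0 : 0 < |(m : ℝ)| := abs_pos.2 (by exact_mod_cast hm)
  set δ : ℝ := 1 / (3 * |(m : ℝ)|) with hδ
  have hδ0 : 0 < δ := by positivity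
  have hsm := ENNReal.tendsto_atTop_zero_of_tsum_ne_top (large_summable hX hind hlim hδ0)
  have hc2 : (0 : ℝ≥0∞) < (c : ℝ≥0∞) / 2 := by
    refine ENNReal.div_pos ?_ (by norm_num)
    rw [Ne, ENNReal.coe_eq_zero]; exact hc.ne'
  have hev : ∀ᶠ n in atTop, P {ω | δ < ‖X n ω‖} < (c : ℝ≥0∞) / 2 :=
    hsm.eventually (gt_mem_nhds hc2)
  refine (hfr.and_eventually hev).mono ?_
  rintro n ⟨⟨θ, hθ0, hθ⟩, hn⟩
  have mzm : Measurable (fun x : T => m • x) := (continuous_zsmul m).measurable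
  refine ⟨m • θ, ?_, fun A hA => ?_⟩
  · -- the shift is small
    apply zsmul_ne_zero_of_small hm hθ0
    have h1 := hθ {x : T | δ < ‖x‖} (measurableSet_lt measurable_const measurable_norm)
    have h2 : P {ω | X n ω + θ ∉ {x : T | δ < ‖x‖}} ≤
        P {ω | δ < ‖X n ω‖} + P ({ω | X n ω + θ ∉ {x : T | δ < ‖x‖}} ∩ {ω | ‖X n ω‖ ≤ δ}) := by
      refine le_trans (measure_mono ?_) (measure_union_le _ _)
      intro ω hω
      by_cases hω2 : δ < ‖X n ω‖
      · exact Or.inl hω2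
      · exact Or.inr ⟨hω, not_lt.1 hω2⟩
    have h3 : P ({ω | X n ω + θ ∉ {x : T | δ < ‖x‖}} ∩ {ω | ‖X n ω‖ ≤ δ}) ≠ 0 := by
      intro h0
      rw [h0, add_zero] at h2
      have h4 : (c : ℝ≥0∞) ≤ P {ω | δ < ‖X n ω‖} + P {ω | δ < ‖X n ω‖} :=
        h1.trans (add_le_add le_rfl h2)
      have h5 : P {ω | δ < ‖X n ω‖} + P {ω | δ < ‖X n ω‖} < (c : ℝ≥0∞) / 2 + (c : ℝ≥0∞) / 2 :=
        ENNReal.add_lt_add hn hn
      rw [ENNReal.add_halves] at h5
      exact absurd h4 (not_le.2 h5)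
    obtain ⟨ω, hω1, hω2⟩ := nonempty_of_measure_ne_zero h3
    have hω1' : ‖X n ω + θ‖ ≤ δ := not_lt.1 hω1
    have hω2' : ‖X n ω‖ ≤ δ := hω2
    have h6 : ‖θ‖ ≤ δ + δ := by
      have : θ = (X n ω + θ) - X n ω := by abel
      rw [this]
      exact (norm_sub_le _ _).trans (add_le_add hω1' hω2')
    refine h6.trans_lt ?_
    rw [hδ, ← two_mul, mul_one_div, div_lt_div_iff₀ (by positivity) hm0]
    nlinarith
  · have h1 := hθ ((fun x : T => m • x) ⁻¹' A) (mzm hA)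
    refine h1.trans (le_of_eq ?_)
    congr 1
    congr 1
    ext ω
    simp only [mem_ofPred_eq, mem_preimage, smul_add]

variable {p q : ℕ}

/-- one multiple -/
theorem series_one (hp : 2 ≤ p) (hq : 2 ≤ q) (hirr : Irrational (Real.log p / Real.log q))
    {μ : Measure T} [IsProbabilityMeasure μ]
    (hμp : MeasurePreserving (fun x : T => p • x) μ μ)
    (hμq : MeasurePreserving (fun x : T => q • x) μ μ)
    (hsing : μ ⟂ₘ (volume : Measure T))
    (hX : ∀ n, Measurable (X n)) (hind : iIndepFun X P) {S : Ω → T}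
    (hlim : ∀ᵐ ω ∂P, Tendsto (fun N => ∑ i ∈ Finset.range N, X i ω) atTop (𝓝 (S ω)))
    (h : CondA P X ∨ CondB P X) :
    ∃ A : Set T, MeasurableSet A ∧ μ Aᶜ = 0 ∧ ∀ t : T, P {ω | S ω + t ∈ A} = 0 := by
  have hS := aemeas hX hlim
  have hη : IsProbabilityMeasure (P.map S) := Measure.isProbabilityMeasure_map hS
  obtain ⟨A, hA, hA1, hA2⟩ : ∃ A : Set T, MeasurableSet A ∧ μ Aᶜ = 0 ∧
      ∀ t : T, (P.map S) {x | x + t ∈ A} = 0 := by
    rcases h with ⟨C, hC, hdiv⟩ | ⟨c, hc, hfr⟩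
    · obtain ⟨π, h1, h2⟩ := couple_a hX hind hlim hC hdiv
      exact crit_set hp hq hirr hμp hμq hsing one_pos h1 (Or.inl h2)
    · obtain ⟨π, h1, h2⟩ := couple_b hX hind hlim hfr
      exact crit_set hp hq hirr hμp hμq hsing (by exact_mod_cast hc) h1 (Or.inr h2)
  refine ⟨A, hA, hA1, fun t => ?_⟩
  have h1 := hA2 t
  have hm : MeasurableSet {x : T | x + t ∈ A} := measurable_add_const t hA
  rw [Measure.map_apply_of_aemeasurable hS hm] at h1
  exact h1

/-- all multiples -/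
theorem series_all (hp : 2 ≤ p) (hq : 2 ≤ q) (hirr : Irrational (Real.log p / Real.log q))
    {μ : Measure T} [IsProbabilityMeasure μ]
    (hμp : MeasurePreserving (fun x : T => p • x) μ μ)
    (hμq : MeasurePreserving (fun x : T => q • x) μ μ)
    (hsing : μ ⟂ₘ (volume : Measure T))
    (hX : ∀ n, Measurable (X n)) (hind : iIndepFun X P) {S : Ω → T}
    (hlim : ∀ᵐ ω ∂P, Tendsto (fun N => ∑ i ∈ Finset.range N, X i ω) atTop (𝓝 (S ω)))
    (h : CondA P X ∨ CondB P X) :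
    ∃ A : Set T, MeasurableSet A ∧ μ Aᶜ = 0 ∧ ∀ m : ℤ, m ≠ 0 → ∀ t : T,
      P {ω | m • S ω + t ∈ A} = 0 := by
  have key : ∀ m : {m : ℤ // m ≠ 0}, ∃ A : Set T, MeasurableSet A ∧ μ Aᶜ = 0 ∧ ∀ t : T,
      P {ω | m.1 • S ω + t ∈ A} = 0 := by
    rintro ⟨m, hm⟩
    have mzm : Measurable (fun x : T => m • x) := (continuous_zsmul m).measurable
    refine series_one hp hq hirr hμp hμq hsing (X := fun n ω => m • X n ω)
      (fun n => mzm.comp (hX n)) (hind.comp (fun _ x => m • x) fun _ => mzm)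
      (S := fun ω => m • S ω) ?_ ?_
    · filter_upwards [hlim] with ω hω
      have h1 := ((continuous_zsmul m).tendsto (S ω)).comp hω
      refine h1.congr fun N => ?_
      simp [Finset.smul_sum]
    · exact h.imp (fun h => h.zsmul hm) (fun h => CondB.zsmul hX hind hlim h hm)
  choose A hA1 hA2 hA3 using key
  refine ⟨⋂ m, A m, MeasurableSet.iInter hA1, ?_, fun m hm t => ?_⟩
  · rw [compl_iInter]
    exact measure_iUnion_null hA2
  · refine measure_mono_null ?_ (hA3 ⟨m, hm⟩ t)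
    intro ω hω
    exact mem_iInter.1 hω ⟨m, hm⟩

/-- from singularity of singular invariant measures to rigidity -/
theorem rigid_of_sing (hp : 2 ≤ p) (hq : 2 ≤ q) {η : Measure T} [IsFiniteMeasure η]
    (h : ∀ ν : Measure T, IsProbabilityMeasure ν →
      MeasurePreserving (fun x : T => p • x) ν ν → MeasurePreserving (fun x : T => q • x) ν ν →
      ν ⟂ₘ (volume : Measure T) → ν ⟂ₘ η)
    {μ : Measure T} [IsProbabilityMeasure μ]
    (hμp : MeasurePreserving (fun x : T => p • x) μ μ)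
    (hμq : MeasurePreserving (fun x : T => q • x) μ μ) (hac : μ ≪ η) :
    μ = (volume : Measure T) := by
  have h1 := Pool.Agent.H847R3.XpXq.sing_inv (by omega : p ≠ 0) hμp
  have h2 := Pool.Agent.H847R3.XpXq.sing_inv (by omega : q ≠ 0) hμq
  set σ : Measure T := μ.singularPart volume with hσ
  have hσf : IsFiniteMeasure σ := inferInstance
  have hσle : σ ≤ μ := Measure.singularPart_le _ _
  have hσs : σ ⟂ₘ (volume : Measure T) := Measure.mutuallySingular_singularPart _ _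
  have hσ0 : σ = 0 := by
    by_contra hne
    have hu : σ univ ≠ 0 := by rwa [Ne, Measure.measure_univ_eq_zero]
    have hui : (σ univ)⁻¹ ≠ 0 := ENNReal.inv_ne_zero.2 (measure_ne_top _ _)
    have hui' : (σ univ)⁻¹ ≠ ∞ := ENNReal.inv_ne_top.2 hu
    have hprob : IsProbabilityMeasure ((σ univ)⁻¹ • σ) :=
      ⟨by rw [Measure.smul_apply, smul_eq_mul]; exact ENNReal.inv_mul_cancel hu (measure_ne_top _ _)⟩
    have h3 := h _ hprob (h1.smul_measure _) (h2.smul_measure _) (hσs.smul _)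
    have h4 : σ ⟂ₘ η := by
      obtain ⟨s, hs, hs1, hs2⟩ := h3
      refine ⟨s, hs, ?_, hs2⟩
      rw [Measure.smul_apply, smul_eq_mul] at hs1
      exact (mul_eq_zero.1 hs1).resolve_left hui
    have h5 : σ ≪ η := (Measure.absolutelyContinuous_of_le hσle).trans hac
    have h6 : σ ⟂ₘ σ := h4.mono_ac Measure.AbsolutelyContinuous.rfl h5
    exact hne (Measure.MutuallySingular.self_iff σ |>.1 h6)
  have hacv : μ ≪ (volume : Measure T) := by
    have h7 : σ + (volume : Measure T).withDensity (μ.rnDeriv volume) = μ :=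
      Measure.singularPart_add_rnDeriv μ volume
    rw [hσ0, zero_add] at h7
    rw [← h7]
    exact withDensity_absolutelyContinuous _ _
  have herg : Ergodic (fun y : T => p • y) := AddCircle.ergodic_nsmul (by omega)
  obtain ⟨e, he⟩ := herg.eq_smul_of_absolutelyContinuous hμp hacv
  have h8 : μ univ = 1 := measure_univ
  rw [he, Measure.smul_apply, smul_eq_mul] at h8
  have h9 : (volume : Measure T) univ = 1 := by simp
  rw [h9, mul_one] at h8
  rw [he, h8, one_smul]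

end Pool.Agent.Zk24.SC
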