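import Mathlib
import Pool.Agent.Zk24.SC.Final
import Pool.Agent.W764.SH.Decomp
import Pool.Agent.Zk32.Erg2

/-!
Absolutely continuous parts of the translates of a jointly ergodic measure, for coprime `p`, `q`.
-/

set_option autoImplicit false

open MeasureTheory Filter Topology Set
open scoped ENNReal NNReal

namespace Pool.Agent.Zk24.SC

open Pool.Agent.H847R3.XpXq (maps sing_map exists_coprime)

lemma meas_nsmul (s : ℕ) : Measurable (fun x : T => s • x) := (continuous_nsmul s).measurable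

/-- a part `κ` of `μ` whose translate by `θ` is absolutely continuous with respect to `μ` -/
structure Part (μ κ : Measure T) (θ : T) : Prop where
  le : κ ≤ μ
  ac : κ.map (fun x => x + θ) ≪ μ

lemma Part.push {μ κ : Measure T} {θ : T} (h : Part μ κ θ) (s : ℕ) :
    Part (μ.map (fun x => s • x)) (κ.map (fun x => s • x)) (s • θ) := by
  refine ⟨Measure.map_mono h.le (meas_nsmul s), ?_⟩
  have e : (κ.map (fun x => s • x)).map (fun x => x + s • θ) =
      (κ.map (fun x => x + θ)).map (fun x => s • x) := by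
    rw [Measure.map_map (measurable_add_const _) (meas_nsmul s),
      Measure.map_map (meas_nsmul s) (measurable_add_const _)]
    congr 1
    funext x
    simp [smul_add]
  rw [e]
  exact h.ac.map (meas_nsmul s)

lemma map_eq_zero' {κ : Measure T} {f : T → T} (hf : Measurable f) (h : κ.map f = 0) : κ = 0 := by
  have h1 : (κ.map f) univ = 0 := by rw [h]; rfl
  rw [Measure.map_apply hf MeasurableSet.univ, preimage_univ] at h1
  exact Measure.measure_univ_eq_zero.1 h1

lemma torsion_rep {p : ℕ} (hp : 1 ≤ p) {θ : T} (hθ : θ ≠ 0) (h : p • θ = 0) :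
    ∃ j : ℕ, 1 ≤ j ∧ j < p ∧ θ = Pool.Agent.W764.FB.hh p 1 j := by
  obtain ⟨r, rfl⟩ := QuotientAddGroup.mk_surjective θ
  have h1 : ((p • r : ℝ) : T) = 0 := by rw [AddCircle.coe_nsmul]; exact h
  rw [AddCircle.coe_eq_zero_iff] at h1
  obtain ⟨m, hm⟩ := h1
  simp only [zsmul_eq_mul, mul_one, nsmul_eq_mul] at hm
  have hp0 : (p : ℝ) ≠ 0 := by positivity
  have hpz : (0 : ℤ) < p := by exact_mod_cast hp
  set j : ℤ := m % p with hj
  have hj0 : 0 ≤ j := Int.emod_nonneg _ hpz.ne'
  have hjp : j < p := Int.emod_lt_of_pos _ hpz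
  have hr : r = (j : ℝ) / p + ((m / p : ℤ) : ℝ) := by
    have h2 : (m : ℝ) = (j : ℝ) + p * ((m / p : ℤ) : ℝ) := by
      have := Int.emod_add_mul_ediv m p
      exact_mod_cast this.symm
    field_simp
    linarith
  have hθj : ((r : ℝ) : T) = (((j : ℝ) / p : ℝ) : T) := by
    rw [hr, AddCircle.coe_add]
    have : ((((m / p : ℤ) : ℝ)) : T) = 0 := by
      rw [AddCircle.coe_eq_zero_iff]
      exact ⟨m / p, by simp⟩
    rw [this, add_zero]
  have hjne : j ≠ 0 := by
    intro h0
    apply hθ
    change ((r : ℝ) : T) = 0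
    rw [hθj, h0]; simp
  refine ⟨j.toNat, by omega, by omega, ?_⟩
  change ((r : ℝ) : T) = _
  rw [hθj, Pool.Agent.W764.FB.hh]
  congr 1
  have : ((j.toNat : ℕ) : ℝ) = (j : ℝ) := by
    have : ((j.toNat : ℕ) : ℤ) = j := Int.toNat_of_nonneg hj0
    exact_mod_cast this
  rw [this, pow_one]

/-- no translate by a `p`-adic rational point -/
lemma p_part {p q : ℕ} (hp : 2 ≤ p) (hq : 2 ≤ q) (hpq : Nat.Coprime p q)
    {μ : Measure T} [IsProbabilityMeasure μ]
    (hμp : MeasurePreserving (fun x : T => p • x) μ μ)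
    (hμq : MeasurePreserving (fun x : T => q • x) μ μ)
    (hsing : μ ⟂ₘ (volume : Measure T)) (k : ℕ) :
    ∀ (κ : Measure T) (θ : T), Part μ κ θ → θ ≠ 0 → p ^ k • θ = 0 → κ = 0 := by
  induction k with
  | zero =>
    intro κ θ _ h0 h1
    rw [pow_zero, one_smul] at h1
    exact absurd h1 h0
  | succ k ih =>
    intro κ θ h h0 h1
    by_cases hz : p • θ = 0
    · obtain ⟨D, hD, -, -, hDv, B, hB, hB1, hB2⟩ :=
        Pool.Agent.W764.SH.decomp hp hq hpq μ hμp hμq
      obtain ⟨j, hj1, hj2, hj⟩ := torsion_rep (by omega : 1 ≤ p) h0 hz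
      -- `μ D = 0`
      have hD0 : μ D = 0 := by
        obtain ⟨s, hs, hs1, hs2⟩ := hsing
        have e1 : μ.restrict D sᶜ = 0 := by
          rw [hDv, Measure.smul_apply, hs2, smul_zero]
        have e2 : μ.restrict D s = 0 :=
          le_antisymm ((Measure.restrict_apply_le D s).trans hs1.le) bot_le
        have e3 : μ.restrict D univ = 0 := by
          rw [← union_compl_self s]
          exact measure_union_null e2 e1
        rwa [Measure.restrict_apply_univ] at e3
      have hBc : μ Bᶜ = 0 := by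
        refine measure_mono_null (t := D ∪ (Dᶜ \ B)) ?_ (measure_union_null hD0 hB1)
        intro x hx
        by_cases hxD : x ∈ D
        · exact Or.inl hxD
        · exact Or.inr ⟨hxD, hx⟩
      have k1 : κ Bᶜ = 0 := le_antisymm ((h.le _).trans hBc.le) bot_le
      have k2 : κ {x | x + θ ∈ Bᶜ} = 0 := by
        have := h.ac hBc
        rwa [Measure.map_apply (measurable_add_const θ) hB.compl] at this
      have k3 : κ univ = 0 := by
        refine measure_mono_null ?_ (measure_union_null k1 k2)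
        intro x _
        by_cases hxB : x ∈ B
        · right
          change x + θ ∈ Bᶜ
          rw [hj]
          exact hB2 x hxB j hj1 hj2
        · exact Or.inl hxB
      exact Measure.measure_univ_eq_zero.1 k3
    · have h2 := h.push p
      rw [hμp.map_eq] at h2
      have h3 : p ^ k • (p • θ) = 0 := by rw [← mul_smul, ← pow_succ]; exact h1
      exact map_eq_zero' (meas_nsmul p) (ih _ _ h2 hz h3)

lemma mp_pow {s : ℕ} {μ : Measure T} (h : MeasurePreserving (fun x : T => s • x) μ μ) (k : ℕ) :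
    MeasurePreserving (fun x : T => s ^ k • x) μ μ := by
  induction k with
  | zero =>
    have e : (fun x : T => s ^ 0 • x) = id := by funext x; simp
    rw [e]
    exact MeasurePreserving.id μ
  | succ k ih =>
    have e : (fun x : T => s ^ (k + 1) • x) = (fun x : T => s ^ k • x) ∘ (fun x : T => s • x) := by
      funext x
      simp [pow_succ, mul_smul]
    rw [e]
    exact ih.comp h

/-- no translate by a point whose order divides a power of `p q` -/
lemma pq_part {p q : ℕ} (hp : 2 ≤ p) (hq : 2 ≤ q) (hpq : Nat.Coprime p q)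
    {μ : Measure T} [IsProbabilityMeasure μ]
    (hμp : MeasurePreserving (fun x : T => p • x) μ μ)
    (hμq : MeasurePreserving (fun x : T => q • x) μ μ)
    (hsing : μ ⟂ₘ (volume : Measure T)) {κ : Measure T} {θ : T} (h : Part μ κ θ) (h0 : θ ≠ 0)
    {a : ℕ} (ha : (p * q) ^ a • θ = 0) : κ = 0 := by
  by_cases hz : p ^ a • θ = 0
  · exact p_part hp hq hpq hμp hμq hsing a κ θ h h0 hz
  · have h2 := h.push (p ^ a)
    rw [(mp_pow hμp a).map_eq] at h2
    have h3 : q ^ a • (p ^ a • θ) = 0 := by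
      rw [← mul_smul, mul_comm, ← mul_pow]; exact ha
    exact map_eq_zero' (meas_nsmul _)
      (p_part hq hp hpq.symm hμq hμp hsing a _ _ h2 hz h3)

lemma irr_of_coprime {p q : ℕ} (hp : 2 ≤ p) (hq : 2 ≤ q) (hpq : Nat.Coprime p q) :
    Irrational (Real.log p / Real.log q) := by
  rintro ⟨r, hr⟩
  have hp1 : (1 : ℝ) < p := by exact_mod_cast hp
  have hq1 : (1 : ℝ) < q := by exact_mod_cast hq
  have hlp := Real.log_pos hp1
  have hlq := Real.log_pos hq1
  have hrpos : (0 : ℝ) < r := by rw [hr]; positivity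
  have hrpos' : 0 < r := by exact_mod_cast hrpos
  have hnum : 0 < r.num := Rat.num_pos.2 hrpos'
  have e1 : (r.den : ℝ) * Real.log p = (r.num.toNat : ℝ) * Real.log q := by
    have h1 : (r : ℝ) = (r.num : ℝ) / r.den := by exact_mod_cast (Rat.num_div_den r).symm
    have h2 : ((r.num.toNat : ℕ) : ℝ) = (r.num : ℝ) := by
      have : ((r.num.toNat : ℕ) : ℤ) = r.num := Int.toNat_of_nonneg hnum.le
      exact_mod_cast this
    rw [h1] at hr
    rw [h2]
    have hd : (r.den : ℝ) ≠ 0 := by exact_mod_cast r.den_nz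
    field_simp at hr
    linarith
  have e2 : ((p ^ r.den : ℕ) : ℝ) = ((q ^ r.num.toNat : ℕ) : ℝ) := by
    push_cast
    rw [← Real.log_pow, ← Real.log_pow] at e1
    exact Real.log_injOn_pos (by simp; positivity) (by simp; positivity) e1
  have e3 : p ^ r.den = q ^ r.num.toNat := by exact_mod_cast e2
  have hc : Nat.Coprime (p ^ r.den) (q ^ r.num.toNat) := Nat.Coprime.pow _ _ hpq
  rw [e3, Nat.coprime_self] at hc
  have : 2 ≤ q ^ r.num.toNat := le_trans hq (Nat.le_self_pow (by omega) q)
  omega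

/-- a translate which is not singular has order coprime to `p q` -/
lemma tors_part {p q : ℕ} (hp : 2 ≤ p) (hq : 2 ≤ q) (hpq : Nat.Coprime p q)
    {μ : Measure T} [IsProbabilityMeasure μ]
    (hμp : MeasurePreserving (fun x : T => p • x) μ μ)
    (hμq : MeasurePreserving (fun x : T => q • x) μ μ)
    (hsing : μ ⟂ₘ (volume : Measure T)) {κ : Measure T} {θ : T} (h : Part μ κ θ) (hκ : κ ≠ 0) :
    ∃ t : ℕ, 1 ≤ t ∧ Nat.Coprime (p * q) t ∧ t • θ = 0 := by
  have hfin : IsOfFinAddOrder θ := by
    by_contra hnf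
    obtain ⟨r, hr, hrθ⟩ := exists_irrational hnf
    have hms : μ.map (fun x : T => x + θ) ⟂ₘ μ := by
      refine maps hp hq (irr_of_coprime hp hq hpq) hμp hμq hμp hμq (Or.inl hsing)
        (C := {((r, fun _ => 1) : ℝ × (ℕ → ℕ))}) (countable_singleton _) ?_
        (measurable_add_const θ) ?_
      · rintro c hc
        rw [mem_singleton_iff] at hc
        subst hc
        exact ⟨hr, fun k => ⟨0, 0, by simp⟩⟩
      · refine Eventually.of_forall fun x => ⟨1, 1, one_ne_zero, one_ne_zero, _,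
          mem_singleton _, ?_⟩
        simp only [one_smul, add_sub_cancel_left]
        rw [hrθ]
        exact tendsto_const_nhds
    have h1 : κ.map (fun x : T => x + θ) ≪ μ.map (fun x : T => x + θ) :=
      (Measure.map_mono h.le (measurable_add_const θ)).absolutelyContinuous
    have h2 := hms.mono_ac h1 h.ac
    exact hκ (map_eq_zero' (measurable_add_const θ) ((Measure.MutuallySingular.self_iff _).1 h2))
  obtain ⟨a, t, ht, hta, hcop⟩ := exists_coprime
    (show 2 ≤ p * q from le_trans hp (Nat.le_mul_of_pos_right p (by omega))) hfin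
  refine ⟨t, ht, hcop, ?_⟩
  by_contra hne
  have h1 := h.push t
  have htz : (t : ℤ) ≠ 0 := by exact_mod_cast (by omega : t ≠ 0)
  have efun : (fun x : T => (t : ℤ) • x) = fun x : T => t • x := by
    funext x; exact natCast_zsmul x t
  have hs' : μ.map (fun x : T => t • x) ⟂ₘ (volume : Measure T) := by
    have := sing_map htz hsing
    rwa [efun] at this
  have hpr : IsProbabilityMeasure (μ.map (fun x : T => t • x)) :=
    Measure.isProbabilityMeasure_map (meas_nsmul t).aemeasurable
  have hinv : ∀ s : ℕ, MeasurePreserving (fun x : T => s • x) μ μ →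
      MeasurePreserving (fun x : T => s • x) (μ.map (fun x : T => t • x))
        (μ.map (fun x : T => t • x)) := by
    intro s hs
    refine ⟨meas_nsmul s, ?_⟩
    rw [Measure.map_map (meas_nsmul s) (meas_nsmul t)]
    conv_rhs => rw [← hs.map_eq]
    rw [Measure.map_map (meas_nsmul t) (meas_nsmul s)]
    congr 1
    funext x
    exact smul_comm s t x
  have h3 : (p * q) ^ a • (t • θ) = 0 := by rw [smul_comm]; exact hta
  exact hκ (map_eq_zero' (meas_nsmul t)
    (pq_part hp hq hpq (hinv p hμp) (hinv q hμq) hs' h1 hne h3))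

/-- the sum of the translates by the points killed by `t` -/
noncomputable def tr (t : ℕ) (ht : 0 < t) (μ : Measure T) : Measure T :=
  ∑ h ∈ (AddCircle.finite_torsion (1 : ℝ) ht).toFinset, μ.map (fun x => x + h)

lemma mem_H {t : ℕ} (ht : 0 < t) {h : T} :
    h ∈ (AddCircle.finite_torsion (1 : ℝ) ht).toFinset ↔ t • h = 0 := by
  rw [Set.Finite.mem_toFinset]; rfl

lemma map_finset_sum {ι : Type*} (s : Finset ι) (m : ι → Measure T) {f : T → T}
    (hf : Measurable f) : (∑ i ∈ s, m i).map f = ∑ i ∈ s, (m i).map f := by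
  classical
  induction s using Finset.induction_on with
  | empty => simp
  | insert a s ha ih => rw [Finset.sum_insert ha, Finset.sum_insert ha, Measure.map_add _ _ hf, ih]

lemma le_tr {t : ℕ} (ht : 0 < t) (μ : Measure T) : μ ≤ tr t ht μ := by
  have h0 : (0 : T) ∈ (AddCircle.finite_torsion (1 : ℝ) ht).toFinset := by
    rw [mem_H ht]; simp
  unfold tr
  rw [← Finset.add_sum_erase _ _ h0]
  have : μ.map (fun x => x + (0 : T)) = μ := by simp
  rw [this]
  exact Measure.le_add_right le_rfl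

lemma tr_finite {t : ℕ} (ht : 0 < t) (μ : Measure T) [IsFiniteMeasure μ] :
    IsFiniteMeasure (tr t ht μ) := by
  unfold tr
  infer_instance

lemma tr_trans {t : ℕ} (ht : 0 < t) (μ : Measure T) {θ : T} (hθ : t • θ = 0) :
    (tr t ht μ).map (fun x => x + θ) = tr t ht μ := by
  unfold tr
  rw [map_finset_sum _ _ (measurable_add_const θ)]
  refine Finset.sum_nbij' (fun h => h + θ) (fun h => h - θ) ?_ ?_ ?_ ?_ ?_
  · intro h hh
    rw [mem_H ht] at hh ⊢
    rw [smul_add, hh, hθ, add_zero]
  · intro h hh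
    rw [mem_H ht] at hh ⊢
    rw [smul_sub, hh, hθ, sub_zero]
  · intro h _; simp
  · intro h _; simp
  · intro h _
    rw [Measure.map_map (measurable_add_const _) (measurable_add_const _)]
    congr 1
    funext x
    simp [add_assoc]

lemma tr_inv {t n : ℕ} (ht : 0 < t) (hc : Nat.Coprime n t) {μ : Measure T}
    (hμ : MeasurePreserving (fun x : T => n • x) μ μ) :
    MeasurePreserving (fun x : T => n • x) (tr t ht μ) (tr t ht μ) := by
  refine ⟨meas_nsmul n, ?_⟩
  unfold tr
  rw [map_finset_sum _ _ (meas_nsmul n)]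
  have e : ∀ h : T, (μ.map (fun x => x + h)).map (fun x => n • x) = μ.map (fun x => x + n • h) := by
    intro h
    conv_rhs => rw [← hμ.map_eq]
    rw [Measure.map_map (meas_nsmul n) (measurable_add_const _),
      Measure.map_map (measurable_add_const _) (meas_nsmul n)]
    congr 1
    funext x
    simp [smul_add]
  simp_rw [e]
  set H := (AddCircle.finite_torsion (1 : ℝ) ht).toFinset with hH
  have hmap : ∀ h ∈ H, n • h ∈ H := by
    intro h hh
    rw [hH, mem_H ht] at hh ⊢
    rw [smul_comm, hh, smul_zero]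
  have hinj : ∀ h₁ ∈ H, ∀ h₂ ∈ H, n • h₁ = n • h₂ → h₁ = h₂ := by
    intro h₁ hh₁ h₂ hh₂ heq
    rw [hH, mem_H ht] at hh₁ hh₂
    have h1 : n • (h₁ - h₂) = 0 := by rw [smul_sub, heq, sub_self]
    have h2 : t • (h₁ - h₂) = 0 := by rw [smul_sub, hh₁, hh₂, sub_self]
    have h3 : addOrderOf (h₁ - h₂) ∣ Nat.gcd n t :=
      Nat.dvd_gcd (addOrderOf_dvd_of_nsmul_eq_zero h1) (addOrderOf_dvd_of_nsmul_eq_zero h2)
    rw [hc] at h3
    have h4 : addOrderOf (h₁ - h₂) = 1 := Nat.dvd_one.1 h3
    rw [AddMonoid.addOrderOf_eq_one_iff] at h4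
    exact sub_eq_zero.1 h4
  refine Finset.sum_bij (fun h _ => n • h) hmap (fun h₁ hh₁ h₂ hh₂ => hinj h₁ hh₁ h₂ hh₂)
    (fun b hb => ?_) (fun _ _ => rfl)
  obtain ⟨a, ha, hab⟩ := Finset.surj_on_of_inj_on_of_card_le (fun h _ => n • h) hmap
    (fun h₁ h₂ hh₁ hh₂ => hinj h₁ hh₁ h₂ hh₂) le_rfl b hb
  exact ⟨a, ha, hab.symm⟩

lemma smul_comm' (p q : ℕ) (x : T) : p • (q • x) = q • (p • x) := smul_comm p q x

/-- for orders coprime to `p q` the absolutely continuous part overlaps with the measure -/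
lemma overlap_of_part {p q : ℕ} {μ : Measure T} [IsProbabilityMeasure μ]
    (hμp : MeasurePreserving (fun x : T => p • x) μ μ)
    (hμq : MeasurePreserving (fun x : T => q • x) μ μ)
    (hJ : Pool.Agent.Zk32.JE (fun x : T => p • x) (fun x : T => q • x) μ)
    {t : ℕ} (ht : 1 ≤ t) (hcp : Nat.Coprime p t) (hcq : Nat.Coprime q t)
    {κ : Measure T} {θ : T} (hθ : t • θ = 0) (h : Part μ κ θ) {A : Set T} (hA : MeasurableSet A) :
    κ univ ≤ μ A + μ {x | x + θ ∉ A} := by
  have ht0 : 0 < t := ht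
  obtain ⟨m, hm⟩ : ∃ m, m = tr t ht0 μ := ⟨_, rfl⟩
  have hmf : IsFiniteMeasure m := by rw [hm]; exact tr_finite _ μ
  have hle : μ ≤ m := by rw [hm]; exact le_tr _ μ
  have i1 : MeasurePreserving (fun x : T => p • x) m m := by rw [hm]; exact tr_inv ht0 hcp hμp
  have i2 : MeasurePreserving (fun x : T => q • x) m m := by rw [hm]; exact tr_inv ht0 hcq hμq
  have h1 := hμp.rnDeriv_comp_aeEq i1
  have h2 := hμq.rnDeriv_comp_aeEq i2
  obtain ⟨a, ha⟩ := hJ.const (fun x => smul_comm p q x) hμp hμq (Measure.measurable_rnDeriv μ m)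
    (ae_mono hle h1) (ae_mono hle h2)
  set G : Set T := {x | μ.rnDeriv m x = a} with hG
  have hGm : MeasurableSet G := measurableSet_eq_fun (Measure.measurable_rnDeriv μ m)
    measurable_const
  have hG0 : μ Gᶜ = 0 := ha
  have hld : μ.HaveLebesgueDecomposition m := Measure.haveLebesgueDecomposition_of_sigmaFinite μ m
  have hdens : ∀ E : Set T, MeasurableSet E → E ⊆ G → μ E = a * m E := by
    intro E hE hEG
    rw [← Measure.setLIntegral_rnDeriv hle.absolutelyContinuous E,
      setLIntegral_congr_fun hE (fun x hx => show μ.rnDeriv m x = a from hEG hx),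
      setLIntegral_const]
  have hmA : MeasurableSet {x : T | x + θ ∈ A ∩ G} := measurable_add_const θ (hA.inter hGm)
  have k1 : κ Gᶜ = 0 := le_antisymm ((h.le _).trans hG0.le) bot_le
  have k2 : κ {x | x + θ ∈ Gᶜ} = 0 := by
    have := h.ac hG0
    rwa [Measure.map_apply (measurable_add_const θ) hGm.compl] at this
  have hcov : (univ : Set T) ⊆ ((G ∩ {x | x + θ ∈ A ∩ G}) ∪ {x | x + θ ∉ A}) ∪
      (Gᶜ ∪ {x | x + θ ∈ Gᶜ}) := by
    intro x _
    by_cases h1 : x ∈ G
    · by_cases h2 : x + θ ∈ G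
      · by_cases h3 : x + θ ∈ A
        · exact Or.inl (Or.inl ⟨h1, h3, h2⟩)
        · exact Or.inl (Or.inr h3)
      · exact Or.inr (Or.inr h2)
    · exact Or.inr (Or.inl h1)
  have e3 : μ (G ∩ {x | x + θ ∈ A ∩ G}) ≤ μ A := by
    rw [hdens _ (hGm.inter hmA) inter_subset_left]
    calc a * m (G ∩ {x | x + θ ∈ A ∩ G}) ≤ a * m {x | x + θ ∈ A ∩ G} := by
          gcongr
          exact inter_subset_right
      _ = a * (m.map (fun x => x + θ)) (A ∩ G) := by
          rw [Measure.map_apply (measurable_add_const θ) (hA.inter hGm)]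
          rfl
      _ = a * m (A ∩ G) := by rw [hm, tr_trans _ μ hθ]
      _ = μ (A ∩ G) := (hdens _ (hA.inter hGm) inter_subset_right).symm
      _ ≤ μ A := measure_mono inter_subset_left
  calc κ univ ≤ κ ((G ∩ {x | x + θ ∈ A ∩ G}) ∪ {x | x + θ ∉ A}) + κ (Gᶜ ∪ {x | x + θ ∈ Gᶜ}) :=
        (measure_mono hcov).trans (measure_union_le _ _)
    _ = κ ((G ∩ {x | x + θ ∈ A ∩ G}) ∪ {x | x + θ ∉ A}) := by
        rw [measure_union_null k1 k2, add_zero]
    _ ≤ κ (G ∩ {x | x + θ ∈ A ∩ G}) + κ {x | x + θ ∉ A} := measure_union_le _ _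
    _ ≤ μ (G ∩ {x | x + θ ∈ A ∩ G}) + μ {x | x + θ ∉ A} := add_le_add (h.le _) (h.le _)
    _ ≤ μ A + μ {x | x + θ ∉ A} := add_le_add e3 le_rfl

/-- a jointly ergodic measure other than Lebesgue measure is singular to it -/
lemma sing_of_ne {p q : ℕ} (hp : 2 ≤ p) (hq : 2 ≤ q) {μ : Measure T} [IsProbabilityMeasure μ]
    (hμp : MeasurePreserving (fun x : T => p • x) μ μ)
    (hμq : MeasurePreserving (fun x : T => q • x) μ μ)
    (hJ : Pool.Agent.Zk32.JE (fun x : T => p • x) (fun x : T => q • x) μ)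
    (hne : μ ≠ volume) : μ ⟂ₘ (volume : Measure T) := by
  have herg : Ergodic (fun y : T => p • y) := AddCircle.ergodic_nsmul (by omega)
  have herq : Ergodic (fun y : T => q • y) := AddCircle.ergodic_nsmul (by omega)
  by_contra hns
  obtain ⟨A, hA, hA1, hA2, hA3, hA4, hA5⟩ := hJ.dichotomy (fun x => smul_comm p q x) hμp hμq
    herg.toMeasurePreserving herq.toMeasurePreserving hns
  apply hne
  have hac : μ ≪ (volume : Measure T) := by
    intro B hB
    have h1 : ((volume : Measure T).restrict A) B = 0 :=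
      le_antisymm ((Measure.restrict_apply_le A B).trans hB.le) bot_le
    rw [hA5, Measure.smul_apply, smul_eq_mul] at h1
    exact (mul_eq_zero.1 h1).resolve_left hA4
  exact herg.eq_of_absolutelyContinuous hμp hac

/-- **Finitely many translates with an absolutely continuous part of mass `c`.** -/
theorem finite_parts {p q : ℕ} (hp : 2 ≤ p) (hq : 2 ≤ q) (hpq : Nat.Coprime p q)
    {μ : Measure T} [IsProbabilityMeasure μ]
    (hμp : MeasurePreserving (fun x : T => p • x) μ μ)
    (hμq : MeasurePreserving (fun x : T => q • x) μ μ)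
    (hJ : Pool.Agent.Zk32.JE (fun x : T => p • x) (fun x : T => q • x) μ)
    (hne : μ ≠ volume) {c : ℝ≥0} (hc : 0 < c) :
    {θ : T | ∃ κ : Measure T, Part μ κ θ ∧ (c : ℝ≥0∞) ≤ κ univ}.Finite := by
  have hsing := sing_of_ne hp hq hμp hμq hJ hne
  have hnle : ¬ ((c : ℝ≥0∞) • (volume : Measure T) ≤ μ) := by
    intro hle2
    obtain ⟨S, hS, hS1, hS2⟩ := hsing
    have h1 := hle2 S
    rw [hS1, Measure.smul_apply, smul_eq_mul] at h1
    have h2 := le_antisymm h1 bot_le
    rcases mul_eq_zero.1 h2 with h4 | h4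
    · rw [ENNReal.coe_eq_zero] at h4
      exact absurd h4 hc.ne'
    · have h5 : (volume : Measure T) univ = 0 := by
        rw [← union_compl_self S]
        exact measure_union_null h4 hS2
      simp at h5
  have hfin := Pool.Agent.R477.XQ.main_fin hp hq (irr_of_coprime hp hq hpq) (a := 1) (b := 1)
    one_ne_zero one_ne_zero hμp hμq hnle
  refine hfin.subset ?_
  rintro θ ⟨κ, hκ, hcκ⟩
  have hκ0 : κ ≠ 0 := by
    rintro rfl
    have : (c : ℝ≥0∞) = 0 := le_antisymm hcκ bot_le
    rw [ENNReal.coe_eq_zero] at this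
    exact hc.ne' this
  obtain ⟨t, ht, hcop, htθ⟩ := tors_part hp hq hpq hμp hμq hsing hκ hκ0
  refine ⟨μ, inferInstance, hμp, hμq, fun A hA => ?_⟩
  have h1 := overlap_of_part hμp hμq hJ ht (Nat.Coprime.coprime_mul_right hcop)
    (Nat.Coprime.coprime_mul_left hcop) htθ hκ hA
  refine hcκ.trans (h1.trans (le_of_eq ?_))
  congr 1
  · congr 1
    ext x
    simp
  · congr 1
    ext x
    simp

end Pool.Agent.Zk24.SC
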