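import Mathlib
import Pool.Agent.Zk24.SC.AC

/-!
Mixtures of small translations, and the criterion for coprime `p`, `q`.
-/

set_option autoImplicit false

open MeasureTheory Filter Topology Set
open scoped ENNReal NNReal

namespace Pool.Agent.Zk24.SC

/-- mixtures, of total weight `w`, of the laws of `(x, x + θ)` for `0 < ‖θ‖ ≤ δ` and `x` with
law at most `C η` and such that the law of `x + θ` is absolutely continuous with respect to `η` -/
inductive Mixed (η : Measure T) (C : ℝ≥0∞) (δ : ℝ) : ℝ≥0∞ → Measure (T × T) → Prop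
  | graph (σ : Measure T) (θ : T) : IsFiniteMeasure σ → σ ≤ C • η →
      σ.map (fun x => x + θ) ≪ η → θ ≠ 0 → ‖θ‖ ≤ δ →
      Mixed η C δ 1 (σ.map (fun x => (x, x + θ)))
  | zero : Mixed η C δ 0 0
  | add (w v : ℝ≥0∞) (π ρ : Measure (T × T)) : Mixed η C δ w π → Mixed η C δ v ρ →
      Mixed η C δ (w + v) (π + ρ)
  | smul (s : ℝ≥0) (w : ℝ≥0∞) (π : Measure (T × T)) : Mixed η C δ w π →
      Mixed η C δ (s * w) ((s : ℝ≥0∞) • π)
  | sum (w : ℕ → ℝ≥0∞) (π : ℕ → Measure (T × T)) : (∀ i, Mixed η C δ (w i) (π i)) →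
      Mixed η C δ (∑' i, w i) (Measure.sum π)

lemma Mixed.sfinite {η : Measure T} {C : ℝ≥0∞} {δ : ℝ} {w : ℝ≥0∞} {π : Measure (T × T)}
    (h : Mixed η C δ w π) : SFinite π := by
  induction h with
  | graph σ θ h1 _ _ _ _ => infer_instance
  | zero => infer_instance
  | add w v π ρ _ _ i1 i2 => infer_instance
  | smul s w π _ i => infer_instance
  | sum w π _ i => infer_instance

/-- if all the graphs give mass at most `s` to `B`, then the mixture gives mass at most `s w` -/
lemma Mixed.bound {η : Measure T} {C : ℝ≥0∞} {δ : ℝ} {w : ℝ≥0∞} {π : Measure (T × T)}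
    (h : Mixed η C δ w π) {B : Set (T × T)} (hB : MeasurableSet B) {s : ℝ≥0∞}
    (hs : ∀ (σ : Measure T) (θ : T), IsFiniteMeasure σ → σ ≤ C • η →
      σ.map (fun x => x + θ) ≪ η → θ ≠ 0 → ‖θ‖ ≤ δ → σ {x | (x, x + θ) ∈ B} ≤ s) :
    π B ≤ s * w := by
  induction h with
  | graph σ θ h1 h2 h3 h4 h5 =>
    have hm : Measurable (fun x : T => (x, x + θ)) := by fun_prop
    rw [Measure.map_apply hm hB, mul_one]
    exact hs σ θ h1 h2 h3 h4 h5
  | zero => simp
  | add w v π ρ _ _ i1 i2 =>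
    rw [Measure.add_apply, mul_add]
    exact add_le_add i1 i2
  | smul r w π _ i =>
    rw [Measure.smul_apply, smul_eq_mul]
    calc (r : ℝ≥0∞) * π B ≤ r * (s * w) := by gcongr
      _ = s * (r * w) := by ring
  | sum w π _ i =>
    rw [Measure.sum_apply _ hB, ← ENNReal.tsum_mul_left]
    exact ENNReal.tsum_le_tsum i

lemma ac_conv {μ ν ω : Measure T} [SFinite μ] [SFinite ν] [SFinite ω] (h : μ ≪ ν) :
    μ.conv ω ≪ ν.conv ω := by
  unfold Measure.conv
  exact (h.prod Measure.AbsolutelyContinuous.rfl).map measurable_add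

lemma graph_conv (σ ω : Measure T) [SFinite σ] [SFinite ω] (θ : T) :
    (σ.map (fun x => (x, x + θ))).conv (ω.map diag) = (σ.conv ω).map (fun x => (x, x + θ)) := by
  have hm : Measurable (fun x : T => (x, x + θ)) := by fun_prop
  unfold Measure.conv
  rw [Measure.map_prod_map _ _ hm meas_diag, Measure.map_map measurable_add (hm.prodMap meas_diag),
    Measure.map_map hm measurable_add]
  congr 1
  funext z
  change (z.1 + z.2, (z.1 + θ) + z.2) = (z.1 + z.2, (z.1 + z.2) + θ)
  rw [add_right_comm]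

lemma trans_conv (σ ω : Measure T) [SFinite σ] [SFinite ω] (θ : T) :
    (σ.conv ω).map (fun x => x + θ) = (σ.map (fun x => x + θ)).conv ω := by
  have hm : Measurable (fun x : T => x + θ) := measurable_add_const θ
  have e : ω = ω.map id := Measure.map_id.symm
  unfold Measure.conv
  conv_rhs => rw [e]
  rw [Measure.map_prod_map _ _ hm measurable_id,
    Measure.map_map measurable_add (hm.prodMap measurable_id), Measure.map_map hm measurable_add]
  congr 1
  funext z
  change (z.1 + z.2) + θ = (z.1 + θ) + z.2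
  rw [add_right_comm]

lemma sum_conv {G : Type*} [AddMonoid G] [MeasurableSpace G] [MeasurableAdd₂ G]
    (π : ℕ → Measure G) (ω : Measure G) [SFinite ω] :
    (Measure.sum π).conv ω = Measure.sum (fun i => (π i).conv ω) := by
  unfold Measure.conv
  rw [Measure.prod_sum_left, Measure.map_sum measurable_add.aemeasurable]

lemma Mixed.conv {η : Measure T} [IsFiniteMeasure η] {C : ℝ≥0∞} {δ : ℝ}
    {w : ℝ≥0∞} {π : Measure (T × T)} (h : Mixed η C δ w π) (ω : Measure T) [IsFiniteMeasure ω] :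
    Mixed (η.conv ω) C δ w (π.conv (ω.map diag)) := by
  induction h with
  | graph σ θ h1 h2 h3 h4 h5 =>
    rw [graph_conv]
    refine Mixed.graph _ _ inferInstance ?_ ?_ h4 h5
    · rw [← Measure.conv_smul_left]
      exact conv_mono h2 le_rfl
    · rw [trans_conv]
      have : IsFiniteMeasure (σ.map (fun x => x + θ)) := inferInstance
      exact ac_conv h3
  | zero =>
    rw [Measure.zero_conv]
    exact Mixed.zero
  | add w v π ρ h1 h2 i1 i2 =>
    have := h1.sfinite
    have := h2.sfinite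
    rw [Measure.add_conv]
    exact Mixed.add _ _ _ _ i1 i2
  | smul s w π _ i =>
    rw [Measure.conv_smul_left]
    exact Mixed.smul _ _ _ i
  | sum w π _ i =>
    rw [sum_conv]
    exact Mixed.sum _ _ i

lemma Mixed.mono {η η' : Measure T} {C : ℝ≥0∞} {δ : ℝ} {w : ℝ≥0∞} {π : Measure (T × T)}
    (h : Mixed η C δ w π) (h1 : η ≤ η') : Mixed η' C δ w π := by
  induction h with
  | graph σ θ h2 h3 h4 h5 h6 =>
    refine Mixed.graph _ _ h2 (h3.trans ?_) (h4.trans h1.absolutelyContinuous) h5 h6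
    intro A
    rw [Measure.smul_apply, Measure.smul_apply]
    exact mul_le_mul_right (h1 A) C
  | zero => exact Mixed.zero
  | add w v π ρ _ _ i1 i2 => exact Mixed.add _ _ _ _ i1 i2
  | smul s w π _ i => exact Mixed.smul _ _ _ i
  | sum w π _ i => exact Mixed.sum _ _ i

/-- multiples -/
lemma Mixed.zsmul {η : Measure T} {C : ℝ≥0∞} {δ : ℝ} {w : ℝ≥0∞} {π : Measure (T × T)}
    (h : Mixed η C δ w π) {m : ℤ} (hm : m ≠ 0) (hδ : δ < 1 / |(m : ℝ)|) :
    Mixed (η.map (fun x => m • x)) C (|(m : ℝ)| * δ) w (π.map (fun z => (m • z.1, m • z.2))) := by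
  have mzm : Measurable (fun x : T => m • x) := (continuous_zsmul m).measurable
  have mz2 : Measurable (fun z : T × T => (m • z.1, m • z.2)) :=
    (mzm.comp measurable_fst).prodMk (mzm.comp measurable_snd)
  induction h with
  | graph σ θ h1 h2 h3 h4 h5 =>
    have hm2 : Measurable (fun x : T => (x, x + θ)) := by fun_prop
    have e : (σ.map (fun x => (x, x + θ))).map (fun z => (m • z.1, m • z.2)) =
        (σ.map (fun x => m • x)).map (fun x => (x, x + m • θ)) := by
      rw [Measure.map_map mz2 hm2, Measure.map_map (by fun_prop) mzm]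
      congr 1
      funext x
      simp [smul_add]
    rw [e]
    refine Mixed.graph _ _ inferInstance ?_ ?_ ?_ ?_
    · rw [← Measure.map_smul]
      exact Measure.map_mono h2 mzm
    · have e2 : (σ.map (fun x => m • x)).map (fun x => x + m • θ) =
          (σ.map (fun x => x + θ)).map (fun x => m • x) := by
        rw [Measure.map_map (measurable_add_const _) mzm,
          Measure.map_map mzm (measurable_add_const _)]
        congr 1
        funext x
        simp [smul_add]
      rw [e2]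
      exact h3.map mzm
    · exact zsmul_ne_zero_of_small hm h4 (h5.trans_lt hδ)
    · refine (norm_zsmul_le _ _).trans ?_
      rw [Int.norm_eq_abs]
      exact mul_le_mul_of_nonneg_left h5 (abs_nonneg _)
  | zero =>
    rw [Measure.map_zero]
    exact Mixed.zero
  | add w v π ρ _ _ i1 i2 =>
    rw [Measure.map_add _ _ mz2]
    exact Mixed.add _ _ _ _ i1 i2
  | smul s w π _ i =>
    rw [Measure.map_smul]
    exact Mixed.smul _ _ _ i
  | sum w π _ i =>
    rw [Measure.map_sum mz2.aemeasurable]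
    exact Mixed.sum _ _ i

variable {p q : ℕ}

/-- **Criterion for coprime multipliers.** -/
theorem crit3 (hp : 2 ≤ p) (hq : 2 ≤ q) (hpq : Nat.Coprime p q)
    {μ : Measure T} [IsProbabilityMeasure μ]
    (hμp : MeasurePreserving (fun x : T => p • x) μ μ)
    (hμq : MeasurePreserving (fun x : T => q • x) μ μ)
    (hJ : Pool.Agent.Zk32.JE (fun x : T => p • x) (fun x : T => q • x) μ)
    (hne : μ ≠ volume)
    {η : Measure T} [IsFiniteMeasure η] {c : ℝ} (hc : 0 < c) {π : ℕ → Measure (T × T)}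
    (h : Cpl η c π) {C : ℝ≥0} {δ : ℕ → ℝ} (hδ : Tendsto δ atTop (𝓝 0)) {w : ℕ → ℝ≥0∞}
    (hw : ∀ k, w k ≤ 1) (hπ : ∀ᶠ k in atTop, Mixed η C (δ k) (w k) (π k)) :
    μ ⟂ₘ η := by
  by_contra hns
  obtain ⟨e, he, E, hE, hE0, hle⟩ := Measure.exists_positive_of_not_mutuallySingular μ η hns
  obtain ⟨c', hc', hev⟩ := h.lower hc hE hE0
  -- replace `C` by `C + 1`
  set C1 : ℝ≥0 := C + 1 with hC1
  have hC1pos : 0 < C1 := by positivity
  set c2 : ℝ≥0 := e * C1⁻¹ * (c' / 2) with hc2
  have hc2pos : 0 < c2 := by positivity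
  have hfin := finite_parts hp hq hpq hμp hμq hJ hne hc2pos
  set Θ := {θ : T | ∃ κ : Measure T, Part μ κ θ ∧ (c2 : ℝ≥0∞) ≤ κ univ} with hΘ
  have hopen : ((Θ \ {0})ᶜ : Set T) ∈ 𝓝 (0 : T) := by
    have h1 : IsClosed (Θ \ {0} : Set T) := (hfin.subset sdiff_subset).isClosed
    exact h1.isOpen_compl.mem_nhds (by simp)
  obtain ⟨d, hd, hball⟩ := Metric.mem_nhds_iff.1 hopen
  have ev2 : ∀ᶠ k in atTop, δ k < d := hδ.eventually (gt_mem_nhds hd)
  obtain ⟨k, hk1, hk2, hk3⟩ := (hev.and (ev2.and hπ)).exists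
  have hBm : MeasurableSet (E ×ˢ E : Set (T × T)) := hE.prod hE
  -- some graph gives a large mass to `E × E`
  have hex : ∃ (σ : Measure T) (θ : T), IsFiniteMeasure σ ∧ σ ≤ (C : ℝ≥0∞) • η ∧
      σ.map (fun x => x + θ) ≪ η ∧ θ ≠ 0 ∧ ‖θ‖ ≤ δ k ∧
      ((c' / 2 : ℝ≥0) : ℝ≥0∞) < σ {x | (x, x + θ) ∈ E ×ˢ E} := by
    by_contra hcon
    push Not at hcon
    have h1 := hk3.bound hBm (s := ((c' / 2 : ℝ≥0) : ℝ≥0∞)) (fun σ θ a1 a2 a3 a4 a5 =>
      hcon σ θ a1 a2 a3 a4 a5)
    have h2 : (c' : ℝ≥0∞) ≤ ((c' / 2 : ℝ≥0) : ℝ≥0∞) := by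
      calc (c' : ℝ≥0∞) ≤ π k (E ×ˢ E) := hk1
        _ ≤ ((c' / 2 : ℝ≥0) : ℝ≥0∞) * w k := h1
        _ ≤ ((c' / 2 : ℝ≥0) : ℝ≥0∞) * 1 := by gcongr; exact hw k
        _ = _ := mul_one _
    rw [ENNReal.coe_le_coe] at h2
    have h3 : c' / 2 < c' := NNReal.half_lt_self hc'.ne'
    exact absurd h2 (not_le.2 h3)
  obtain ⟨σ, θ, hσf, hσ1, hσ2, hθ0, hθδ, hmass⟩ := hex
  set F : Set T := {x | (x, x + θ) ∈ E ×ˢ E} with hF
  have hFm : MeasurableSet F := by
    have hm : Measurable (fun x : T => (x, x + θ)) := by fun_prop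
    exact hm hBm
  set s : ℝ≥0 := e * C1⁻¹ with hs
  have hsC : (s : ℝ≥0∞) * C ≤ e := by
    rw [hs]
    have : e * C1⁻¹ * C ≤ e := by
      rw [mul_assoc]
      have : C1⁻¹ * C ≤ 1 := by
        rw [inv_mul_le_iff₀ hC1pos, mul_one, hC1]
        exact le_self_add
      calc e * (C1⁻¹ * C) ≤ e * 1 := by gcongr
        _ = e := mul_one _
    exact_mod_cast this
  have hpart : Part μ ((s : ℝ≥0∞) • σ.restrict F) θ := by
    refine ⟨?_, ?_⟩
    · refine Measure.le_intro fun A hA _ => ?_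
      rw [Measure.smul_apply, smul_eq_mul, Measure.restrict_apply hA]
      calc (s : ℝ≥0∞) * σ (A ∩ F) ≤ s * ((C : ℝ≥0∞) • η) (A ∩ F) :=
            mul_le_mul_right (hσ1 _) _
        _ = (s * C) * η (A ∩ F) := by rw [Measure.smul_apply, smul_eq_mul, mul_assoc]
        _ ≤ e * η (A ∩ F) := by gcongr
        _ ≤ e * η (A ∩ E) :=
            mul_le_mul_right (measure_mono (show A ∩ F ⊆ A ∩ E from
              fun x hx => ⟨hx.1, hx.2.1⟩)) _
        _ ≤ μ (A ∩ E) := hle A hA
        _ ≤ μ A := measure_mono inter_subset_left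
    · refine Measure.AbsolutelyContinuous.mk fun A hA hA0 => ?_
      have hmA : MeasurableSet {x : T | x + θ ∈ A} := measurable_add_const θ hA
      rw [Measure.map_smul, Measure.smul_apply, smul_eq_mul,
        Measure.map_apply (measurable_add_const θ) hA]
      have h1 : η (A ∩ E) = 0 := by
        have h2 := hle A hA
        have h3 : μ (A ∩ E) = 0 := measure_inter_null_of_null_left _ hA0
        rw [h3] at h2
        have h4 := le_antisymm h2 bot_le
        rcases mul_eq_zero.1 h4 with h5 | h5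
        · rw [ENNReal.coe_eq_zero] at h5
          exact absurd h5 he.ne'
        · exact h5
      have h2 := hσ2 h1
      rw [Measure.map_apply (measurable_add_const θ) (hA.inter hE)] at h2
      have h3 : (σ.restrict F) ((fun x => x + θ) ⁻¹' A) = 0 := by
        rw [Measure.restrict_apply (measurable_add_const θ hA)]
        refine measure_mono_null ?_ h2
        rintro x ⟨hx1, hx2⟩
        exact ⟨hx1, hx2.2⟩
      rw [h3, mul_zero]
  have hmem : θ ∈ Θ := by
    refine ⟨_, hpart, ?_⟩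
    rw [Measure.smul_apply, smul_eq_mul, Measure.restrict_apply_univ, hc2]
    calc ((e * C1⁻¹ * (c' / 2) : ℝ≥0) : ℝ≥0∞) = (s : ℝ≥0∞) * ((c' / 2 : ℝ≥0) : ℝ≥0∞) := by
          rw [hs]; push_cast; ring
      _ ≤ s * σ F := by
          gcongr
  have h1 : θ ∈ Metric.ball (0 : T) d := by
    rw [mem_ball_zero_iff]
    exact hθδ.trans_lt hk2
  exact hball h1 ⟨hmem, hθ0⟩

end Pool.Agent.Zk24.SC
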