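import Mathlib
import Pool.Agent.Zk24.SC.Mix

/-!
Couplings of a convolution in which the first nontrivial term is switched off.
-/

set_option autoImplicit false

open MeasureTheory Filter Topology Set
open scoped ENNReal NNReal

namespace Pool.Agent.Zk24.SC

/-- the restriction of a measure to a countable set as a sum of point masses -/
lemma disc_decomp (ν : Measure T) [IsFiniteMeasure ν] {B : Set T} (hB : B.Countable) :
    ∃ (b : ℕ → T) (s : ℕ → ℝ≥0), (∀ i, s i ≠ 0 → b i ∈ B ∧ ν {b i} ≠ 0) ∧
      ν.restrict B = Measure.sum (fun i => (s i : ℝ≥0∞) • Measure.dirac (b i)) ∧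
      ∑' i, (s i : ℝ≥0∞) = ν B := by
  rcases B.eq_empty_or_nonempty with rfl | hne
  · refine ⟨fun _ => 0, fun _ => 0, fun i h => absurd rfl h, ?_, by simp⟩
    rw [Measure.restrict_empty]
    ext s hs
    rw [Measure.sum_apply _ hs]
    simp
  · obtain ⟨f, rfl⟩ := hB.exists_eq_range hne
    set D : ℕ → Set T := disjointed (fun i => {f i}) with hD
    have hDsub : ∀ i, D i ⊆ {f i} := fun i => disjointed_subset _ i
    have hDm : ∀ i, MeasurableSet (D i) := fun i => by
      rcases subset_singleton_iff_eq.1 (hDsub i) with h | h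
      · rw [h]; exact MeasurableSet.empty
      · rw [h]; exact measurableSet_singleton _
    have hDd : Pairwise (Function.onFun Disjoint D) := disjoint_disjointed _
    have hDU : ⋃ i, D i = range f := by
      rw [hD, iUnion_disjointed, iUnion_singleton_eq_range]
    refine ⟨f, fun i => (ν (D i)).toNNReal, ?_, ?_, ?_⟩
    · intro i hi
      refine ⟨⟨i, rfl⟩, fun h0 => hi ?_⟩
      have : ν (D i) = 0 := measure_mono_null (hDsub i) h0
      change (ν (D i)).toNNReal = 0
      rw [this]; rfl
    · rw [← hDU, Measure.restrict_iUnion hDd hDm]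
      congr 1
      funext i
      rw [ENNReal.coe_toNNReal (measure_ne_top _ _)]
      rcases subset_singleton_iff_eq.1 (hDsub i) with h | h
      · rw [h]; simp
      · rw [h, Measure.restrict_singleton]
    · simp_rw [ENNReal.coe_toNNReal (measure_ne_top _ _)]
      rw [← measure_iUnion hDd hDm, hDU]

lemma dirac_ac {ν : Measure T} {b : T} (hb : ν {b} ≠ 0) : Measure.dirac b ≪ ν := by
  intro A hA
  rw [Measure.dirac_apply]
  by_cases hbA : b ∈ A
  · exact absurd (measure_mono_null (singleton_subset_iff.2 hbA) hA) hb
  · exact indicator_of_notMem hbA _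

lemma conv_graph (N : Measure T) [SFinite N] (a b : T) :
    (N.map diag).conv (Measure.dirac (a, b)) =
      (N.conv (Measure.dirac a)).map (fun x => (x, x + (b - a))) := by
  have hm : Measurable (fun x : T => (x, x + (b - a))) := by fun_prop
  have hm2 : Measurable (fun z : T × T => z + (a, b)) := by fun_prop
  have hm3 : Measurable (fun x : T => x + a) := measurable_add_const a
  rw [Measure.conv_dirac, Measure.conv_dirac, Measure.map_map hm2 meas_diag,
    Measure.map_map hm hm3]
  congr 1
  funext x
  change (x + a, x + b) = (x + a, (x + a) + (b - a))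
  congr 1
  abel

/-- the new part of the coupling -/
lemma new_part {ζ ν N : Measure T} [IsFiniteMeasure ζ] [IsFiniteMeasure ν] [IsFiniteMeasure N]
    (hN : N ≤ ζ) {C : ℝ≥0∞} {δ : ℝ} {a : T} {B : Set T} (hB : B.Countable)
    (hBa : ∀ b ∈ B, b ≠ a ∧ ‖b - a‖ ≤ δ) (ha : B.Nonempty → Measure.dirac a ≤ C • ν) :
    ∃ K : Measure (T × T), IsFiniteMeasure K ∧ K.map Prod.snd = N.conv (ν.restrict B) ∧
      K.map Prod.fst ≤ (C * ν B) • ζ.conv ν ∧ Mixed (ζ.conv ν) C δ (ν B) K := by
  obtain ⟨b, s, hbs, hdec, hsum⟩ := disc_decomp ν hB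
  have hcv : N.conv ν ≤ ζ.conv ν := conv_mono hN le_rfl
  refine ⟨(N.map diag).conv ((Measure.dirac a).prod (ν.restrict B)), inferInstance, ?_, ?_, ?_⟩
  · rw [map_snd_conv, map_snd_diag, Measure.map_snd_prod, measure_univ, one_smul]
  · rw [map_fst_conv, map_fst_diag, Measure.map_fst_prod, Measure.restrict_apply_univ,
      Measure.conv_comm, Measure.conv_smul_left]
    rcases B.eq_empty_or_nonempty with rfl | hne
    · simp
    · intro A
      rw [Measure.smul_apply, Measure.smul_apply, smul_eq_mul, smul_eq_mul]
      have h1 : ((Measure.dirac a).conv N) ≤ C • ζ.conv ν := by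
        calc (Measure.dirac a).conv N ≤ (C • ν).conv N := conv_mono (ha hne) le_rfl
          _ = C • (ν.conv N) := Measure.conv_smul_left _ _ _
          _ = C • (N.conv ν) := by rw [Measure.conv_comm]
          _ ≤ C • ζ.conv ν := by
            intro A
            rw [Measure.smul_apply, Measure.smul_apply]
            exact mul_le_mul_right (hcv A) C
      calc ν B * ((Measure.dirac a).conv N) A ≤ ν B * (C • ζ.conv ν) A :=
            mul_le_mul_right (h1 A) _
        _ = C * ν B * (ζ.conv ν) A := by rw [Measure.smul_apply, smul_eq_mul]; ring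
  · have e1 : (Measure.dirac a).prod (ν.restrict B) =
        Measure.sum (fun i => (s i : ℝ≥0∞) • Measure.dirac (a, b i)) := by
      rw [hdec, Measure.prod_sum_right]
      congr 1
      funext i
      rw [Measure.prod_smul_right, Measure.dirac_prod_dirac]
    have e2 : (N.map diag).conv ((Measure.dirac a).prod (ν.restrict B)) =
        Measure.sum (fun i => (s i : ℝ≥0∞) •
          (N.conv (Measure.dirac a)).map (fun x => (x, x + (b i - a)))) := by
      have hsf : SFinite (Measure.sum (fun i => (s i : ℝ≥0∞) • Measure.dirac (a, b i))) :=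
        inferInstance
      rw [e1, Measure.conv_comm, sum_conv]
      congr 1
      funext i
      rw [Measure.conv_smul_left, Measure.conv_comm, conv_graph]
    rw [e2, ← hsum]
    refine Mixed.sum _ _ fun i => ?_
    by_cases h0 : s i = 0
    · rw [h0]
      simp only [ENNReal.coe_zero, zero_smul]
      exact Mixed.zero
    · obtain ⟨hbB, hb0⟩ := hbs i h0
      have hg : Mixed (ζ.conv ν) C δ 1
          ((N.conv (Measure.dirac a)).map (fun x => (x, x + (b i - a)))) := by
        refine Mixed.graph _ _ inferInstance ?_ ?_ (sub_ne_zero.2 (hBa _ hbB).1) (hBa _ hbB).2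
        · calc N.conv (Measure.dirac a) = (Measure.dirac a).conv N := Measure.conv_comm _ _
            _ ≤ (C • ν).conv N := conv_mono (ha ⟨_, hbB⟩) le_rfl
            _ = C • (ν.conv N) := Measure.conv_smul_left _ _ _
            _ = C • (N.conv ν) := by rw [Measure.conv_comm]
            _ ≤ C • ζ.conv ν := by
              intro A
              rw [Measure.smul_apply, Measure.smul_apply]
              exact mul_le_mul_right (hcv A) C
        · have e3 : (N.conv (Measure.dirac a)).map (fun x => x + (b i - a)) =
              (Measure.dirac (b i)).conv N := by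
            rw [Measure.conv_comm, Measure.dirac_conv, Measure.dirac_conv,
              Measure.map_map (measurable_add_const _) (by fun_prop)]
            congr 1
            funext x
            change (a + x) + (b i - a) = b i + x
            abel
          rw [e3]
          refine Measure.AbsolutelyContinuous.trans (ac_conv (dirac_ac hb0)) ?_
          rw [Measure.conv_comm]
          exact hcv.absolutelyContinuous
      have := Mixed.smul (s i) 1 _ hg
      rwa [mul_one] at this

/-- **The coupling with the first nontrivial term switched off.** -/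
theorem jumps {C : ℝ≥0∞} {δ : ℝ} {ν : ℕ → Measure T} [∀ n, IsProbabilityMeasure (ν n)]
    {a : ℕ → T} {B : ℕ → Set T} (hB : ∀ n, (B n).Countable)
    (hBa : ∀ n, ∀ b ∈ B n, b ≠ a n ∧ ‖b - a n‖ ≤ δ)
    (ha : ∀ n, (B n).Nonempty → Measure.dirac (a n) ≤ C • ν n)
    {ζ : ℕ → Measure T} (h0 : ζ 0 = Measure.dirac 0)
    (hs : ∀ m, ζ (m + 1) = (ζ m).conv (ν m)) (m : ℕ) :
    IsProbabilityMeasure (ζ m) ∧
    ∃ (J : Measure (T × T)) (N : Measure T), IsFiniteMeasure J ∧ IsFiniteMeasure N ∧
      J.map Prod.snd + N = ζ m ∧
      J.map Prod.fst ≤ (C * ∑ j ∈ Finset.range m, ν j (B j)) • ζ m ∧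
      N univ = ∏ j ∈ Finset.range m, ν j (B j)ᶜ ∧
      Mixed (ζ m) C δ (∑ j ∈ Finset.range m, ν j (B j)) J := by
  induction m with
  | zero =>
    refine ⟨by rw [h0]; infer_instance, 0, Measure.dirac 0, inferInstance, inferInstance, ?_, ?_,
      ?_, ?_⟩
    · rw [h0]; simp
    · rw [Measure.map_zero]; exact Measure.zero_le _
    · simp
    · simpa using Mixed.zero
  | succ m ih =>
    obtain ⟨hp, J, N, hJ, hN, h1, h2, h3, h4⟩ := ih
    have hNle : N ≤ ζ m := by
      rw [← h1]
      exact Measure.le_add_left le_rfl
    obtain ⟨K, hK, k1, k2, k3⟩ := new_part (ν := ν m) hNle (hB m) (hBa m) (ha m)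
    have hBm : MeasurableSet (B m) := (hB m).measurableSet
    have i4 : IsFiniteMeasure (J.map Prod.fst) := inferInstance
    have i5 : IsFiniteMeasure (J.map Prod.snd) := inferInstance
    have i6 : IsFiniteMeasure ((ν m).map diag) := inferInstance
    refine ⟨by rw [hs]; infer_instance, J.conv ((ν m).map diag) + K,
      N.conv ((ν m).restrict (B m)ᶜ), inferInstance, inferInstance, ?_, ?_, ?_, ?_⟩
    · rw [Measure.map_add _ _ measurable_snd, map_snd_conv, map_snd_diag, k1, add_assoc,
        ← Measure.conv_add, Measure.restrict_add_restrict_compl hBm, ← Measure.add_conv, h1, hs]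
    · rw [Measure.map_add _ _ measurable_fst, map_fst_conv, map_fst_diag, hs,
        Finset.sum_range_succ, mul_add, add_smul]
      refine add_le_add ?_ k2
      calc (J.map Prod.fst).conv (ν m) ≤
            ((C * ∑ j ∈ Finset.range m, ν j (B j)) • ζ m).conv (ν m) := conv_mono h2 le_rfl
        _ = (C * ∑ j ∈ Finset.range m, ν j (B j)) • (ζ m).conv (ν m) :=
            Measure.conv_smul_left _ _ _
    · rw [conv_univ, h3, Measure.restrict_apply_univ, Finset.prod_range_succ]
    · rw [hs, Finset.sum_range_succ]
      exact Mixed.add _ _ _ _ (h4.conv (ν m)) k3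

end Pool.Agent.Zk24.SC
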