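import Mathlib
import Pool.Agent.Zk24.SC.JumpC

/-!
Couplings for random series whose terms have a large atom.
-/

set_option autoImplicit false

open MeasureTheory Filter Topology Set ProbabilityTheory
open scoped ENNReal NNReal

namespace Pool.Agent.Zk24.SC

variable {Ω : Type*} [MeasurableSpace Ω] {P : Measure Ω} [IsProbabilityMeasure P] {X : ℕ → Ω → T}

/-- weak convergence of perturbed laws -/
lemma cpl_conv {S : Ω → T} (hS : AEMeasurable S P) {R : ℕ → Ω → T}
    (mR : ∀ k, AEMeasurable (R k) P) (hR : ∀ᵐ ω ∂P, Tendsto (fun k => R k ω) atTop (𝓝 (S ω)))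
    {c : ℝ≥0} {γ : ℕ → Measure (T × T)} (g3 : ∀ k, γ k univ = c)
    (hγ : ∀ d : ℝ, 0 < d → Tendsto (fun k => (γ k).real {z | d < ‖z.1‖ ∨ d < ‖z.2‖}) atTop (𝓝 0))
    (f : C(T × T, ℝ)) :
    Tendsto (fun k => ∫ z, f z ∂(((P.map (R k)).map diag).conv (γ k))) atTop
      (𝓝 (c * ∫ x, f (x, x) ∂(P.map S))) := by
  have gf : ∀ k, IsFiniteMeasure (γ k) := fun k => ⟨by rw [g3]; exact ENNReal.coe_lt_top⟩
  have hρp : ∀ k, IsProbabilityMeasure (P.map (R k)) := fun k =>
    Measure.isProbabilityMeasure_map (mR k)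
  have hfd : ∀ k, IsFiniteMeasure ((P.map (R k)).map diag) := fun k => inferInstance
  obtain ⟨M, hM⟩ := (isCompact_range f.continuous).isBounded.exists_norm_le
  have hM' : ∀ z, ‖f z‖ ≤ M := fun z => hM _ ⟨z, rfl⟩
  have hM0 : 0 ≤ M := (norm_nonneg (f (0, 0))).trans (hM' _)
  have huc := CompactSpace.uniformContinuous_of_continuous f.continuous
  have hdc : Continuous fun x : T => f (x, x) := by fun_prop
  have l1 : Tendsto (fun k => ∫ ω, f (R k ω, R k ω) ∂P) atTop (𝓝 (∫ ω, f (S ω, S ω) ∂P)) := by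
    refine tendsto_integral_of_dominated_convergence (fun _ => M) ?_ (integrable_const _) ?_ ?_
    · intro k
      exact (hdc.measurable.comp_aemeasurable (mR k)).aestronglyMeasurable
    · exact fun k => Eventually.of_forall fun ω => hM' _
    · filter_upwards [hR] with ω hω
      exact (hdc.tendsto _).comp hω
  have e0 : ∫ x, f (x, x) ∂(P.map S) = ∫ ω, f (S ω, S ω) ∂P :=
    integral_map hS hdc.measurable.aestronglyMeasurable
  rw [e0]
  have l2 : Tendsto (fun k => (c : ℝ) * ∫ ω, f (R k ω, R k ω) ∂P) atTop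
      (𝓝 (c * ∫ ω, f (S ω, S ω) ∂P)) := l1.const_mul _
  have l3 : Tendsto (fun k => ∫ z, f z ∂(((P.map (R k)).map diag).conv (γ k)) -
      (c : ℝ) * ∫ ω, f (R k ω, R k ω) ∂P) atTop (𝓝 0) := by
    rw [Metric.tendsto_atTop]
    intro ε hε
    obtain ⟨d, hd, hdf⟩ := Metric.uniformContinuous_iff.1 huc (ε / (2 * (c + 1))) (by positivity)
    have ev := (hγ (d / 2) (half_pos hd)).eventually
      (gt_mem_nhds (show (0 : ℝ) < ε / (4 * (M + 1)) by positivity))
    rw [← eventually_atTop]
    filter_upwards [ev] with k hk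
    set B := {z : T × T | d / 2 < ‖z.1‖ ∨ d / 2 < ‖z.2‖} with hB
    have hmB : MeasurableSet B :=
      (measurableSet_lt measurable_const measurable_fst.norm).union
        (measurableSet_lt measurable_const measurable_snd.norm)
    have hinner : ∀ r : T, ‖∫ z, (f ((r, r) + z) - f (r, r)) ∂(γ k)‖ ≤
        ε / (2 * (c + 1)) * c + 2 * M * (γ k).real B := by
      intro r
      have h1 : ‖∫ z, (f ((r, r) + z) - f (r, r)) ∂(γ k)‖ ≤
          ∫ z, (ε / (2 * (c + 1)) + B.indicator (fun _ => 2 * M) z) ∂(γ k) := by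
        refine norm_integral_le_of_norm_le
          ((integrable_const _).add ((integrable_const _).indicator hmB))
          (Eventually.of_forall fun z => ?_)
        by_cases hz : z ∈ B
        · rw [indicator_of_mem hz]
          have h2 := norm_sub_le (f ((r, r) + z)) (f (r, r))
          have h3 := hM' ((r, r) + z)
          have h4 := hM' (r, r)
          have h5 : 0 < ε / (2 * ((c : ℝ) + 1)) := by positivity
          linarith
        · rw [indicator_of_notMem hz, add_zero]
          rw [hB, mem_ofPred_eq, not_or, not_lt, not_lt] at hz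
          have h2 : dist ((r, r) + z) ((r, r) : T × T) < d := by
            rw [dist_eq_norm, add_sub_cancel_left, Prod.norm_def]
            exact (max_le hz.1 hz.2).trans_lt (by linarith)
          have h3 := hdf h2
          rw [dist_eq_norm] at h3
          exact h3.le
      have h6 : (γ k).real univ = c := by rw [Measure.real, g3]; rfl
      rw [integral_add (integrable_const _) ((integrable_const _).indicator hmB),
        integral_const, integral_indicator_const _ hmB, smul_eq_mul, smul_eq_mul, h6] at h1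
      linarith
    have hfin : IsFiniteMeasure (((P.map (R k)).map diag).conv (γ k)) := inferInstance
    have hFc2 : Continuous (fun y : T × T => ∫ z, f (y + z) ∂(γ k)) := by
      refine continuous_of_dominated (bound := fun _ => M) ?_ ?_ (integrable_const _) ?_
      · intro r
        have : Continuous fun z : T × T => f (r + z) := by fun_prop
        exact this.measurable.aestronglyMeasurable
      · exact fun r => Eventually.of_forall fun z => hM' _
      · exact Eventually.of_forall fun z => by fun_prop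
    have hFc : Continuous (fun r : T => ∫ z, f ((r, r) + z) ∂(γ k)) :=
      hFc2.comp (continuous_id.prodMk continuous_id)
    have e1 : ∫ z, f z ∂(((P.map (R k)).map diag).conv (γ k)) =
        ∫ r, (∫ z, f ((r, r) + z) ∂(γ k)) ∂(P.map (R k)) := by
      rw [integral_conv (int_cont f.continuous),
        integral_map meas_diag.aemeasurable hFc2.measurable.aestronglyMeasurable]
      rfl
    have e2 : ∫ ω, f (R k ω, R k ω) ∂P = ∫ r, f (r, r) ∂(P.map (R k)) :=
      (integral_map (mR k) hdc.measurable.aestronglyMeasurable).symm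
    have e3 : ∫ z, f z ∂(((P.map (R k)).map diag).conv (γ k)) -
        (c : ℝ) * ∫ ω, f (R k ω, R k ω) ∂P =
        ∫ r, (∫ z, (f ((r, r) + z) - f (r, r)) ∂(γ k)) ∂(P.map (R k)) := by
      rw [e1, e2, ← integral_const_mul, ← integral_sub (int_cont hFc)
        ((int_cont hdc).const_mul _)]
      refine integral_congr_ae (Eventually.of_forall fun r => ?_)
      change _ - (c : ℝ) * f (r, r) = ∫ z, (f ((r, r) + z) - f (r, r)) ∂(γ k)
      have hc1 : Continuous fun z : T × T => f ((r, r) + z) := by fun_prop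
      rw [integral_sub (int_cont hc1) (integrable_const _), integral_const, smul_eq_mul]
      have h6 : (γ k).real univ = c := by rw [Measure.real, g3]; rfl
      rw [h6]
    rw [Real.dist_eq, sub_zero, e3]
    have h8 : ‖∫ r, (∫ z, (f ((r, r) + z) - f (r, r)) ∂(γ k)) ∂(P.map (R k))‖ ≤
        (ε / (2 * (c + 1)) * c + 2 * M * (γ k).real B) * (P.map (R k)).real univ :=
      norm_integral_le_of_norm_le_const (Eventually.of_forall hinner)
    rw [probReal_univ, mul_one, Real.norm_eq_abs] at h8
    refine h8.trans_lt ?_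
    have h9 : ε / (2 * ((c : ℝ) + 1)) * c ≤ ε / 2 := by
      rw [div_mul_eq_mul_div, div_le_div_iff₀ (by positivity) (by norm_num)]
      nlinarith [c.coe_nonneg]
    have h10 : 2 * M * (γ k).real B < ε / 2 := by
      have h11 : 2 * M * (γ k).real B ≤ 2 * M * (ε / (4 * (M + 1))) :=
        mul_le_mul_of_nonneg_left hk.le (by positivity)
      refine h11.trans_lt ?_
      rw [mul_div_assoc', div_lt_div_iff₀ (by positivity) (by norm_num)]
      nlinarith
    linarith
  have l4 := l3.add l2
  rw [zero_add] at l4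
  refine l4.congr fun k => ?_
  ring

/-- condition (c) -/
def CondC (P : Measure Ω) (X : ℕ → Ω → T) : Prop :=
  ∃ (C₀ : Set T) (c₀ : ℝ≥0) (a : ℕ → T), C₀.Countable ∧ 0 < c₀ ∧
    ∑' n, (if (c₀ : ℝ≥0∞) ≤ P {ω | X n ω = a n} then P {ω | X n ω ∈ C₀ ∧ X n ω ≠ a n} else 0) = ∞

/-- choice of the window -/
lemma exists_window {β : ℕ → ℝ≥0∞} (hβ : ∀ n, β n ≤ 1) (h : ∑' n, β n = ∞) :
    ∃ m, 1 / 2 ≤ ∑ j ∈ Finset.range m, β j ∧ ∑ j ∈ Finset.range m, β j ≤ 3 / 2 := by
  have h1 : Tendsto (fun m => ∑ j ∈ Finset.range m, β j) atTop (𝓝 ∞) := by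
    rw [← h]; exact ENNReal.tendsto_nat_tsum β
  have h2 : ∃ m, 1 / 2 ≤ ∑ j ∈ Finset.range m, β j :=
    (h1.eventually (le_mem_nhds (by simp : (1 / 2 : ℝ≥0∞) < ∞))).exists
  classical
  refine ⟨Nat.find h2, Nat.find_spec h2, ?_⟩
  rcases Nat.eq_zero_or_pos (Nat.find h2) with h0 | h0
  · rw [h0]; simp
  · obtain ⟨m, hm⟩ : ∃ m, Nat.find h2 = m + 1 := ⟨Nat.find h2 - 1, by omega⟩
    have h3 : ¬ (1 / 2 ≤ ∑ j ∈ Finset.range m, β j) := Nat.find_min h2 (by omega)
    rw [hm, Finset.sum_range_succ]
    calc ∑ j ∈ Finset.range m, β j + β m ≤ 1 / 2 + 1 := add_le_add (not_le.1 h3).le (hβ m)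
      _ = 3 / 2 := by
        rw [show (3 : ℝ≥0∞) / 2 = (1 + 2) / 2 by norm_num, ENNReal.add_div,
          ENNReal.div_self (by norm_num) (by norm_num)]

lemma prod_bound {β : ℕ → ℝ} (h0 : ∀ n, 0 ≤ β n) (h1 : ∀ n, β n ≤ 1) {m : ℕ}
    (h : 1 / 2 ≤ ∑ j ∈ Finset.range m, β j) : ∏ j ∈ Finset.range m, (1 - β j) ≤ 2 / 3 := by
  calc ∏ j ∈ Finset.range m, (1 - β j) ≤ ∏ j ∈ Finset.range m, Real.exp (-(β j)) :=
        Finset.prod_le_prod (fun j _ => sub_nonneg.2 (h1 j)) fun j _ => by
          have := Real.add_one_le_exp (-(β j))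
          linarith
    _ = Real.exp (-∑ j ∈ Finset.range m, β j) := by
        rw [← Real.exp_sum, Finset.sum_neg_distrib]
    _ ≤ Real.exp (-(1 / 2)) := Real.exp_le_exp.2 (by linarith)
    _ ≤ 2 / 3 := by
        rw [Real.exp_neg]
        have := Real.add_one_le_exp (1 / 2 : ℝ)
        rw [inv_le_comm₀ (Real.exp_pos _) (by norm_num)]
        linarith

end Pool.Agent.Zk24.SC
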