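import Mathlib
import Pool.Agent.Zk24.SC.SeriesC

/-!
Couplings for random series whose terms have a large atom, continued.
-/

set_option autoImplicit false

open MeasureTheory Filter Topology Set ProbabilityTheory
open scoped ENNReal NNReal

namespace Pool.Agent.Zk24.SC

variable {Ω : Type*} [MeasurableSpace Ω] {P : Measure Ω} [IsProbabilityMeasure P] {X : ℕ → Ω → T}

open Classical in
/-- the admissible jumps -/
noncomputable def JB (P : Measure Ω) (X : ℕ → Ω → T) (C₀ : Set T) (c₀ : ℝ≥0) (a : ℕ → T) (δ : ℝ)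
    (n : ℕ) : Set T :=
  if (c₀ : ℝ≥0∞) ≤ P {ω | X n ω = a n} then {b | b ∈ C₀ ∧ b ≠ a n ∧ ‖b - a n‖ ≤ δ} else ∅

open Classical in
lemma JB_div (hX : ∀ n, Measurable (X n)) (hind : iIndepFun X P) {S : Ω → T}
    (hlim : ∀ᵐ ω ∂P, Tendsto (fun N => ∑ i ∈ Finset.range N, X i ω) atTop (𝓝 (S ω)))
    {C₀ : Set T} (hC₀ : C₀.Countable) {c₀ : ℝ≥0} (hc₀ : 0 < c₀) {a : ℕ → T}
    (hdiv : ∑' n, (if (c₀ : ℝ≥0∞) ≤ P {ω | X n ω = a n} then
      P {ω | X n ω ∈ C₀ ∧ X n ω ≠ a n} else 0) = ∞) {δ : ℝ} (hδ : 0 < δ) (k : ℕ) :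
    ∑' j, (P.map (X (k + j))) (JB P X C₀ c₀ a δ (k + j)) = ∞ := by
  have hBm : ∀ n, MeasurableSet (JB P X C₀ c₀ a δ n) := by
    intro n
    unfold JB
    split_ifs
    · exact (hC₀.mono (fun b hb => hb.1)).measurableSet
    · exact MeasurableSet.empty
  have hfin := large_summable hX hind hlim (half_pos hδ)
  have hsm := ENNReal.tendsto_atTop_zero_of_tsum_ne_top hfin
  have hev : ∀ᶠ n in atTop, P {ω | δ / 2 < ‖X n ω‖} < c₀ :=
    hsm.eventually (gt_mem_nhds (by exact_mod_cast hc₀))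
  obtain ⟨n₀, hn₀⟩ := eventually_atTop.1 hev
  have hle : ∀ n, (if (c₀ : ℝ≥0∞) ≤ P {ω | X n ω = a n} then
      P {ω | X n ω ∈ C₀ ∧ X n ω ≠ a n} else 0) ≤
      (P.map (X n)) (JB P X C₀ c₀ a δ n) + (P {ω | δ / 2 < ‖X n ω‖} +
        (if n < n₀ then 1 else 0)) := by
    intro n
    by_cases hI : (c₀ : ℝ≥0∞) ≤ P {ω | X n ω = a n}
    · rw [if_pos hI]
      by_cases hn : n < n₀
      · rw [if_pos hn]
        exact prob_le_one.trans (le_add_self.trans (le_add_self))
      · rw [if_neg hn, add_zero]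
        have han : ‖a n‖ ≤ δ / 2 := by
          by_contra hcon
          have hsub : {ω | X n ω = a n} ⊆ {ω | δ / 2 < ‖X n ω‖} := by
            intro ω hω
            change δ / 2 < ‖X n ω‖
            rw [show X n ω = a n from hω]
            exact not_le.1 hcon
          exact absurd ((hI.trans (measure_mono hsub)).trans_lt (hn₀ n (not_lt.1 hn)))
            (lt_irrefl _)
        rw [Measure.map_apply (hX n) (hBm n)]
        refine le_trans (measure_mono ?_) (measure_union_le _ _)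
        rintro ω ⟨hω1, hω2⟩
        by_cases hbig : δ / 2 < ‖X n ω‖
        · exact Or.inr hbig
        · left
          change X n ω ∈ JB P X C₀ c₀ a δ n
          unfold JB
          rw [if_pos hI]
          refine ⟨hω1, hω2, ?_⟩
          have := norm_sub_le (X n ω) (a n)
          linarith [not_lt.1 hbig]
    · rw [if_neg hI]
      exact zero_le
  have hall : ∑' n, (P.map (X n)) (JB P X C₀ c₀ a δ n) = ∞ := by
    by_contra hne
    have h1 := ENNReal.tsum_le_tsum hle
    rw [hdiv, ENNReal.tsum_add, ENNReal.tsum_add] at h1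
    have h2 : ∑' n, (if n < n₀ then (1 : ℝ≥0∞) else 0) ≠ ∞ := by
      rw [tsum_eq_sum (s := Finset.range n₀) (fun n hn => by
        rw [if_neg]; simpa using hn)]
      refine (ENNReal.sum_lt_top.2 fun n _ => ?_).ne
      split_ifs <;> simp
    exact (ENNReal.add_ne_top.2 ⟨hne, ENNReal.add_ne_top.2 ⟨hfin, h2⟩⟩) (top_le_iff.1 h1)
  have h3 := (ENNReal.summable
    (f := fun n => (P.map (X (n + k))) (JB P X C₀ c₀ a δ (n + k)))).sum_add_tsum_nat_add'
    (f := fun n => (P.map (X n)) (JB P X C₀ c₀ a δ n))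
  rw [hall] at h3
  have h4 : ∑ i ∈ Finset.range k, (P.map (X i)) (JB P X C₀ c₀ a δ i) ≠ ∞ :=
    (ENNReal.sum_lt_top.2 fun n _ => by
      have : IsProbabilityMeasure (P.map (X n)) :=
        Measure.isProbabilityMeasure_map (hX n).aemeasurable
      exact measure_lt_top _ _).ne
  have h5 := (ENNReal.add_eq_top.1 h3).resolve_left h4
  simpa [add_comm] using h5

/-- the coupling in one window -/
lemma couple_c_one (hX : ∀ n, Measurable (X n)) (hind : iIndepFun X P)
    {C₀ : Set T} (hC₀ : C₀.Countable) {c₀ : ℝ≥0} (hc₀ : 0 < c₀) (hc₁ : c₀ ≤ 1) {a : ℕ → T}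
    (k : ℕ) {δ : ℝ}
    (hd : ∑' j, (P.map (X (k + j))) (JB P X C₀ c₀ a δ (k + j)) = ∞) :
    ∃ (m : ℕ) (γ : Measure (T × T)) (w : ℝ≥0∞), γ univ = ((c₀ / 5 : ℝ≥0) : ℝ≥0∞) ∧ w ≤ 1 ∧
      γ.map Prod.fst ≤ P.map (fun ω => ∑ i ∈ Finset.Ico k (k + m), X i ω) ∧
      γ.map Prod.snd ≤ P.map (fun ω => ∑ i ∈ Finset.Ico k (k + m), X i ω) ∧
      Mixed (P.map (fun ω => ∑ i ∈ Finset.Ico k (k + m), X i ω)) ((c₀⁻¹ : ℝ≥0) : ℝ≥0∞) δ w γ := by
  classical
  have hν : ∀ n, IsProbabilityMeasure (P.map (X (k + n))) := fun n =>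
    Measure.isProbabilityMeasure_map (hX _).aemeasurable
  have hBc : ∀ n, (JB P X C₀ c₀ a δ n).Countable := by
    intro n
    unfold JB
    split_ifs
    · exact hC₀.mono (fun b hb => hb.1)
    · exact countable_empty
  obtain ⟨m, hm1, hm2⟩ := exists_window (fun n => prob_le_one) hd
  have hcne : (c₀ : ℝ≥0∞) ≠ 0 := by rw [Ne, ENNReal.coe_eq_zero]; exact hc₀.ne'
  obtain ⟨hζ, J, N, hJ, hN, j1, j2, j3, j4⟩ := jumps (C := ((c₀⁻¹ : ℝ≥0) : ℝ≥0∞)) (δ := δ)
    (ν := fun n => P.map (X (k + n))) (a := fun n => a (k + n))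
    (B := fun n => JB P X C₀ c₀ a δ (k + n)) (fun n => hBc _)
    (fun n b hb => by
      unfold JB at hb
      split_ifs at hb
      · exact ⟨hb.2.1, hb.2.2⟩
      · exact absurd hb (notMem_empty _))
    (fun n hne => by
      unfold JB at hne
      split_ifs at hne with hI
      · refine Measure.le_intro fun A hA _ => ?_
        rw [Measure.smul_apply, smul_eq_mul, Measure.dirac_apply' _ hA]
        by_cases haA : a (k + n) ∈ A
        · rw [indicator_of_mem haA]
          change (1 : ℝ≥0∞) ≤ _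
          have h1 : (c₀ : ℝ≥0∞) ≤ (P.map (X (k + n))) A := by
            refine hI.trans ?_
            rw [Measure.map_apply (hX _) hA]
            refine measure_mono fun ω hω => ?_
            change X (k + n) ω ∈ A
            rw [show X (k + n) ω = a (k + n) from hω]
            exact haA
          calc (1 : ℝ≥0∞) = ((c₀⁻¹ : ℝ≥0) : ℝ≥0∞) * c₀ := by
                rw [← ENNReal.coe_mul, inv_mul_cancel₀ hc₀.ne', ENNReal.coe_one]
            _ ≤ _ := mul_le_mul_right h1 _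
        · rw [indicator_of_notMem haA]; exact zero_le
      · exact absurd hne (by simp))
    (ζ := fun m => P.map (fun ω => ∑ i ∈ Finset.Ico k (k + m), X i ω))
    (by simp [Measure.map_const]) (fun m => window_succ hX hind k m) m
  set L : ℝ≥0∞ := ∑ j ∈ Finset.range m, (P.map (X (k + j))) (JB P X C₀ c₀ a δ (k + j)) with hL
  -- the mass of `J`
  have hLr : ∑ j ∈ Finset.range m, (P.map (X (k + j))).real (JB P X C₀ c₀ a δ (k + j)) =
      L.toReal := by
    rw [hL, ENNReal.toReal_sum (fun j _ => measure_ne_top _ _)]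
    rfl
  have hLtop : L ≠ ∞ := ne_top_of_le_ne_top
    (ENNReal.div_ne_top (by norm_num) (by norm_num)) hm2
  have hJN : J.real univ + N.real univ = 1 := by
    have h1 : ((J.map Prod.snd) + N) univ = 1 := by rw [j1]; exact measure_univ
    rw [Measure.add_apply, Measure.map_apply measurable_snd MeasurableSet.univ,
      preimage_univ] at h1
    have := congrArg ENNReal.toReal h1
    rwa [ENNReal.toReal_add (measure_ne_top _ _) (measure_ne_top _ _), ENNReal.toReal_one] at this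
  have hNr : N.real univ ≤ 2 / 3 := by
    have e4 : N.real univ = ∏ j ∈ Finset.range m,
        (1 - (P.map (X (k + j))).real (JB P X C₀ c₀ a δ (k + j))) := by
      rw [Measure.real, j3, ENNReal.toReal_prod]
      refine Finset.prod_congr rfl fun j _ => ?_
      change (P.map (X (k + j))).real (JB P X C₀ c₀ a δ (k + j))ᶜ = _
      rw [measureReal_compl (hBc _).measurableSet, probReal_univ]
    rw [e4]
    refine prod_bound (fun n => measureReal_nonneg) (fun n => measureReal_le_one) ?_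
    rw [hLr]
    have := ENNReal.toReal_mono hLtop hm1
    simpa using this
  have hJr : 1 / 3 ≤ J.real univ := by linarith
  set jj : ℝ≥0 := (J univ).toNNReal with hjj
  have hjjc : (jj : ℝ≥0∞) = J univ := ENNReal.coe_toNNReal (measure_ne_top _ _)
  have hjj3 : 1 / 3 ≤ jj := by
    rw [← NNReal.coe_le_coe]
    exact hJr
  have hjj0 : 0 < jj := lt_of_lt_of_le (by norm_num) hjj3
  set s : ℝ≥0 := c₀ / 5 / jj with hs
  have hs1 : s ≤ 3 / 5 * c₀ := by
    rw [hs, div_le_iff₀ hjj0]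
    calc c₀ / 5 = 3 / 5 * c₀ * (1 / 3) := by
          rw [mul_comm (3 / 5) c₀, mul_assoc, div_eq_mul_inv]
          congr 1
          rw [← NNReal.coe_inj]; push_cast; norm_num
      _ ≤ 3 / 5 * c₀ * jj := by gcongr
  have hsC : s * c₀⁻¹ ≤ 3 / 5 := by
    calc s * c₀⁻¹ ≤ 3 / 5 * c₀ * c₀⁻¹ := by gcongr
      _ = 3 / 5 := by rw [mul_assoc, mul_inv_cancel₀ hc₀.ne', mul_one]
  have hs35 : s ≤ 3 / 5 := hs1.trans (by
    calc 3 / 5 * c₀ ≤ 3 / 5 * 1 := by gcongr
      _ = 3 / 5 := mul_one _)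
  have h35 : ((3 / 5 : ℝ≥0) : ℝ≥0∞) * (3 / 2) ≤ 1 := by
    rw [show (3 / 2 : ℝ≥0∞) = ((3 / 2 : ℝ≥0) : ℝ≥0∞) by
      rw [ENNReal.coe_div (by norm_num)]; rfl, ← ENNReal.coe_mul, ← ENNReal.coe_one,
      ENNReal.coe_le_coe, ← NNReal.coe_le_coe]
    push_cast
    norm_num
  refine ⟨m, (s : ℝ≥0∞) • J, s * L, ?_, ?_, ?_, ?_, Mixed.smul _ _ _ j4⟩
  · rw [Measure.smul_apply, smul_eq_mul, ← hjjc, ← ENNReal.coe_mul, hs,
      div_mul_cancel₀ _ hjj0.ne']
  · calc (s : ℝ≥0∞) * L ≤ ((3 / 5 : ℝ≥0) : ℝ≥0∞) * (3 / 2) := by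
          gcongr
      _ ≤ 1 := h35
  · rw [Measure.map_smul]
    refine Measure.le_intro fun A hA _ => ?_
    rw [Measure.smul_apply, smul_eq_mul]
    calc (s : ℝ≥0∞) * (J.map Prod.fst) A ≤ s * ((((c₀⁻¹ : ℝ≥0) : ℝ≥0∞) * L) •
            P.map (fun ω => ∑ i ∈ Finset.Ico k (k + m), X i ω)) A := mul_le_mul_right (j2 A) _
      _ = ((s * c₀⁻¹ : ℝ≥0) : ℝ≥0∞) * L *
            (P.map (fun ω => ∑ i ∈ Finset.Ico k (k + m), X i ω)) A := by
          rw [Measure.smul_apply, smul_eq_mul]; push_cast; ring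
      _ ≤ ((3 / 5 : ℝ≥0) : ℝ≥0∞) * (3 / 2) *
            (P.map (fun ω => ∑ i ∈ Finset.Ico k (k + m), X i ω)) A := by
          gcongr
      _ ≤ 1 * (P.map (fun ω => ∑ i ∈ Finset.Ico k (k + m), X i ω)) A := by gcongr
      _ = _ := one_mul _
  · rw [Measure.map_smul]
    refine Measure.le_intro fun A hA _ => ?_
    rw [Measure.smul_apply, smul_eq_mul]
    have h1 : (J.map Prod.snd) A ≤
        (P.map (fun ω => ∑ i ∈ Finset.Ico k (k + m), X i ω)) A := by
      have : J.map Prod.snd ≤ P.map (fun ω => ∑ i ∈ Finset.Ico k (k + m), X i ω) := by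
        rw [← j1]
        exact Measure.le_add_right le_rfl
      exact this A
    have hs1' : (s : ℝ≥0∞) ≤ 1 := by
      have : s ≤ 1 := hs35.trans (by rw [← NNReal.coe_le_coe]; push_cast; norm_num)
      exact_mod_cast this
    calc (s : ℝ≥0∞) * (J.map Prod.snd) A ≤ 1 * (J.map Prod.snd) A := by gcongr
      _ ≤ _ := by rw [one_mul]; exact h1

/-- condition (c) gives couplings which are mixtures of small translations -/
theorem couple_c (hX : ∀ n, Measurable (X n)) (hind : iIndepFun X P) {S : Ω → T}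
    (hlim : ∀ᵐ ω ∂P, Tendsto (fun N => ∑ i ∈ Finset.range N, X i ω) atTop (𝓝 (S ω)))
    (h : CondC P X) :
    ∃ (c C : ℝ≥0) (π : ℕ → Measure (T × T)) (δ : ℕ → ℝ) (w : ℕ → ℝ≥0∞), 0 < c ∧
      Cpl (P.map S) c π ∧ Tendsto δ atTop (𝓝 0) ∧ (∀ k, w k ≤ 1) ∧
      ∀ k, Mixed (P.map S) C (δ k) (w k) (π k) := by
  classical
  obtain ⟨C₀, c₀, a, hC₀, hc₀, hdiv⟩ := h
  have hS := aemeas hX hlim
  have hη : IsProbabilityMeasure (P.map S) := Measure.isProbabilityMeasure_map hS
  -- `c₀ ≤ 1`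
  have hc₁ : c₀ ≤ 1 := by
    by_contra hcon
    have h1 : ∀ n, (if (c₀ : ℝ≥0∞) ≤ P {ω | X n ω = a n} then
        P {ω | X n ω ∈ C₀ ∧ X n ω ≠ a n} else 0) = 0 := by
      intro n
      rw [if_neg]
      intro h2
      have h3 : (c₀ : ℝ≥0∞) ≤ 1 := h2.trans prob_le_one
      exact hcon (by exact_mod_cast h3)
    simp_rw [h1] at hdiv
    simp at hdiv
  have hstep := fun k : ℕ => couple_c_one hX hind hC₀ hc₀ hc₁ k
    (JB_div hX hind hlim (P := P) hC₀ hc₀ (by convert hdiv)
      (δ := 1 / ((k : ℝ) + 1)) (by positivity) k)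
  choose m γ w h1 h2 h3 h4 h5 using hstep
  set Z : ℕ → Ω → T := fun k ω => ∑ i ∈ Finset.Ico k (k + m k), X i ω with hZ
  set R : ℕ → Ω → T := fun k ω => S ω - Z k ω with hR
  have mZ : ∀ k, Measurable (Z k) := fun k => Finset.measurable_sum _ fun i _ => hX i
  have mR : ∀ k, AEMeasurable (R k) P := fun k => hS.sub (mZ k).aemeasurable
  have hρp : ∀ k, IsProbabilityMeasure (P.map (R k)) := fun k =>
    Measure.isProbabilityMeasure_map (mR k)
  have hζp : ∀ k, IsProbabilityMeasure (P.map (Z k)) := fun k =>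
    Measure.isProbabilityMeasure_map (mZ k).aemeasurable
  have hfac : ∀ k, P.map S = (P.map (R k)).conv (P.map (Z k)) := fun k =>
    factor hX hind hlim _
  have gf : ∀ k, IsFiniteMeasure (γ k) := fun k => ⟨by rw [h1]; exact ENNReal.coe_lt_top⟩
  have hfd : ∀ k, IsFiniteMeasure ((P.map (R k)).map diag) := fun k => inferInstance
  -- the windows tend to zero
  have hZ0 : ∀ᵐ ω ∂P, Tendsto (fun k => Z k ω) atTop (𝓝 0) := by
    filter_upwards [hlim] with ω hω
    have t1 : Tendsto (fun k => k + m k) atTop atTop :=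
      tendsto_atTop_mono (fun k => Nat.le_add_right k (m k)) tendsto_id
    have t2 := (hω.comp t1).sub hω
    rw [sub_self] at t2
    refine t2.congr fun k => ?_
    simp only [Function.comp_apply, hZ]
    rw [Finset.sum_Ico_eq_sub _ (Nat.le_add_right k (m k))]
  have hR0 : ∀ᵐ ω ∂P, Tendsto (fun k => R k ω) atTop (𝓝 (S ω)) := by
    filter_upwards [hZ0] with ω hω
    have := (tendsto_const_nhds (x := S ω)).sub hω
    rwa [sub_zero] at this
  have hmeas0 : ∀ d : ℝ, 0 < d → Tendsto (fun k => P.real {ω | d < ‖Z k ω‖}) atTop (𝓝 0) := by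
    intro d hd
    have t1 := tendstoInMeasure_of_tendsto_ae (μ := P) (f := Z) (g := fun _ => (0 : T))
      (fun k => (mZ k).aestronglyMeasurable) hZ0
    rw [tendstoInMeasure_iff_norm] at t1
    have t2 := t1 d hd
    have t3 := (ENNReal.tendsto_toReal ENNReal.zero_ne_top).comp t2
    rw [ENNReal.toReal_zero] at t3
    refine squeeze_zero (fun k => measureReal_nonneg) (fun k => ?_) t3
    change P.real {ω | d < ‖Z k ω‖} ≤ P.real {ω | d ≤ ‖Z k ω - 0‖}
    refine measureReal_mono fun ω hω => ?_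
    change d ≤ ‖Z k ω - 0‖
    rw [sub_zero]
    exact le_of_lt hω
  have hγ : ∀ d : ℝ, 0 < d →
      Tendsto (fun k => (γ k).real {z | d < ‖z.1‖ ∨ d < ‖z.2‖}) atTop (𝓝 0) := by
    intro d hd
    have hml : MeasurableSet {x : T | d < ‖x‖} := measurableSet_lt measurable_const measurable_norm
    have t4 : Tendsto (fun k => 2 * P.real {ω | d < ‖Z k ω‖}) atTop (𝓝 0) := by
      have := (hmeas0 d hd).const_mul 2
      rwa [mul_zero] at this
    refine squeeze_zero (fun k => measureReal_nonneg) (fun k => ?_) t4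
    have b0 : {z : T × T | d < ‖z.1‖ ∨ d < ‖z.2‖} ⊆
        Prod.fst ⁻¹' {x : T | d < ‖x‖} ∪ Prod.snd ⁻¹' {x : T | d < ‖x‖} := fun z hz => hz
    have b1 : (γ k) (Prod.fst ⁻¹' {x : T | d < ‖x‖}) ≤ P {ω | d < ‖Z k ω‖} := by
      have := h3 k {x : T | d < ‖x‖}
      rw [Measure.map_apply measurable_fst hml] at this
      refine this.trans (le_of_eq ?_)
      exact Measure.map_apply (mZ k) hml
    have b2 : (γ k) (Prod.snd ⁻¹' {x : T | d < ‖x‖}) ≤ P {ω | d < ‖Z k ω‖} := by
      have := h4 k {x : T | d < ‖x‖}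
      rw [Measure.map_apply measurable_snd hml] at this
      refine this.trans (le_of_eq ?_)
      exact Measure.map_apply (mZ k) hml
    have b3 : (γ k) {z | d < ‖z.1‖ ∨ d < ‖z.2‖} ≤ P {ω | d < ‖Z k ω‖} + P {ω | d < ‖Z k ω‖} :=
      (measure_mono b0).trans ((measure_union_le _ _).trans (add_le_add b1 b2))
    have b4 := ENNReal.toReal_mono (by finiteness) b3
    rw [ENNReal.toReal_add (measure_ne_top _ _) (measure_ne_top _ _)] at b4
    change (γ k).real _ ≤ P.real _ + P.real _ at b4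
    linarith
  refine ⟨c₀ / 5, c₀⁻¹, fun k => ((P.map (R k)).map diag).conv (γ k), fun k => 1 / ((k : ℝ) + 1),
    w, by positivity, ⟨fun k => ?_, fun k => ?_, fun f => ?_⟩,
    tendsto_one_div_add_atTop_nhds_zero_nat, h2, fun k => ?_⟩
  · rw [map_fst_conv, map_fst_diag, hfac k]
    exact conv_mono le_rfl (h3 k)
  · rw [map_snd_conv, map_snd_diag, hfac k]
    exact conv_mono le_rfl (h4 k)
  · exact cpl_conv hS mR hR0 h1 hγ f
  · change Mixed (P.map S) _ _ (w k) (((P.map (R k)).map diag).conv (γ k))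
    rw [Measure.conv_comm, hfac k, Measure.conv_comm (P.map (R k))]
    exact (h5 k).conv (P.map (R k))

end Pool.Agent.Zk24.SC
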