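import Mathlib
import Pool.Agent.Zk24.SC.Final

/-!
Jointly invariant measures against laws of random series: assembly.
-/

set_option autoImplicit false

open MeasureTheory Filter Topology Set ProbabilityTheory
open scoped ENNReal NNReal

namespace Pool.Agent.Zk24.SC

lemma sing_of_set {ν η ω : Measure T} [IsFiniteMeasure η] [IsFiniteMeasure ω] {A : Set T}
    (hA : MeasurableSet A) (h1 : ν Aᶜ = 0) (h2 : ∀ t : T, η {x | x + t ∈ A} = 0) :
    ν ⟂ₘ η.conv ω := by
  refine ⟨Aᶜ, hA.compl, h1, ?_⟩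
  rw [compl_compl, Measure.conv_comm, Measure.conv, Measure.map_apply measurable_add hA,
    Measure.measure_prod_null (measurable_add hA)]
  refine Eventually.of_forall fun t => ?_
  have := h2 t
  simp only [Pi.zero_apply]
  rw [← this]
  congr 1
  ext x
  simp [add_comm]

variable {Ω : Type*} [MeasurableSpace Ω] {P : Measure Ω} [IsProbabilityMeasure P] {X : ℕ → Ω → T}
variable {p q : ℕ}

theorem part_one (hp : 2 ≤ p) (hq : 2 ≤ q) (hirr : Irrational (Real.log p / Real.log q))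
    (hX : ∀ n, Measurable (X n)) (hind : iIndepFun X P) {S : Ω → T}
    (hlim : ∀ᵐ ω ∂P, Tendsto (fun N => ∑ i ∈ Finset.range N, X i ω) atTop (𝓝 (S ω)))
    (h : CondA P X ∨ CondB P X) (μ : Measure T) [IsProbabilityMeasure μ]
    (hμp : MeasurePreserving (fun x : T => p • x) μ μ)
    (hμq : MeasurePreserving (fun x : T => q • x) μ μ) :
    (μ ⟂ₘ (volume : Measure T) → ∃ A : Set T, MeasurableSet A ∧ μ A = 1 ∧
      ∀ m : ℤ, m ≠ 0 → ∀ t : T, P {ω | m • S ω + t ∈ A} = 0) ∧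
    (∀ (m : ℤ) (ν : Measure T), m ≠ 0 → IsProbabilityMeasure ν →
      μ ≪ (P.map (fun ω => m • S ω)).conv ν → μ = (volume : Measure T)) := by
  have hS := aemeas hX hlim
  refine ⟨fun hsing => ?_, fun m ν hm hν hac => ?_⟩
  · obtain ⟨A, hA, hA1, hA2⟩ := series_all hp hq hirr hμp hμq hsing hX hind hlim h
    exact ⟨A, hA, (prob_compl_eq_zero_iff hA).1 hA1, hA2⟩
  · have mzm : Measurable (fun x : T => m • x) := (continuous_zsmul m).measurable
    have hmS : AEMeasurable (fun ω => m • S ω) P := mzm.comp_aemeasurable hS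
    have hη : IsProbabilityMeasure (P.map (fun ω => m • S ω)) :=
      Measure.isProbabilityMeasure_map hmS
    refine rigid_of_sing hp hq (η := (P.map (fun ω => m • S ω)).conv ν) ?_ hμp hμq hac
    intro σ hσ hσp hσq hσs
    obtain ⟨A, hA, hA1, hA2⟩ := series_all hp hq hirr hσp hσq hσs hX hind hlim h
    refine sing_of_set hA hA1 fun t => ?_
    have hmA : MeasurableSet {x : T | x + t ∈ A} := measurable_add_const t hA
    rw [Measure.map_apply_of_aemeasurable hmS hmA]
    exact hA2 m hm t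

theorem part_two (hp : 2 ≤ p) (hq : 2 ≤ q) (hirr : Irrational (Real.log p / Real.log q))
    (η : Measure T) [IsProbabilityMeasure η] (c : ℝ) (hc : 0 < c) (π : ℕ → Measure (T × T))
    (h : Cpl η c π)
    (hπ : (∃ C : Set T, C.Countable ∧ ∀ k, ∀ᵐ z ∂(π k), z.2 - z.1 ∈ C ∧
        ¬ IsOfFinAddOrder (z.2 - z.1)) ∨
      (∀ k, ∃ θ : T, θ ≠ 0 ∧ ∀ᵐ z ∂(π k), z.2 - z.1 = θ))
    (μ : Measure T) [IsProbabilityMeasure μ]
    (hμp : MeasurePreserving (fun x : T => p • x) μ μ)
    (hμq : MeasurePreserving (fun x : T => q • x) μ μ) :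
    (μ ⟂ₘ (volume : Measure T) → ∃ A : Set T, MeasurableSet A ∧ μ A = 1 ∧
      ∀ t : T, η {x | x + t ∈ A} = 0) ∧
    (∀ ν : Measure T, IsProbabilityMeasure ν → μ ≪ η.conv ν → μ = (volume : Measure T)) := by
  refine ⟨fun hsing => ?_, fun ν hν hac => ?_⟩
  · obtain ⟨A, hA, hA1, hA2⟩ := crit_set hp hq hirr hμp hμq hsing hc h hπ
    exact ⟨A, hA, (prob_compl_eq_zero_iff hA).1 hA1, hA2⟩
  · refine rigid_of_sing hp hq (η := η.conv ν) ?_ hμp hμq hac
    intro σ hσ hσp hσq hσs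
    obtain ⟨A, hA, hA1, hA2⟩ := crit_set hp hq hirr hσp hσq hσs hc h hπ
    exact sing_of_set hA hA1 hA2

end Pool.Agent.Zk24.SC
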