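import Mathlib
import Pool.Agent.Zk24.SC.CoupleC
import Pool.Agent.Zk24.SC.Main

/-!
Jointly ergodic measures for coprime multipliers against series of random variables with a large
atom, in particular with at most `K` values.
-/

set_option autoImplicit false

open MeasureTheory Filter Topology Set ProbabilityTheory
open scoped ENNReal NNReal

namespace Pool.Agent.Zk24.SC

variable {Ω : Type*} [MeasurableSpace Ω] {P : Measure Ω} [IsProbabilityMeasure P] {X : ℕ → Ω → T}

lemma Cpl.zsmul {η : Measure T} [IsFiniteMeasure η] {c : ℝ} {π : ℕ → Measure (T × T)}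
    (h : Cpl η c π) (m : ℤ) :
    Cpl (η.map (fun x => m • x)) c (fun k => (π k).map (fun z => (m • z.1, m • z.2))) := by
  have mzc : Continuous (fun x : T => m • x) := continuous_zsmul m
  have mzm : Measurable (fun x : T => m • x) := mzc.measurable
  have mz2 : Measurable (fun z : T × T => (m • z.1, m • z.2)) :=
    (mzm.comp measurable_fst).prodMk (mzm.comp measurable_snd)
  refine ⟨fun k => ?_, fun k => ?_, fun f => ?_⟩
  · have e : ((π k).map (fun z => (m • z.1, m • z.2))).map Prod.fst =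
        ((π k).map Prod.fst).map (fun x => m • x) := by
      rw [Measure.map_map measurable_fst mz2, Measure.map_map mzm measurable_fst]
      rfl
    rw [e]
    exact Measure.map_mono (h.fst k) mzm
  · have e : ((π k).map (fun z => (m • z.1, m • z.2))).map Prod.snd =
        ((π k).map Prod.snd).map (fun x => m • x) := by
      rw [Measure.map_map measurable_snd mz2, Measure.map_map mzm measurable_snd]
      rfl
    rw [e]
    exact Measure.map_mono (h.snd k) mzm
  · let F : C(T × T, ℝ) := ⟨fun z => f (m • z.1, m • z.2), by fun_prop⟩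
    have h1 := h.lim F
    have e1 : ∀ k, ∫ z, f z ∂((π k).map (fun z => (m • z.1, m • z.2))) = ∫ z, F z ∂(π k) := by
      intro k
      rw [integral_map mz2.aemeasurable f.continuous.measurable.aestronglyMeasurable]
      rfl
    have e2 : ∫ x, f (x, x) ∂(η.map (fun x => m • x)) = ∫ x, F (x, x) ∂η := by
      have hc : Continuous fun x : T => f (x, x) := by fun_prop
      rw [integral_map mzm.aemeasurable hc.measurable.aestronglyMeasurable]
      rfl
    simp_rw [e1, e2]
    exact h1

variable {p q : ℕ}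

/-- condition (c), coprime multipliers -/
theorem series_c (hp : 2 ≤ p) (hq : 2 ≤ q) (hpq : Nat.Coprime p q)
    {μ : Measure T} [IsProbabilityMeasure μ]
    (hμp : MeasurePreserving (fun x : T => p • x) μ μ)
    (hμq : MeasurePreserving (fun x : T => q • x) μ μ)
    (hJ : Pool.Agent.Zk32.JE (fun x : T => p • x) (fun x : T => q • x) μ)
    (hne : μ ≠ volume)
    (hX : ∀ n, Measurable (X n)) (hind : iIndepFun X P) {S : Ω → T}
    (hlim : ∀ᵐ ω ∂P, Tendsto (fun N => ∑ i ∈ Finset.range N, X i ω) atTop (𝓝 (S ω)))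
    (h : CondC P X) :
    ∃ A : Set T, MeasurableSet A ∧ μ A = 1 ∧ ∀ m : ℤ, m ≠ 0 → ∀ t : T,
      P {ω | m • S ω + t ∈ A} = 0 := by
  have hS := aemeas hX hlim
  have hη : IsProbabilityMeasure (P.map S) := Measure.isProbabilityMeasure_map hS
  obtain ⟨c, C, π, δ, w, hc, hcpl, hδ, hw, hmix⟩ := couple_c hX hind hlim h
  have key : ∀ m : {m : ℤ // m ≠ 0}, ∃ A : Set T, MeasurableSet A ∧ μ Aᶜ = 0 ∧ ∀ t : T,
      P {ω | m.1 • S ω + t ∈ A} = 0 := by
    rintro ⟨m, hm⟩
    have mzm : Measurable (fun x : T => m • x) := (continuous_zsmul m).measurable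
    have hm0 : 0 < |(m : ℝ)| := abs_pos.2 (by exact_mod_cast hm)
    have hηm : IsProbabilityMeasure ((P.map S).map (fun x => m • x)) :=
      Measure.isProbabilityMeasure_map mzm.aemeasurable
    obtain ⟨A, hA, hA1, hA2⟩ : ∃ A : Set T, MeasurableSet A ∧ μ Aᶜ = 0 ∧
        ∀ t : T, ((P.map S).map (fun x => m • x)) {x | x + t ∈ A} = 0 := by
      refine Pool.Agent.Zk32.unif_set fun ω hω => ?_
      change μ ⟂ₘ ((P.map S).map (fun x => m • x)).conv ω
      have h1 := (hcpl.zsmul m).conv ω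
      have h2 : Tendsto (fun k => |(m : ℝ)| * δ k) atTop (𝓝 0) := by
        have := hδ.const_mul |(m : ℝ)|
        rwa [mul_zero] at this
      refine crit3 hp hq hpq hμp hμq hJ hne (by exact_mod_cast hc) h1 (C := C) h2 hw ?_
      filter_upwards [hδ.eventually (gt_mem_nhds (show (0 : ℝ) < 1 / |(m : ℝ)| by positivity))]
        with k hk
      exact ((hmix k).zsmul hm hk).conv ω
    refine ⟨A, hA, hA1, fun t => ?_⟩
    have h1 := hA2 t
    have hmA : MeasurableSet {x : T | x + t ∈ A} := measurable_add_const t hA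
    rw [Measure.map_apply mzm hmA, Measure.map_apply_of_aemeasurable hS (mzm hmA)] at h1
    exact h1
  choose A hA1 hA2 hA3 using key
  refine ⟨⋂ m, A m, MeasurableSet.iInter hA1, ?_, fun m hm t => ?_⟩
  · rw [← prob_compl_eq_zero_iff (MeasurableSet.iInter hA1), compl_iInter]
    exact measure_iUnion_null hA2
  · refine measure_mono_null ?_ (hA3 ⟨m, hm⟩ t)
    intro ω hω
    exact mem_iInter.1 hω ⟨m, hm⟩

/-- If the terms are almost surely equal to constants, up to a summable error, and have countably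
many values, then the sum has atoms. -/
lemma sum_atom {C₀ : Set T} (hC₀ : C₀.Countable) (hX : ∀ n, Measurable (X n))
    (hC : ∀ n, ∀ᵐ ω ∂P, X n ω ∈ C₀) {S : Ω → T}
    (hlim : ∀ᵐ ω ∂P, Tendsto (fun N => ∑ i ∈ Finset.range N, X i ω) atTop (𝓝 (S ω)))
    {a : ℕ → T} (hsum : ∑' n, P {ω | X n ω ≠ a n} ≠ ∞) (hat : ∀ t, P {ω | S ω = t} = 0) :
    False := by
  have ht := ENNReal.tendsto_sum_nat_add (fun n => P {ω | X n ω ≠ a n}) hsum
  obtain ⟨n₀, hn₀⟩ := (ht.eventually (gt_mem_nhds (show (0 : ℝ≥0∞) < 1 by norm_num))).exists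
  have hGc : P (⋃ n, {ω | X (n + n₀) ω ≠ a (n + n₀)}) < 1 := (measure_iUnion_le _).trans_lt hn₀
  have hC' : ∀ᵐ ω ∂P, ∀ n, X n ω ∈ C₀ := ae_all_iff.2 hC
  set E : Set T := range (fun b : Fin n₀ → C₀ => ∑ i, (b i : T)) with hE
  have hEc : E.Countable := by
    have : Countable C₀ := hC₀.to_subtype
    exact countable_range _
  by_cases hex : ∃ ω₀, (∀ n, X (n + n₀) ω₀ = a (n + n₀)) ∧
      Tendsto (fun N => ∑ i ∈ Finset.range N, X i ω₀) atTop (𝓝 (S ω₀))
  · obtain ⟨ω₀, h1, h2⟩ := hex
    set τ : T := S ω₀ - ∑ i ∈ Finset.range n₀, X i ω₀ with hτ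
    have hsplit : ∀ ω, (∀ n, X (n + n₀) ω = a (n + n₀)) → ∀ N,
        ∑ i ∈ Finset.range (n₀ + N), X i ω =
          ∑ i ∈ Finset.range n₀, X i ω + ∑ i ∈ Finset.range N, a (i + n₀) := by
      intro ω hω N
      rw [Finset.sum_range_add]
      congr 1
      refine Finset.sum_congr rfl fun i _ => ?_
      rw [add_comm n₀ i]
      exact hω i
    have hτlim : Tendsto (fun N => ∑ i ∈ Finset.range N, a (i + n₀)) atTop (𝓝 τ) := by
      have t1 : Tendsto (fun N => n₀ + N) atTop atTop := tendsto_atTop_mono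
        (fun N => Nat.le_add_left N n₀) tendsto_id
      have t2 := (h2.comp t1).sub_const (∑ i ∈ Finset.range n₀, X i ω₀)
      refine t2.congr fun N => ?_
      simp only [Function.comp_apply]
      rw [hsplit ω₀ h1 N]
      abel
    have hae : ∀ᵐ ω ∂P, (∀ n, X (n + n₀) ω = a (n + n₀)) → S ω ∈ (fun x => x + τ) '' E := by
      filter_upwards [hlim, hC'] with ω hω1 hω2 hω3
      have t1 : Tendsto (fun N => n₀ + N) atTop atTop := tendsto_atTop_mono
        (fun N => Nat.le_add_left N n₀) tendsto_id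
      have t2 := hω1.comp t1
      have t3 : Tendsto (fun N => ∑ i ∈ Finset.range (n₀ + N), X i ω) atTop
          (𝓝 (∑ i ∈ Finset.range n₀, X i ω + τ)) := by
        simp_rw [hsplit ω hω3]
        exact hτlim.const_add _
      have hSω : S ω = ∑ i ∈ Finset.range n₀, X i ω + τ := tendsto_nhds_unique t2 t3
      rw [hSω]
      refine ⟨_, ⟨fun i => ⟨X i ω, hω2 i⟩, rfl⟩, ?_⟩
      simp only
      rw [Finset.sum_range]
    have h0 : P {ω | S ω ∈ (fun x => x + τ) '' E} = 0 := by
      have hc := hEc.image (fun x => x + τ)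
      have e : {ω | S ω ∈ (fun x => x + τ) '' E} =
          ⋃ t ∈ (fun x => x + τ) '' E, {ω | S ω = t} := by
        ext ω
        simp
      rw [e, measure_biUnion_null_iff hc]
      exact fun t _ => hat t
    have h3 : ∀ᵐ ω ∂P, ω ∈ ⋃ n, {ω | X (n + n₀) ω ≠ a (n + n₀)} := by
      have h4 : ∀ᵐ ω ∂P, S ω ∉ (fun x => x + τ) '' E := by
        rw [ae_iff]
        simpa using h0
      filter_upwards [hae, h4] with ω hω1 hω2
      by_contra hcon
      apply hω2
      apply hω1
      intro n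
      by_contra hne
      exact hcon (mem_iUnion.2 ⟨n, hne⟩)
    have h5 : P (⋃ n, {ω | X (n + n₀) ω ≠ a (n + n₀)}) = 1 := by
      rw [← prob_compl_eq_zero_iff₀]
      · exact h3
      · exact (MeasurableSet.iUnion fun n =>
          (measurableSet_eq_fun (hX _) measurable_const).compl).nullMeasurableSet
    rw [h5] at hGc
    exact lt_irrefl _ hGc
  · push Not at hex
    have h3 : ∀ᵐ ω ∂P, ω ∈ ⋃ n, {ω | X (n + n₀) ω ≠ a (n + n₀)} := by
      filter_upwards [hlim] with ω hω
      by_contra hcon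
      refine hex ω (fun n => ?_) hω
      by_contra hne
      exact hcon (mem_iUnion.2 ⟨n, hne⟩)
    have h5 : P (⋃ n, {ω | X (n + n₀) ω ≠ a (n + n₀)}) = 1 := by
      rw [← prob_compl_eq_zero_iff₀]
      · exact h3
      · exact (MeasurableSet.iUnion fun n =>
          (measurableSet_eq_fun (hX _) measurable_const).compl).nullMeasurableSet
    rw [h5] at hGc
    exact lt_irrefl _ hGc

/-- terms with at most `K` values -/
theorem condC_of_values (hX : ∀ n, Measurable (X n)) {S : Ω → T}
    (hlim : ∀ᵐ ω ∂P, Tendsto (fun N => ∑ i ∈ Finset.range N, X i ω) atTop (𝓝 (S ω)))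
    {K : ℕ} (hK : ∀ n, ∃ s : Finset T, s.card ≤ K ∧ ∀ᵐ ω ∂P, X n ω ∈ s)
    (hat : ∀ t, P {ω | S ω = t} = 0) : CondC P X := by
  classical
  choose s hs1 hs2 using hK
  have hpig : ∀ n, ∃ a : T, ((1 / (K : ℝ≥0) : ℝ≥0) : ℝ≥0∞) ≤ P {ω | X n ω = a} := by
    intro n
    by_contra hcon
    push Not at hcon
    have h1 : P {ω | X n ω ∈ s n} = 1 := by
      have hm : MeasurableSet {ω | X n ω ∈ s n} := (hX n) (s n).measurableSet
      rw [← prob_compl_eq_zero_iff hm]
      exact hs2 n
    have h2 : P {ω | X n ω ∈ s n} ≤ ∑ b ∈ s n, P {ω | X n ω = b} := by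
      have e : {ω | X n ω ∈ s n} = ⋃ b ∈ s n, {ω | X n ω = b} := by
        ext ω; simp
      rw [e]
      exact measure_biUnion_finset_le _ _
    have hne : (s n).Nonempty := by
      rw [Finset.nonempty_iff_ne_empty]
      intro h0
      rw [h0] at h1
      simp at h1
    have h3 : ∑ b ∈ s n, P {ω | X n ω = b} < ∑ b ∈ s n, ((1 / (K : ℝ≥0) : ℝ≥0) : ℝ≥0∞) :=
      ENNReal.sum_lt_sum_of_nonempty hne fun b _ => hcon b
    rw [Finset.sum_const, nsmul_eq_mul] at h3
    have hKpos : 0 < K := lt_of_lt_of_le (Finset.card_pos.2 hne) (hs1 n)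
    have h4 : ((s n).card : ℝ≥0∞) * ((1 / (K : ℝ≥0) : ℝ≥0) : ℝ≥0∞) ≤ 1 := by
      have : ((s n).card : ℝ≥0) * (1 / (K : ℝ≥0)) ≤ 1 := by
        rw [mul_one_div, div_le_one (by exact_mod_cast hKpos)]
        exact_mod_cast hs1 n
      exact_mod_cast this
    rw [h1] at h2
    exact absurd (h2.trans_lt h3) (not_lt.2 h4)
  choose a ha using hpig
  have hC₀ : (⋃ n, (s n : Set T)).Countable := countable_iUnion fun n => (s n).countable_toSet
  have hKpos : 0 < K := by
    rcases Nat.eq_zero_or_pos K with h0 | h0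
    · exfalso
      have h1 := hs1 0
      rw [h0, Nat.le_zero, Finset.card_eq_zero] at h1
      have h2 := hs2 0
      rw [h1] at h2
      have : ∀ᵐ ω ∂P, False := by
        filter_upwards [h2] with ω hω
        simp at hω
      rw [ae_iff] at this
      simp at this
    · exact h0
  refine ⟨⋃ n, (s n : Set T), 1 / (K : ℝ≥0), a, hC₀, by positivity, ?_⟩
  by_contra hfin
  refine sum_atom hC₀ hX (fun n => ?_) hlim (a := a) ?_ hat
  · filter_upwards [hs2 n] with ω hω
    exact mem_iUnion.2 ⟨n, hω⟩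
  · refine ne_of_eq_of_ne (tsum_congr fun n => ?_) hfin
    rw [if_pos (ha n)]
    refine measure_congr ?_
    filter_upwards [hs2 n] with ω hω
    apply propext
    change X n ω ≠ a n ↔ X n ω ∈ ⋃ n, (s n : Set T) ∧ X n ω ≠ a n
    exact ⟨fun h => ⟨mem_iUnion.2 ⟨n, hω⟩, h⟩, fun h => h.2⟩

/-- the part of a translate which is absolutely continuous -/
lemma part_of_not_sing {μ : Measure T} [IsProbabilityMeasure μ] (θ : T) :
    ∃ κ : Measure T, Part μ κ θ ∧
      κ univ = ∫⁻ x, (μ.map (fun x => x + θ)).rnDeriv μ x ∂μ ∧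
      (κ = 0 → μ.map (fun x => x + θ) ⟂ₘ μ) := by
  have hf : IsProbabilityMeasure (μ.map (fun x => x + θ)) :=
    Measure.isProbabilityMeasure_map (measurable_add_const θ).aemeasurable
  set ν := μ.map (fun x => x + θ) with hν
  set τ := μ.withDensity (ν.rnDeriv μ) with hτ
  have hle : τ ≤ ν := Measure.withDensity_rnDeriv_le ν μ
  have m1 : Measurable (fun x : T => x - θ) := by fun_prop
  have e1 : (τ.map (fun x => x - θ)).map (fun x => x + θ) = τ := by
    rw [Measure.map_map (measurable_add_const θ) m1]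
    have : ((fun x : T => x + θ) ∘ fun x : T => x - θ) = id := by funext x; simp
    rw [this, Measure.map_id]
  refine ⟨τ.map (fun x => x - θ), ⟨?_, ?_⟩, ?_, ?_⟩
  · refine (Measure.map_mono hle m1).trans (le_of_eq ?_)
    rw [hν, Measure.map_map m1 (measurable_add_const θ)]
    have : ((fun x : T => x - θ) ∘ fun x : T => x + θ) = id := by funext x; simp
    rw [this, Measure.map_id]
  · rw [e1]
    exact withDensity_absolutelyContinuous _ _
  · rw [Measure.map_apply m1 MeasurableSet.univ, preimage_univ, hτ,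
      withDensity_apply _ MeasurableSet.univ, Measure.restrict_univ]
  · intro h0
    have hld : ν.HaveLebesgueDecomposition μ :=
      Measure.haveLebesgueDecomposition_of_sigmaFinite ν μ
    have h1 : τ = 0 := by rw [← e1, h0, Measure.map_zero]
    have h2 := Measure.haveLebesgueDecomposition_add ν μ
    rw [← hτ, h1, add_zero] at h2
    rw [h2]
    exact Measure.mutuallySingular_singularPart ν μ

/-- the translates -/
theorem translates (hp : 2 ≤ p) (hq : 2 ≤ q) (hpq : Nat.Coprime p q)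
    {μ : Measure T} [IsProbabilityMeasure μ]
    (hμp : MeasurePreserving (fun x : T => p • x) μ μ)
    (hμq : MeasurePreserving (fun x : T => q • x) μ μ)
    (hJ : Pool.Agent.Zk32.JE (fun x : T => p • x) (fun x : T => q • x) μ)
    (hne : μ ≠ volume) :
    (∀ θ : T, (¬ ∃ t : ℕ, 1 ≤ t ∧ Nat.Coprime (p * q) t ∧ t • θ = 0) →
      μ.map (fun x => x + θ) ⟂ₘ μ) ∧
    ∀ c : ℝ≥0, 0 < c →
      {θ : T | (c : ℝ≥0∞) ≤ ∫⁻ x, (μ.map (fun x => x + θ)).rnDeriv μ x ∂μ}.Finite := by
  refine ⟨fun θ hθ => ?_, fun c hc => ?_⟩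
  · obtain ⟨κ, h1, -, h3⟩ := part_of_not_sing (μ := μ) θ
    refine h3 ?_
    by_contra hκ
    exact hθ (tors_part hp hq hpq hμp hμq (sing_of_ne hp hq hμp hμq hJ hne) h1 hκ)
  · refine (finite_parts hp hq hpq hμp hμq hJ hne hc).subset ?_
    intro θ hθ
    obtain ⟨κ, h1, h2, -⟩ := part_of_not_sing (μ := μ) θ
    refine ⟨κ, h1, ?_⟩
    rw [h2]
    exact hθ

end Pool.Agent.Zk24.SC
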