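import Mathlib
import Pool.Agent.Zk24.SC.FinalC

/-!
Measures which are conservative under a set of translations.
-/

set_option autoImplicit false

open MeasureTheory Filter Topology Set
open scoped ENNReal NNReal

namespace Pool.Agent.Zk24.SC

/-- no part of `μ` is moved by a point of infinite order -/
lemma inf_part {p q : ℕ} (hp : 2 ≤ p) (hq : 2 ≤ q)
    (hirr : Irrational (Real.log p / Real.log q))
    {μ : Measure T} [IsProbabilityMeasure μ]
    (hμp : MeasurePreserving (fun x : T => p • x) μ μ)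
    (hμq : MeasurePreserving (fun x : T => q • x) μ μ)
    (hsing : μ ⟂ₘ (volume : Measure T)) {κ : Measure T} {θ : T} (h : Part μ κ θ) (hκ : κ ≠ 0) :
    IsOfFinAddOrder θ := by
  by_contra hnf
  obtain ⟨r, hr, hrθ⟩ := exists_irrational hnf
  have hms : μ.map (fun x : T => x + θ) ⟂ₘ μ := by
    refine Pool.Agent.H847R3.XpXq.maps hp hq hirr hμp hμq hμp hμq (Or.inl hsing)
      (C := {((r, fun _ => 1) : ℝ × (ℕ → ℕ))}) (countable_singleton _) ?_
      (measurable_add_const θ) ?_
    · rintro c hc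
      rw [mem_singleton_iff] at hc
      subst hc
      exact ⟨hr, fun k => ⟨0, 0, by simp⟩⟩
    · refine Eventually.of_forall fun x => ⟨1, 1, one_ne_zero, one_ne_zero, _,
        mem_singleton _, ?_⟩
      simp only [one_smul, add_sub_cancel_left]
      rw [hrθ]
      exact tendsto_const_nhds
  have h1 : κ.map (fun x : T => x + θ) ≪ μ.map (fun x : T => x + θ) :=
    (Measure.map_mono h.le (measurable_add_const θ)).absolutelyContinuous
  have h2 := hms.mono_ac h1 h.ac
  exact hκ (map_eq_zero' (measurable_add_const θ) ((Measure.MutuallySingular.self_iff _).1 h2))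

/-- conservative under a countable set `Γ` of translations -/
structure Cons (Γ : Set T) (η : Measure T) : Prop where
  countable : Γ.Countable
  qi : ∀ θ ∈ Γ, η.map (fun x => x + θ) ≪ η
  ret : ∀ E : Set T, MeasurableSet E → η E ≠ 0 → ∃ θ ∈ Γ, η {x | x ∈ E ∧ x + θ ∈ E} ≠ 0

lemma conv_apply (η ω : Measure T) [SFinite η] [SFinite ω] {A : Set T} (hA : MeasurableSet A) :
    (η.conv ω) A = ∫⁻ t, η {x | x + t ∈ A} ∂ω := by
  rw [Measure.conv_comm, Measure.conv, Measure.map_apply measurable_add hA,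
    Measure.prod_apply (measurable_add hA)]
  refine lintegral_congr fun t => ?_
  congr 1
  ext x
  simp [add_comm]

lemma Cons.conv {Γ : Set T} {η : Measure T} [IsFiniteMeasure η] (h : Cons Γ η) (ω : Measure T)
    [IsFiniteMeasure ω] : Cons Γ (η.conv ω) := by
  refine ⟨h.countable, fun θ hθ => ?_, fun E hE hE0 => ?_⟩
  · rw [trans_conv]
    have : IsFiniteMeasure (η.map (fun x => x + θ)) := inferInstance
    exact ac_conv (h.qi θ hθ)
  · by_contra hcon
    push Not at hcon
    apply hE0
    rw [conv_apply η ω hE]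
    have hFm : ∀ θ, MeasurableSet {x : T | x ∈ E ∧ x + θ ∈ E} := fun θ =>
      hE.inter (measurable_add_const θ hE)
    have h1 : ∀ θ ∈ Γ, ∀ᵐ t ∂ω, η {x | x + t ∈ {x : T | x ∈ E ∧ x + θ ∈ E}} = 0 := by
      intro θ hθ
      have h2 := hcon θ hθ
      rw [conv_apply η ω (hFm θ)] at h2
      have hmeas : Measurable fun t => η {x | x + t ∈ {x : T | x ∈ E ∧ x + θ ∈ E}} := by
        have e : (fun t => η {x | x + t ∈ {x : T | x ∈ E ∧ x + θ ∈ E}}) = fun t =>
            η (Prod.mk t ⁻¹' ((fun z : T × T => z.1 + z.2) ⁻¹' {x : T | x ∈ E ∧ x + θ ∈ E})) := by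
          funext t
          congr 1
          ext x
          simp [add_comm]
        rw [e]
        exact measurable_measure_prodMk_left (measurable_add (hFm θ))
      exact (lintegral_eq_zero_iff hmeas).1 h2
    have h3 : ∀ᵐ t ∂ω, ∀ θ ∈ Γ, η {x | x + t ∈ {x : T | x ∈ E ∧ x + θ ∈ E}} = 0 :=
      (ae_ball_iff h.countable).2 h1
    rw [← lintegral_zero (μ := ω)]
    refine lintegral_congr_ae ?_
    filter_upwards [h3] with t ht
    by_contra hne
    obtain ⟨θ, hθ, hθ2⟩ := h.ret {x | x + t ∈ E} (measurable_add_const t hE) hne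
    apply hθ2
    rw [← ht θ hθ]
    congr 1
    ext x
    simp only [mem_ofPred_eq]
    rw [add_right_comm]

lemma cons_sing {Γ : Set T} {η μ : Measure T} [IsFiniteMeasure η] [IsProbabilityMeasure μ]
    (h : Cons Γ η) (hΓ : ∀ θ ∈ Γ, ∀ κ : Measure T, Part μ κ θ → κ = 0) : μ ⟂ₘ η := by
  by_contra hns
  obtain ⟨e, he, E, hE, hE0, hle⟩ := Measure.exists_positive_of_not_mutuallySingular μ η hns
  obtain ⟨θ, hθ, hF⟩ := h.ret E hE hE0.ne'
  set F : Set T := {x | x ∈ E ∧ x + θ ∈ E} with hFdef
  have hFm : MeasurableSet F := hE.inter (measurable_add_const θ hE)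
  have hpart : Part μ ((e : ℝ≥0∞) • η.restrict F) θ := by
    refine ⟨?_, ?_⟩
    · refine Measure.le_intro fun A hA _ => ?_
      rw [Measure.smul_apply, smul_eq_mul, Measure.restrict_apply hA]
      calc (e : ℝ≥0∞) * η (A ∩ F) ≤ e * η (A ∩ E) :=
            mul_le_mul_right (measure_mono (show A ∩ F ⊆ A ∩ E from
              fun x hx => ⟨hx.1, hx.2.1⟩)) _
        _ ≤ μ (A ∩ E) := hle A hA
        _ ≤ μ A := measure_mono inter_subset_left
    · refine Measure.AbsolutelyContinuous.mk fun A hA hA0 => ?_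
      rw [Measure.map_smul, Measure.smul_apply, smul_eq_mul,
        Measure.map_apply (measurable_add_const θ) hA]
      have h1 : η (A ∩ E) = 0 := by
        have h2 := hle A hA
        have h3 : μ (A ∩ E) = 0 := measure_inter_null_of_null_left _ hA0
        rw [h3] at h2
        have h4 := le_antisymm h2 bot_le
        rcases mul_eq_zero.1 h4 with h5 | h5
        · rw [ENNReal.coe_eq_zero] at h5
          exact absurd h5 he.ne'
        · exact h5
      have h2 := h.qi θ hθ h1
      rw [Measure.map_apply (measurable_add_const θ) (hA.inter hE)] at h2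
      have h3 : (η.restrict F) ((fun x => x + θ) ⁻¹' A) = 0 := by
        rw [Measure.restrict_apply (measurable_add_const θ hA)]
        refine measure_mono_null ?_ h2
        rintro x ⟨hx1, hx2⟩
        exact ⟨hx1, hx2.2⟩
      rw [h3, mul_zero]
  have h0 := hΓ θ hθ _ hpart
  have h1 : ((e : ℝ≥0∞) • η.restrict F) univ = 0 := by rw [h0]; rfl
  rw [Measure.smul_apply, smul_eq_mul, Measure.restrict_apply_univ] at h1
  rcases mul_eq_zero.1 h1 with h5 | h5
  · rw [ENNReal.coe_eq_zero] at h5
    exact he.ne' h5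
  · exact hF h5

lemma cons_set {Γ : Set T} {η μ : Measure T} [IsProbabilityMeasure η] [IsProbabilityMeasure μ]
    (h : Cons Γ η) (hΓ : ∀ θ ∈ Γ, ∀ κ : Measure T, Part μ κ θ → κ = 0) :
    ∃ A : Set T, MeasurableSet A ∧ μ A = 1 ∧ ∀ t : T, η {x | x + t ∈ A} = 0 := by
  obtain ⟨A, hA, hA1, hA2⟩ := Pool.Agent.Zk32.unif_set (μ := μ) (θ := η) fun ω hω =>
    cons_sing (h.conv ω) hΓ
  exact ⟨A, hA, (prob_compl_eq_zero_iff hA).1 hA1, hA2⟩

end Pool.Agent.Zk24.SC
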