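import Mathlib
import Pool.Agent.Zk24.SC.Cons

/-!
Final forms.
-/

set_option autoImplicit false

open MeasureTheory Filter Topology Set ProbabilityTheory
open scoped ENNReal NNReal

namespace Pool.Agent.Zk24.SC

variable {p q : ℕ}

theorem cons_irr (hp : 2 ≤ p) (hq : 2 ≤ q) (hirr : Irrational (Real.log p / Real.log q))
    {Γ : Set T} {η : Measure T} (hη : IsProbabilityMeasure η) (hcons : Cons Γ η)
    (hΓ : ∀ θ ∈ Γ, ¬ IsOfFinAddOrder θ)
    (μ : Measure T) [IsProbabilityMeasure μ]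
    (hμp : MeasurePreserving (fun x : T => p • x) μ μ)
    (hμq : MeasurePreserving (fun x : T => q • x) μ μ) :
    (μ ⟂ₘ (volume : Measure T) → ∃ A : Set T, MeasurableSet A ∧ μ A = 1 ∧
      ∀ t : T, η {x | x + t ∈ A} = 0) ∧
    (∀ ν : Measure T, IsProbabilityMeasure ν → μ ≪ η.conv ν → μ = (volume : Measure T)) := by
  have key : ∀ σ : Measure T, IsProbabilityMeasure σ →
      MeasurePreserving (fun x : T => p • x) σ σ → MeasurePreserving (fun x : T => q • x) σ σ →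
      σ ⟂ₘ (volume : Measure T) → ∀ θ ∈ Γ, ∀ κ : Measure T, Part σ κ θ → κ = 0 := by
    intro σ hσ hσp hσq hσs θ hθ κ hκ
    by_contra hne
    exact hΓ θ hθ (inf_part hp hq hirr hσp hσq hσs hκ hne)
  refine ⟨fun hsing => cons_set hcons (key μ inferInstance hμp hμq hsing), fun ν hν hac => ?_⟩
  refine rigid_of_sing hp hq (η := η.conv ν) ?_ hμp hμq hac
  intro σ hσ hσp hσq hσs
  exact cons_sing (hcons.conv ν) (key σ hσ hσp hσq hσs)

theorem cons_cop (hp : 2 ≤ p) (hq : 2 ≤ q) (hpq : Nat.Coprime p q)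
    {Γ : Set T} {η : Measure T} (hη : IsProbabilityMeasure η) (hcons : Cons Γ η)
    (hΓ : ∀ θ ∈ Γ, ¬ ∃ t : ℕ, 1 ≤ t ∧ Nat.Coprime (p * q) t ∧ t • θ = 0)
    {μ : Measure T} [IsProbabilityMeasure μ]
    (hμp : MeasurePreserving (fun x : T => p • x) μ μ)
    (hμq : MeasurePreserving (fun x : T => q • x) μ μ) (hsing : μ ⟂ₘ (volume : Measure T)) :
    ∃ A : Set T, MeasurableSet A ∧ μ A = 1 ∧ ∀ t : T, η {x | x + t ∈ A} = 0 := by
  refine cons_set hcons fun θ hθ κ hκ => ?_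
  by_contra hne
  exact hΓ θ hθ (tors_part hp hq hpq hμp hμq hsing hκ hne)

theorem trans_cop (hp : 2 ≤ p) (hq : 2 ≤ q) (hpq : Nat.Coprime p q)
    {μ : Measure T} [IsProbabilityMeasure μ]
    (hμp : MeasurePreserving (fun x : T => p • x) μ μ)
    (hμq : MeasurePreserving (fun x : T => q • x) μ μ) (hsing : μ ⟂ₘ (volume : Measure T))
    (θ : T) (hθ : ¬ ∃ t : ℕ, 1 ≤ t ∧ Nat.Coprime (p * q) t ∧ t • θ = 0) :
    μ.map (fun x => x + θ) ⟂ₘ μ := by
  obtain ⟨κ, h1, -, h3⟩ := part_of_not_sing (μ := μ) θ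
  refine h3 ?_
  by_contra hκ
  exact hθ (tors_part hp hq hpq hμp hμq hsing h1 hκ)

end Pool.Agent.Zk24.SC
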